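import Pool.Agent.Helper18.ES.Theta

open Real Filter Topology Set

namespace Pool.Agent.Helper18.ES

lemma kap_nonneg {u : ℝ} (hu : 1 ≤ u) : 0 ≤ kap u := by
  unfold kap
  apply mul_nonneg _ (exp_pos _).le
  have h1 : (1 : ℝ) ≤ u ^ 2 := one_le_pow₀ hu
  have h3 := pi_gt_three
  have : 4 * π ^ 2 * u ^ 4 - 6 * π * u ^ 2 = 2 * π * u ^ 2 * (2 * π * u ^ 2 - 3) := by ring
  rw [this]
  apply mul_nonneg (by positivity)
  nlinarith

lemma kap_ge {u : ℝ} (hu : 1 ≤ u) : 16 * u ^ 4 * exp (-(π * u ^ 2)) ≤ kap u := by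
  unfold kap
  apply mul_le_mul_of_nonneg_right _ (exp_pos _).le
  have h1 : (1 : ℝ) ≤ u ^ 2 := one_le_pow₀ hu
  have h3 := pi_gt_three
  have : 4 * π ^ 2 * u ^ 4 - 6 * π * u ^ 2 - 16 * u ^ 4
      = u ^ 2 * (u ^ 2 * (4 * π ^ 2 - 16) - 6 * π) := by ring
  have h4 : 0 ≤ u ^ 2 * (u ^ 2 * (4 * π ^ 2 - 16) - 6 * π) := by
    apply mul_nonneg (by positivity)
    have : 6 * π ≤ 4 * π ^ 2 - 16 := by nlinarith
    have h5 : (0:ℝ) ≤ 4 * π ^ 2 - 16 := by nlinarith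
    nlinarith
  linarith

lemma kap_le {u : ℝ} : kap u ≤ 4 * π ^ 2 * u ^ 4 * exp (-(π * u ^ 2)) := by
  unfold kap
  apply mul_le_mul_of_nonneg_right _ (exp_pos _).le
  have : 0 ≤ 6 * π * u ^ 2 := by positivity
  linarith

lemma one_le_mul_of_pnat (m : ℕ+) {u : ℝ} (hu : 1 ≤ u) : 1 ≤ (m : ℝ) * u := by
  have : (1 : ℝ) ≤ (m : ℝ) := by exact_mod_cast m.one_le
  nlinarith

lemma K_ge {u : ℝ} (hu : 1 ≤ u) : 16 * u ^ 4 * exp (-(π * u ^ 2)) ≤ K u := by
  have h := (summable_kap (lt_of_lt_of_le one_pos hu)).le_tsum 1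
    (fun m _ => kap_nonneg (one_le_mul_of_pnat m hu))
  simp only [PNat.one_coe, Nat.cast_one, one_mul] at h
  exact (kap_ge hu).trans h

lemma summable_C0 : Summable fun m : ℕ+ => (m : ℝ) ^ 4 * exp (-(π * ((m : ℝ) ^ 2 - 1))) := by
  have h := ((summable_T 2 (s := 1) one_pos).comp_injective (i := fun m : ℕ+ => ((m : ℕ) : ℤ))
    (fun a b h => by
      have : ((a : ℕ) : ℤ) = ((b : ℕ) : ℤ) := h
      exact PNat.coe_injective (by exact_mod_cast this))).mul_left (exp π / π ^ 2)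
  refine h.congr (fun m => ?_)
  simp only [Function.comp, Int.cast_natCast, mul_one]
  have : exp (-(π * ((m : ℝ) ^ 2 - 1))) = exp π * exp (-(π * (m : ℝ) ^ 2)) := by
    rw [← exp_add]; congr 1; ring
  rw [this]
  field_simp

/-- constant in the upper bound for the kernel -/
noncomputable def C0 : ℝ := 4 * π ^ 2 * ∑' m : ℕ+, (m : ℝ) ^ 4 * exp (-(π * ((m : ℝ) ^ 2 - 1)))

lemma C0_pos : 0 < C0 := by
  unfold C0
  apply mul_pos (by positivity)
  exact summable_C0.tsum_pos (fun m => by positivity) 1 (by positivity)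

lemma K_le {u : ℝ} (hu : 1 ≤ u) : K u ≤ C0 * u ^ 4 * exp (-(π * u ^ 2)) := by
  have hu0 : 0 < u := by linarith
  have h1 : K u ≤ ∑' m : ℕ+, (4 * π ^ 2 * u ^ 4 * exp (-(π * u ^ 2))) *
      ((m : ℝ) ^ 4 * exp (-(π * ((m : ℝ) ^ 2 - 1)))) := by
    apply (summable_kap hu0).tsum_le_tsum _ (summable_C0.mul_left _)
    intro m
    refine kap_le.trans ?_
    have hm : (1 : ℝ) ≤ (m : ℝ) := by exact_mod_cast m.one_le
    have he : exp (-(π * ((m : ℝ) * u) ^ 2)) ≤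
        exp (-(π * u ^ 2)) * exp (-(π * ((m : ℝ) ^ 2 - 1))) := by
      rw [← exp_add]
      apply exp_le_exp.mpr
      have h2 : (1 : ℝ) ≤ u ^ 2 := one_le_pow₀ hu
      have h3 : (0 : ℝ) ≤ (m : ℝ) ^ 2 - 1 := by
        have : (1 : ℝ) ≤ (m : ℝ) ^ 2 := one_le_pow₀ hm
        linarith
      have h4 : 0 ≤ π * (((m : ℝ) ^ 2 - 1) * (u ^ 2 - 1)) := by
        apply mul_nonneg pi_pos.le (mul_nonneg h3 (by linarith))
      nlinarith
    calc 4 * π ^ 2 * ((m : ℝ) * u) ^ 4 * exp (-(π * ((m : ℝ) * u) ^ 2))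
        ≤ 4 * π ^ 2 * ((m : ℝ) * u) ^ 4 * (exp (-(π * u ^ 2)) * exp (-(π * ((m : ℝ) ^ 2 - 1)))) := by
          apply mul_le_mul_of_nonneg_left he (by positivity)
      _ = _ := by ring
  rw [tsum_mul_left] at h1
  refine h1.trans (le_of_eq ?_)
  unfold C0
  ring

lemma K_pos {u : ℝ} (hu : 0 < u) : 0 < K u := by
  rcases le_total 1 u with h | h
  · exact lt_of_lt_of_le (by positivity) (K_ge h)
  · have h1 : 1 ≤ 1 / u := by rw [le_div_iff₀ hu]; linarith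
    have h2 := K_inv (u := 1 / u) (by positivity)
    rw [one_div_one_div] at h2
    rw [h2]
    exact mul_pos (by positivity) (lt_of_lt_of_le (by positivity) (K_ge h1))

/-- `vv u = max u (1/u)`. -/
noncomputable def vv (u : ℝ) : ℝ := max u (1 / u)

lemma vv_ge_one {u : ℝ} (hu : 0 < u) : 1 ≤ vv u := by
  unfold vv
  rcases le_total 1 u with h | h
  · exact le_max_of_le_left h
  · apply le_max_of_le_right
    rw [le_div_iff₀ hu]; linarith

lemma le_vv (u : ℝ) : u ≤ vv u := le_max_left _ _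
lemma inv_le_vv (u : ℝ) : 1 / u ≤ vv u := le_max_right _ _

lemma vv_eq_or {u : ℝ} (hu : 0 < u) : (1 ≤ u ∧ vv u = u) ∨ (u ≤ 1 ∧ vv u = 1 / u) := by
  rcases le_total 1 u with h | h
  · left
    refine ⟨h, max_eq_left ?_⟩
    rw [div_le_iff₀ hu]; nlinarith
  · right
    refine ⟨h, max_eq_right ?_⟩
    rw [le_div_iff₀ hu]; nlinarith

lemma K_le_vv {u : ℝ} (hu : 0 < u) : K u ≤ C0 * (vv u) ^ 5 * exp (-(π * (vv u) ^ 2)) := by
  rcases vv_eq_or hu with ⟨h, hv⟩ | ⟨h, hv⟩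
  · rw [hv]
    refine (K_le h).trans ?_
    apply mul_le_mul_of_nonneg_right _ (exp_pos _).le
    apply mul_le_mul_of_nonneg_left _ C0_pos.le
    exact pow_le_pow_right₀ h (by norm_num)
  · rw [hv]
    have h1 : 1 ≤ 1 / u := by rw [le_div_iff₀ hu]; linarith
    have h2 := K_inv (u := 1 / u) (by positivity)
    rw [one_div_one_div] at h2
    rw [h2]
    calc 1 / u * K (1 / u) ≤ 1 / u * (C0 * (1 / u) ^ 4 * exp (-(π * (1 / u) ^ 2))) :=
          mul_le_mul_of_nonneg_left (K_le h1) (by positivity)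
      _ = _ := by ring

lemma pow_mul_exp_bdd (N : ℕ) {b : ℝ} (hb : 0 < b) :
    ∃ C : ℝ, 0 < C ∧ ∀ v : ℝ, 1 ≤ v → v ^ N * exp (-(b * v ^ 2)) ≤ C := by
  have h1 := Real.tendsto_pow_mul_exp_neg_atTop_nhds_zero N
  have h2 : Tendsto (fun v : ℝ => (b * v ^ 2)) atTop atTop :=
    (tendsto_pow_atTop (by norm_num)).const_mul_atTop hb
  have h3 := h1.comp h2
  -- bounded for all v ≥ 1 : use elementary inequality
  obtain ⟨C, hC⟩ : ∃ C : ℝ, ∀ y : ℝ, 0 ≤ y → y ^ N * exp (-y) ≤ C := by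
    refine ⟨N.factorial, fun y hy => ?_⟩
    rw [exp_neg, ← div_eq_mul_inv, div_le_iff₀ (exp_pos _)]
    have := Real.pow_div_factorial_le_exp y hy N
    rw [div_le_iff₀ (by positivity)] at this
    linarith
  refine ⟨|C| / b ^ N + 1, by positivity, fun v hv => ?_⟩
  have h4 := hC (b * v ^ 2) (by positivity)
  have h5 : v ^ N ≤ (v ^ 2) ^ N := by
    apply pow_le_pow_left₀ (by linarith)
    nlinarith
  have h6 : v ^ N * exp (-(b * v ^ 2)) ≤ (v ^ 2) ^ N * exp (-(b * v ^ 2)) :=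
    mul_le_mul_of_nonneg_right h5 (exp_pos _).le
  have h7 : (v ^ 2) ^ N * exp (-(b * v ^ 2)) = ((b * v ^ 2) ^ N * exp (-(b * v ^ 2))) / b ^ N := by
    rw [mul_pow]; field_simp
  rw [h7] at h6
  have h8 : ((b * v ^ 2) ^ N * exp (-(b * v ^ 2))) / b ^ N ≤ |C| / b ^ N := by
    apply div_le_div_of_nonneg_right (h4.trans (le_abs_self _)) (by positivity)
  linarith

/-- For `a < π`, `v^N K(u) ≤ C exp(-a v²)`, `v = max u (1/u)`. -/
lemma K_le_exp (N : ℕ) {a : ℝ} (ha : a < π) :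
    ∃ C : ℝ, 0 < C ∧ ∀ u : ℝ, 0 < u → (vv u) ^ N * K u ≤ C * exp (-(a * (vv u) ^ 2)) := by
  obtain ⟨C, hC, h⟩ := pow_mul_exp_bdd (N + 5) (b := π - a) (by linarith)
  refine ⟨C0 * C, mul_pos C0_pos hC, fun u hu => ?_⟩
  have h1 := h (vv u) (vv_ge_one hu)
  have hv := vv_ge_one hu
  calc (vv u) ^ N * K u ≤ (vv u) ^ N * (C0 * (vv u) ^ 5 * exp (-(π * (vv u) ^ 2))) :=
        mul_le_mul_of_nonneg_left (K_le_vv hu) (by positivity)
    _ = C0 * ((vv u) ^ (N + 5) * exp (-((π - a) * (vv u) ^ 2))) * exp (-(a * (vv u) ^ 2)) := by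
        have : exp (-(π * (vv u) ^ 2)) = exp (-((π - a) * (vv u) ^ 2)) * exp (-(a * (vv u) ^ 2)) := by
          rw [← exp_add]; congr 1; ring
        rw [this, pow_add]; ring
    _ ≤ C0 * C * exp (-(a * (vv u) ^ 2)) := by
        apply mul_le_mul_of_nonneg_right _ (exp_pos _).le
        exact mul_le_mul_of_nonneg_left h1 C0_pos.le

lemma K_le_pow (N : ℕ) : ∃ C : ℝ, 0 < C ∧ ∀ u : ℝ, 0 < u → (vv u) ^ N * K u ≤ C := by
  obtain ⟨C, hC, h⟩ := K_le_exp N pi_pos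
  refine ⟨C, hC, fun u hu => (h u hu).trans ?_⟩
  simp

lemma continuousOn_K : ContinuousOn K (Ioi 0) := by
  have h : ∀ u ∈ Ioi (0 : ℝ), K u = (4 * u ^ 4 * T 2 (u ^ 2) - 6 * u ^ 2 * T 1 (u ^ 2)) / 2 := by
    intro u hu
    have := two_K_eq hu
    linarith
  refine ContinuousOn.congr ?_ h
  have hT : ∀ k : ℕ, ContinuousOn (fun u : ℝ => T k (u ^ 2)) (Ioi 0) := by
    intro k u hu
    have hu' : (0 : ℝ) < u ^ 2 := by
      have : (0 : ℝ) < u := hu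
      positivity
    have h1 := (hasDerivAt_T k hu').continuousAt
    exact (ContinuousAt.comp (f := fun u : ℝ => u ^ 2) h1 (by fun_prop)).continuousWithinAt
  have h1 := hT 1
  have h2 := hT 2
  fun_prop

end Pool.Agent.Helper18.ES
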