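import Pool.Agent.Helper18.ES.Weight

open Real Filter Topology Set MeasureTheory Asymptotics
open Pool.Agent.Helper57.Zeta

namespace Pool.Agent.Helper18.ES

lemma K_le_cube : ∃ C : ℝ, 0 < C ∧ ∀ w : ℝ, 0 < w → K w ≤ C / w ^ 3 := by
  obtain ⟨C, hC, h⟩ := K_le_pow 3
  refine ⟨C, hC, fun w hw => ?_⟩
  rw [le_div_iff₀ (by positivity)]
  have h1 : w ^ 3 ≤ vv w ^ 3 := pow_le_pow_left₀ hw.le (le_vv w) 3
  have h2 := h w hw
  have h3 : w ^ 3 * K w ≤ vv w ^ 3 * K w := mul_le_mul_of_nonneg_right h1 (K_pos hw).le
  linarith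

/-- admissible summatory functions -/
structure Adm (A : ℝ → ℝ) (D : ℝ) : Prop where
  meas : Measurable A
  zero : ∀ t : ℝ, t < 1 → A t = 0
  bound : ∀ t : ℝ, 1 ≤ t → |A t| ≤ D * t
  nonneg : 0 ≤ D

/-- the kernel average -/
noncomputable def GA (A : ℝ → ℝ) (z : ℝ) : ℝ := ∫ t in Ioi (0 : ℝ), A t / t * K (t / z)

/-- majorant -/
noncomputable def maj (c : ℝ) : ℝ → ℝ := (Ici (1 : ℝ)).indicator fun t => c * t ^ (-3 : ℝ)

lemma maj_integrable (c : ℝ) : Integrable (maj c) := by
  unfold maj
  rw [integrable_indicator_iff measurableSet_Ici]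
  apply Integrable.const_mul
  exact Iff.mpr integrableOn_Ici_iff_integrableOn_Ioi (integrableOn_Ioi_rpow_of_lt (by norm_num) one_pos)

lemma maj_bound {A : ℝ → ℝ} {D : ℝ} (h : Adm A D) {C : ℝ} (hC : ∀ w : ℝ, 0 < w → K w ≤ C / w ^ 3)
    {z : ℝ} (hz : 0 < z) {t : ℝ} (ht : 0 < t) :
    |A t / t * K (t / z)| ≤ maj (D * C * z ^ 3) t := by
  unfold maj
  rcases lt_or_ge t 1 with h1 | h1
  · rw [indicator_of_notMem (by simp only [mem_Ici, not_le]; exact h1), h.zero t h1]
    simp
  · rw [indicator_of_mem (by exact h1)]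
    have hK := hC (t / z) (by positivity)
    have hKp := K_pos (u := t / z) (by positivity)
    rw [abs_mul, abs_div, abs_of_pos ht, abs_of_pos hKp]
    have h2 : |A t| / t ≤ D := by
      rw [div_le_iff₀ ht]; exact h.bound t h1
    have h3 : C / (t / z) ^ 3 = C * z ^ 3 * t ^ (-3 : ℝ) := by
      have : t ^ (-3 : ℝ) = (t ^ 3)⁻¹ := by
        rw [rpow_neg ht.le]; norm_num
      rw [this]; field_simp
    calc |A t| / t * K (t / z) ≤ D * (C / (t / z) ^ 3) :=
          mul_le_mul h2 hK hKp.le h.nonneg
      _ = _ := by rw [h3]; ring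

lemma continuousOn_K_div (z : ℝ) (hz : 0 < z) : ContinuousOn (fun t : ℝ => K (t / z)) (Ioi 0) := by
  apply continuousOn_K.comp (by fun_prop)
  intro t ht
  have : (0 : ℝ) < t := ht
  exact div_pos this hz

lemma int_A {A : ℝ → ℝ} {D : ℝ} (h : Adm A D) {z : ℝ} (hz : 0 < z) :
    IntegrableOn (fun t => A t / t * K (t / z)) (Ioi 0) := by
  obtain ⟨C, hC0, hC⟩ := K_le_cube
  apply Integrable.mono' (maj_integrable (D * C * z ^ 3)).integrableOn
  · apply AEStronglyMeasurable.mul
    · exact (h.meas.div measurable_id).aestronglyMeasurable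
    · exact (continuousOn_K_div z hz).aestronglyMeasurable measurableSet_Ioi
  · rw [ae_restrict_iff' measurableSet_Ioi]
    refine Eventually.of_forall (fun t ht => ?_)
    rw [Real.norm_eq_abs]
    exact maj_bound h hC hz ht

/-- The main interchange: the detecting functional is a Mellin-type average of `GA`. -/
lemma fubini {A : ℝ → ℝ} {D : ℝ} (h : Adm A D) {W : ℝ → ℂ} (hW : Wt W) {x : ℝ} (hx : 0 < x) :
    (∫ t in Ioi (0 : ℝ), ((A t / t : ℝ) : ℂ) * K1 W (t / x)) =
      ∫ y in Ioo (0 : ℝ) 1, W y * (GA A (x * y) : ℂ) := by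
  obtain ⟨C, hC0, hC⟩ := K_le_cube
  have hL : (∫ t in Ioi (0 : ℝ), ((A t / t : ℝ) : ℂ) * K1 W (t / x)) =
      ∫ t in Ioi (0 : ℝ), ∫ y in Ioo (0 : ℝ) 1,
        ((A t / t : ℝ) : ℂ) * (W y * (K (t / x / y) : ℂ)) := by
    apply setIntegral_congr_fun measurableSet_Ioi
    intro t _
    simp only
    rw [integral_const_mul]
    rfl
  rw [hL]
  rw [integral_integral_swap]
  · apply setIntegral_congr_fun measurableSet_Ioo
    intro y hy
    have hy0 : 0 < y := hy.1
    simp only
    unfold GA
    rw [← integral_complex_ofReal, ← integral_const_mul]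
    apply setIntegral_congr_fun measurableSet_Ioi
    intro t _
    simp only
    rw [div_div]
    push_cast
    ring
  · have hb : Integrable (fun p : ℝ × ℝ => maj (D * C * x ^ 3) p.1 * (‖W p.2‖ * p.2 ^ 2))
        ((volume.restrict (Ioi (0 : ℝ))).prod (volume.restrict (Ioo (0 : ℝ) 1))) :=
      Integrable.mul_prod (f := maj (D * C * x ^ 3)) (g := fun y : ℝ => ‖W y‖ * y ^ 2)
        (maj_integrable (D * C * x ^ 3)).integrableOn hW.int0
    rw [Measure.prod_restrict] at hb ⊢
    apply Integrable.mono' hb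
    · apply AEStronglyMeasurable.mul
      · apply Measurable.aestronglyMeasurable
        exact Complex.measurable_ofReal.comp ((h.meas.comp measurable_fst).div measurable_fst)
      · apply ContinuousOn.aestronglyMeasurable _ (measurableSet_Ioi.prod measurableSet_Ioo)
        apply ContinuousOn.mul
        · apply hW.cont.comp continuousOn_snd
          intro p hp
          exact hp.2.1
        · apply Complex.continuous_ofReal.comp_continuousOn
          apply continuousOn_K.comp
          · intro p hp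
            have hy0 : (0 : ℝ) < p.2 := hp.2.1
            apply ContinuousAt.continuousWithinAt
            apply ContinuousAt.div _ continuousAt_snd hy0.ne'
            fun_prop
          · intro p hp
            have hy0 : (0 : ℝ) < p.2 := hp.2.1
            have ht0 : (0 : ℝ) < p.1 := hp.1
            exact div_pos (div_pos ht0 hx) hy0
    · rw [ae_restrict_iff' (measurableSet_Ioi.prod measurableSet_Ioo)]
      refine Eventually.of_forall (fun p hp => ?_)
      obtain ⟨t, y⟩ := p
      have hy0 : (0 : ℝ) < y := hp.2.1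
      have hy1 : y < 1 := hp.2.2
      have ht0 : (0 : ℝ) < t := hp.1
      simp only [Function.uncurry]
      rw [norm_mul, norm_mul]
      have h2 := maj_bound h hC (z := x * y) (by positivity) ht0
      rw [abs_mul] at h2
      have hKp := K_pos (u := t / x / y) (by positivity)
      rw [Complex.norm_real, Complex.norm_real, Real.norm_eq_abs, Real.norm_eq_abs]
      have e1 : t / x / y = t / (x * y) := by rw [div_div]
      rw [e1]
      have e2 : maj (D * C * (x * y) ^ 3) t ≤ maj (D * C * x ^ 3) t * y ^ 2 := by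
        unfold maj
        rcases lt_or_ge t 1 with h3 | h3
        · rw [indicator_of_notMem (by simp only [mem_Ici, not_le]; exact h3),
            indicator_of_notMem (by simp only [mem_Ici, not_le]; exact h3)]
          simp
        · rw [indicator_of_mem (by exact h3), indicator_of_mem (by exact h3)]
          have e3 : y ^ 3 ≤ y ^ 2 := pow_le_pow_of_le_one hy0.le hy1.le (by norm_num)
          have hD := h.nonneg
          calc D * C * (x * y) ^ 3 * t ^ (-3 : ℝ)
              = y ^ 3 * (D * C * x ^ 3 * t ^ (-3 : ℝ)) := by ring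
            _ ≤ y ^ 2 * (D * C * x ^ 3 * t ^ (-3 : ℝ)) := by
                apply mul_le_mul_of_nonneg_right e3
                positivity
            _ = _ := by ring
      calc |A t / t| * (‖W y‖ * |K (t / (x * y))|)
          = ‖W y‖ * (|A t / t| * |K (t / (x * y))|) := by ring
        _ ≤ ‖W y‖ * (maj (D * C * x ^ 3) t * y ^ 2) :=
            mul_le_mul_of_nonneg_left (h2.trans e2) (norm_nonneg _)
        _ = _ := by ring

end Pool.Agent.Helper18.ES
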