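import Pool.Agent.Helper18.ES.Lam2

open Real Filter Topology Set MeasureTheory Asymptotics
open Pool.Agent.Helper57.Zeta

namespace Pool.Agent.Helper18.ES

/-- the gauge -/
noncomputable def Gz (β : ℝ) (k : ℕ) (x : ℝ) : ℝ := x ^ β * log x ^ k

def Lowr (A : ℝ → ℝ) (β : ℝ) (k : ℕ) : Prop :=
  ∃ c : ℝ, 0 < c ∧ ∃ x₀ : ℝ, 1 ≤ x₀ ∧ ∀ x : ℝ, x₀ ≤ x → c * Gz β k x ≤ GA (fun t => max (A t) 0) x

lemma vv_div {t x : ℝ} : vv (t / x) = max (t / x) (x / t) := by
  unfold vv
  rw [one_div_div]

lemma measurable_vv : Measurable vv := by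
  unfold vv
  exact measurable_id.max (measurable_const.div measurable_id)

/-- `L¹` form of the lower bound. -/
theorem mean_form {A : ℝ → ℝ} {D β : ℝ} {k : ℕ} (h : Adm A D) (hlow : Lowr A β k)
    {a : ℝ} (ha0 : 0 < a) (ha : a < π) :
    ∃ c : ℝ, 0 < c ∧ ∃ x₀ : ℝ, 1 ≤ x₀ ∧ ∀ x : ℝ, x₀ ≤ x → c * Gz β k x ≤
      ∫ t in Ioi (1 : ℝ), max (A t) 0 / t * exp (-(a * (vv (t / x)) ^ 2)) := by
  obtain ⟨c, hc, x₀, hx₀, hl⟩ := hlow
  obtain ⟨C, hC, hK⟩ := K_le_exp 0 ha
  refine ⟨c / C, by positivity, x₀, hx₀, fun x hx => ?_⟩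
  have hx0 : 0 < x := by linarith
  have h1 := hl x hx
  have h2 : GA (fun t => max (A t) 0) x = ∫ t in Ioi (1 : ℝ), max (A t) 0 / t * K (t / x) := by
    unfold GA
    apply setIntegral_eq_of_subset_of_ae_sdiff_eq_zero measurableSet_Ioi.nullMeasurableSet
    · intro t (ht : (1 : ℝ) < t)
      exact (lt_trans one_pos ht : (0 : ℝ) < t)
    · have : ∀ᵐ t : ℝ, t ≠ 1 := by
        rw [ae_iff]; simp
      filter_upwards [this] with t ht1 ht
      have h3 : t < 1 := lt_of_le_of_ne (not_lt.mp ht.2) ht1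
      rw [h.zero t h3]
      simp
  have hmeasA : Measurable fun t => max (A t) 0 / t := (h.meas.max measurable_const).div measurable_id
  have hint : IntegrableOn (fun t => max (A t) 0 / t * exp (-(a * (vv (t / x)) ^ 2))) (Ioi 1) := by
    have hg : IntegrableOn (fun t : ℝ => D * exp (-(a / x ^ 2) * t ^ 2)) (Ioi 1) :=
      ((integrable_exp_neg_mul_sq (show 0 < a / x ^ 2 by positivity)).const_mul D).integrableOn
    apply Integrable.mono' hg
    · apply Measurable.aestronglyMeasurable
      apply hmeasA.mul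
      apply Measurable.exp
      apply Measurable.neg
      apply Measurable.const_mul
      exact (measurable_vv.comp (measurable_id.div_const x)).pow_const 2
    · rw [ae_restrict_iff' measurableSet_Ioi]
      refine Eventually.of_forall (fun t ht => ?_)
      have ht1 : (1 : ℝ) < t := ht
      have ht0 : 0 < t := by linarith
      have hA : max (A t) 0 / t ≤ D := by
        rw [div_le_iff₀ ht0]
        have := h.pos.bound t ht1.le
        exact (le_abs_self _).trans this
      have hA0 : 0 ≤ max (A t) 0 / t := div_nonneg (le_max_right _ _) ht0.le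
      rw [Real.norm_eq_abs, abs_of_nonneg (by positivity)]
      apply mul_le_mul hA _ (exp_pos _).le h.nonneg
      apply exp_le_exp.mpr
      have h3 := le_vv (t / x)
      have h4 : (t / x) ^ 2 ≤ vv (t / x) ^ 2 := pow_le_pow_left₀ (by positivity) h3 2
      have h5 : a * (t / x) ^ 2 ≤ a * vv (t / x) ^ 2 := mul_le_mul_of_nonneg_left h4 ha0.le
      have h6 : a * (t / x) ^ 2 = (a / x ^ 2) * t ^ 2 := by field_simp
      linarith
  have h3 : (∫ t in Ioi (1 : ℝ), max (A t) 0 / t * K (t / x)) ≤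
      C * ∫ t in Ioi (1 : ℝ), max (A t) 0 / t * exp (-(a * (vv (t / x)) ^ 2)) := by
    rw [← integral_const_mul]
    apply setIntegral_mono_on _ (hint.const_mul C) measurableSet_Ioi
    · intro t ht
      have ht1 : (1 : ℝ) < t := ht
      have ht0 : 0 < t := by linarith
      have hA0 : 0 ≤ max (A t) 0 / t := div_nonneg (le_max_right _ _) ht0.le
      have h4 := hK (t / x) (by positivity)
      rw [pow_zero, one_mul] at h4
      calc max (A t) 0 / t * K (t / x) ≤ max (A t) 0 / t * (C * exp (-(a * (vv (t / x)) ^ 2))) :=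
            mul_le_mul_of_nonneg_left h4 hA0
        _ = _ := by ring
    · exact (int_A h.pos hx0).mono_set (fun t (ht : (1 : ℝ) < t) => (lt_trans one_pos ht : (0 : ℝ) < t))
  rw [h2] at h1
  have h4 := h1.trans h3
  rw [div_mul_eq_mul_div, div_le_iff₀ hC]
  linarith

lemma int_E {a : ℝ} (ha : a < π) :
    IntegrableOn (fun u : ℝ => exp (a * (vv u) ^ 2) * K u / u) (Ioi 0) := by
  obtain ⟨C, hC, hK⟩ := K_le_exp 2 ha
  have hb : ∀ u : ℝ, 0 < u → exp (a * (vv u) ^ 2) * K u / u ≤ C / (vv u ^ 2 * u) := by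
    intro u hu
    have hv := vv_ge_one hu
    have h1 := hK u hu
    have h2 : exp (a * (vv u) ^ 2) * K u ≤ C / vv u ^ 2 := by
      rw [le_div_iff₀ (by positivity)]
      have h3 : exp (a * (vv u) ^ 2) * (vv u ^ 2 * K u) ≤
          exp (a * (vv u) ^ 2) * (C * exp (-(a * (vv u) ^ 2))) :=
        mul_le_mul_of_nonneg_left h1 (exp_pos _).le
      have h4 : exp (a * (vv u) ^ 2) * (C * exp (-(a * (vv u) ^ 2))) = C := by
        rw [mul_left_comm, ← exp_add]; simp
      rw [h4] at h3
      linarith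
    calc exp (a * (vv u) ^ 2) * K u / u ≤ (C / vv u ^ 2) / u := div_le_div_of_nonneg_right h2 hu.le
      _ = _ := by rw [div_div]
  have hm : ∀ s : Set ℝ, MeasurableSet s → s ⊆ Ioi 0 → AEStronglyMeasurable
      (fun u : ℝ => exp (a * (vv u) ^ 2) * K u / u) (volume.restrict s) := by
    intro s hs hss
    apply AEStronglyMeasurable.mono_set hss
    have h1 : AEStronglyMeasurable (fun u : ℝ => exp (a * (vv u) ^ 2)) (volume.restrict (Ioi 0)) := by
      apply Measurable.aestronglyMeasurable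
      exact ((measurable_vv.pow_const 2).const_mul a).exp
    have h2 : AEStronglyMeasurable K (volume.restrict (Ioi 0)) :=
      continuousOn_K.aestronglyMeasurable measurableSet_Ioi
    have h3 : AEStronglyMeasurable (fun u : ℝ => u⁻¹) (volume.restrict (Ioi 0)) :=
      measurable_inv.aestronglyMeasurable
    simp_rw [div_eq_mul_inv]
    exact (h1.mul h2).mul h3
  rw [← Ioc_union_Ioi_eq_Ioi (zero_le_one (α := ℝ))]
  apply IntegrableOn.union
  · have hb2 : IntegrableOn (fun _ : ℝ => C) (Ioc 0 1) := integrableOn_const (by simp)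
    apply Integrable.mono' hb2 (hm _ measurableSet_Ioc Ioc_subset_Ioi_self)
    rw [ae_restrict_iff' measurableSet_Ioc]
    refine Eventually.of_forall (fun u hu => ?_)
    have hu0 : 0 < u := hu.1
    have hu1 : u ≤ 1 := hu.2
    have hKp := K_pos hu0
    rw [Real.norm_eq_abs, abs_of_nonneg (by positivity)]
    refine (hb u hu0).trans ?_
    have hv := vv_ge_one hu0
    have h1 : 1 ≤ vv u ^ 2 * u := by
      have h2 := inv_le_vv u
      have h3 : 1 ≤ vv u * u := by
        rw [div_le_iff₀ hu0] at h2; exact h2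
      have : vv u ^ 2 * u = vv u * (vv u * u) := by ring
      rw [this]
      nlinarith
    exact div_le_self hC.le h1
  · have hb2 : IntegrableOn (fun t : ℝ => C * t ^ (-3 : ℝ)) (Ioi 1) :=
      (integrableOn_Ioi_rpow_of_lt (by norm_num) one_pos).const_mul _
    apply Integrable.mono' hb2 (hm _ measurableSet_Ioi
      (fun t (ht : (1 : ℝ) < t) => (lt_trans one_pos ht : (0 : ℝ) < t)))
    rw [ae_restrict_iff' measurableSet_Ioi]
    refine Eventually.of_forall (fun u hu => ?_)
    have hu1 : (1 : ℝ) < u := hu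
    have hu0 : 0 < u := by linarith
    have hKp := K_pos hu0
    rw [Real.norm_eq_abs, abs_of_nonneg (by positivity)]
    refine (hb u hu0).trans (le_of_eq ?_)
    rw [vv_of_one_le hu1.le]
    have : u ^ (-3 : ℝ) = (u ^ 3)⁻¹ := by rw [rpow_neg hu0.le]; norm_num
    rw [this]
    field_simp

/-- Pointwise form: a large value with Gaussian gain away from `x`. -/
theorem point_form {A : ℝ → ℝ} {D β : ℝ} {k : ℕ} (h : Adm A D) (hlow : Lowr A β k)
    {a : ℝ} (ha : a < π) :
    ∃ c : ℝ, 0 < c ∧ ∃ x₀ : ℝ, 3 ≤ x₀ ∧ ∀ x : ℝ, x₀ ≤ x → ∃ t : ℝ, 1 ≤ t ∧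
      c * Gz β k x * exp (a * (vv (t / x)) ^ 2) ≤ A t := by
  obtain ⟨c, hc, x₀, hx₀, hl⟩ := hlow
  have hE := int_E ha
  set J : ℝ := ∫ u in Ioi (0 : ℝ), exp (a * (vv u) ^ 2) * K u / u with hJ
  have hJ0 : 0 ≤ J := by
    apply setIntegral_nonneg measurableSet_Ioi
    intro u hu
    have hu0 : (0 : ℝ) < u := hu
    have hKp := K_pos hu0
    positivity
  refine ⟨c / (J + 1) , by positivity, max x₀ 3, le_max_right _ _, fun x hx => ?_⟩
  have hx3 : 3 ≤ x := (le_max_right _ _).trans hx
  have hxx : x₀ ≤ x := (le_max_left _ _).trans hx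
  have hx0 : 0 < x := by linarith
  have hG : 0 < Gz β k x := by
    unfold Gz
    have : 0 < log x := log_pos (by linarith)
    positivity
  by_contra hcon
  push Not at hcon
  have h1 := hl x hxx
  set g : ℝ := c / (J + 1) * Gz β k x with hg
  have hg0 : 0 < g := by positivity
  -- bound of the positive part
  have h2 : ∀ t ∈ Ioi (0 : ℝ), max (A t) 0 / t * K (t / x) ≤
      g * (x⁻¹ * ((fun u : ℝ => exp (a * (vv u) ^ 2) * K u / u) (x⁻¹ * t))) := by
    intro t ht
    have ht0 : (0 : ℝ) < t := ht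
    have hKp := K_pos (u := t / x) (by positivity)
    have e1 : x⁻¹ * t = t / x := by field_simp
    simp only [e1]
    have e2 : g * (x⁻¹ * (exp (a * vv (t / x) ^ 2) * K (t / x) / (t / x))) =
        (g * exp (a * vv (t / x) ^ 2)) / t * K (t / x) := by
      field_simp
    rw [e2]
    apply mul_le_mul_of_nonneg_right _ hKp.le
    apply div_le_div_of_nonneg_right _ ht0.le
    apply max_le
    · rcases lt_or_ge t 1 with h3 | h3
      · rw [h.zero t h3]; positivity
      · exact (hcon t h3).le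
    · positivity
  have h4 := integral_comp_mul_left_Ioi (fun u : ℝ => exp (a * (vv u) ^ 2) * K u / u) 0
    (show 0 < x⁻¹ by positivity)
  rw [mul_zero, smul_eq_mul, inv_inv] at h4
  have hsc : IntegrableOn (fun t : ℝ => (fun u : ℝ => exp (a * (vv u) ^ 2) * K u / u) (x⁻¹ * t))
      (Ioi 0) := by
    apply (integrableOn_Ioi_comp_mul_left_iff (fun u : ℝ => exp (a * (vv u) ^ 2) * K u / u) 0
      (show 0 < x⁻¹ by positivity)).mpr
    rw [mul_zero]
    exact hE
  have h5 : GA (fun t => max (A t) 0) x ≤ g * J := by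
    unfold GA
    calc (∫ t in Ioi (0 : ℝ), max (A t) 0 / t * K (t / x)) ≤
        ∫ t in Ioi (0 : ℝ), g * (x⁻¹ * ((fun u : ℝ => exp (a * (vv u) ^ 2) * K u / u) (x⁻¹ * t))) :=
          setIntegral_mono_on (int_A h.pos hx0) ((hsc.const_mul _).const_mul _) measurableSet_Ioi h2
      _ = g * J := by
          rw [integral_const_mul, integral_const_mul, h4, ← hJ]
          field_simp
  have h6 : c * Gz β k x ≤ g * J := h1.trans h5
  have h7 : g * J < c * Gz β k x := by
    rw [hg]
    have h8 : c / (J + 1) * Gz β k x * J = (c * Gz β k x) * (J / (J + 1)) := by field_simp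
    rw [h8]
    have h9 : J / (J + 1) < 1 := by
      rw [div_lt_one (by linarith)]; linarith
    have h10 : 0 < c * Gz β k x := by positivity
    nlinarith
  linarith

end Pool.Agent.Helper18.ES
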