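import Pool.Agent.Helper18.ES.Window

open Real Filter Topology Set MeasureTheory Asymptotics
open Pool.Agent.Helper57.Zeta

namespace Pool.Agent.Helper18.ES

lemma forms_of_eq {A B : ℝ → ℝ} {D β : ℝ} {k : ℕ} (h : Adm B D) (hAB : ∀ t, 1 ≤ t → A t = B t)
    (hβ0 : 1 / 2 ≤ β) (hβ1 : β ≤ 1) (hlow : Lowr B β k) :
    (∀ a : ℝ, 0 < a → a < π → ∃ c : ℝ, 0 < c ∧ ∃ x₀ : ℝ, ∀ x : ℝ, x₀ ≤ x →
      c * (x ^ β * log x ^ k) ≤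
        ∫ t in Ioi (1 : ℝ), max (A t) 0 / t * exp (-(a * max (t / x) (x / t) ^ 2))) ∧
    (∀ a : ℝ, a < π → ∃ c : ℝ, 0 < c ∧ ∃ x₀ : ℝ, ∀ x : ℝ, x₀ ≤ x → ∃ t : ℝ, 1 ≤ t ∧
      c * (x ^ β * log x ^ k) * exp (a * max (t / x) (x / t) ^ 2) ≤ A t) ∧
    (∀ C : ℝ, 1 / (2 * π) < C → ∃ c : ℝ, 0 < c ∧ ∃ Y₀ : ℝ, ∀ Y : ℝ, Y₀ ≤ Y →
      ∃ t : ℝ, Y ≤ t ∧ t ≤ C * Y * log Y ∧ c * (t ^ β * log t ^ k) ≤ A t) := by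
  refine ⟨fun a ha0 ha => ?_, fun a ha => ?_, fun C hC => ?_⟩
  · obtain ⟨c, hc, x₀, hx₀, hm⟩ := mean_form h hlow ha0 ha
    refine ⟨c, hc, x₀, fun x hx => (hm x hx).trans (le_of_eq ?_)⟩
    apply setIntegral_congr_fun measurableSet_Ioi
    intro t (ht : (1 : ℝ) < t)
    simp only
    rw [hAB t ht.le, vv_div]
  · obtain ⟨c, hc, x₀, hx₀, hm⟩ := point_form h hlow ha
    refine ⟨c, hc, x₀, fun x hx => ?_⟩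
    obtain ⟨t, ht1, ht⟩ := hm x hx
    refine ⟨t, ht1, ?_⟩
    rw [hAB t ht1, ← vv_div]
    exact ht
  · obtain ⟨c, hc, Y₀, hY₀, hm⟩ := window_form h hβ0 hβ1 hlow hC
    refine ⟨c, hc, Y₀, fun Y hY => ?_⟩
    obtain ⟨t, ht1, ht2, ht⟩ := hm Y hY
    refine ⟨t, ht1, ht2, ?_⟩
    rw [hAB t (by linarith)]
    exact ht

lemma neg_Lowr {A : ℝ → ℝ} {β : ℝ} {k : ℕ} (h : ∃ c : ℝ, 0 < c ∧ ∃ x₀ : ℝ, 1 ≤ x₀ ∧ ∀ x : ℝ, x₀ ≤ x →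
      c * (x ^ β * log x ^ k) ≤ GA (fun t => max (A t) 0) x ∧
      c * (x ^ β * log x ^ k) ≤ GA (fun t => max (-A t) 0) x) :
    Lowr A β k ∧ Lowr (fun t => -A t) β k := by
  obtain ⟨c, hc, x₀, hx₀, hm⟩ := h
  exact ⟨⟨c, hc, x₀, hx₀, fun x hx => (hm x hx).1⟩, ⟨c, hc, x₀, hx₀, fun x hx => (hm x hx).2⟩⟩

lemma AL_eq {t : ℝ} (ht : 1 ≤ t) : AL t = S lam t - √t / (riemannZeta (1 / 2)).re := by
  unfold AL P bb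
  rw [indicator_of_mem (by exact ht)]
  ring

theorem all_forms {ρ : ℂ} {k : ℕ} (hre : 1 / 2 ≤ ρ.re)
    (hρ : ((k + 1 : ℕ) : ℕ∞) ≤ analyticOrderAt riemannZeta ρ) {A : ℝ → ℝ}
    (hA : (∀ t, A t = S mu t) ∨ (∀ t, A t = -S mu t) ∨
      (∀ t, A t = S lam t - √t / (riemannZeta (1 / 2)).re) ∨
      (∀ t, A t = √t / (riemannZeta (1 / 2)).re - S lam t)) :
    (∀ a : ℝ, 0 < a → a < π → ∃ c : ℝ, 0 < c ∧ ∃ x₀ : ℝ, ∀ x : ℝ, x₀ ≤ x →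
      c * (x ^ ρ.re * log x ^ k) ≤
        ∫ t in Ioi (1 : ℝ), max (A t) 0 / t * exp (-(a * max (t / x) (x / t) ^ 2))) ∧
    (∀ a : ℝ, a < π → ∃ c : ℝ, 0 < c ∧ ∃ x₀ : ℝ, ∀ x : ℝ, x₀ ≤ x → ∃ t : ℝ, 1 ≤ t ∧
      c * (x ^ ρ.re * log x ^ k) * exp (a * max (t / x) (x / t) ^ 2) ≤ A t) ∧
    (∀ C : ℝ, 1 / (2 * π) < C → ∃ c : ℝ, 0 < c ∧ ∃ Y₀ : ℝ, ∀ Y : ℝ, Y₀ ≤ Y →
      ∃ t : ℝ, Y ≤ t ∧ t ≤ C * Y * log Y ∧ c * (t ^ ρ.re * log t ^ k) ≤ A t) := by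
  have h1 := (re_lt_one_of_order hρ).le
  have hmu := neg_Lowr (mu_lower hρ hre)
  have hlam := neg_Lowr (lam_lower hρ hre)
  rcases hA with hA | hA | hA | hA
  · exact forms_of_eq (adm_S mu_le) (fun t _ => hA t) hre h1 hmu.1
  · exact forms_of_eq (adm_S mu_le).neg (fun t _ => hA t) hre h1 hmu.2
  · exact forms_of_eq adm_AL (fun t ht => by rw [hA t, AL_eq ht]) hre h1 hlam.1
  · exact forms_of_eq adm_AL.neg (fun t ht => by rw [hA t, AL_eq ht]; ring) hre h1 hlam.2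

lemma exists_order_one : ∃ ρ : ℂ, 1 / 2 ≤ ρ.re ∧ ((0 + 1 : ℕ) : ℕ∞) ≤ analyticOrderAt riemannZeta ρ := by
  obtain ⟨ρ, hρ, h0, h1⟩ := exists_zero
  refine ⟨ρ, h0, ?_⟩
  rw [← analyticOrderAt_xi (by linarith) h1]
  have h2 : analyticOrderAt xi ρ ≠ 0 := ((analyticAt_xi ρ).analyticOrderAt_ne_zero).mpr hρ
  simpa using Order.one_le_iff_ne_zero.mpr h2

theorem half_forms {A : ℝ → ℝ}
    (hA : (∀ t, A t = S mu t) ∨ (∀ t, A t = -S mu t) ∨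
      (∀ t, A t = S lam t - √t / (riemannZeta (1 / 2)).re) ∨
      (∀ t, A t = √t / (riemannZeta (1 / 2)).re - S lam t)) :
    (∀ a : ℝ, 0 < a → a < π → ∃ c : ℝ, 0 < c ∧ ∃ x₀ : ℝ, ∀ x : ℝ, x₀ ≤ x →
      c * (x ^ (1 / 2 : ℝ) * log x ^ 0) ≤
        ∫ t in Ioi (1 : ℝ), max (A t) 0 / t * exp (-(a * max (t / x) (x / t) ^ 2))) ∧
    (∀ a : ℝ, a < π → ∃ c : ℝ, 0 < c ∧ ∃ x₀ : ℝ, ∀ x : ℝ, x₀ ≤ x → ∃ t : ℝ, 1 ≤ t ∧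
      c * (x ^ (1 / 2 : ℝ) * log x ^ 0) * exp (a * max (t / x) (x / t) ^ 2) ≤ A t) ∧
    (∀ C : ℝ, 1 / (2 * π) < C → ∃ c : ℝ, 0 < c ∧ ∃ Y₀ : ℝ, ∀ Y : ℝ, Y₀ ≤ Y →
      ∃ t : ℝ, Y ≤ t ∧ t ≤ C * Y * log Y ∧ c * (t ^ (1 / 2 : ℝ) * log t ^ 0) ≤ A t) := by
  obtain ⟨ρ, hre, hρ⟩ := exists_order_one
  obtain ⟨h1, h2, h3⟩ := all_forms hre hρ hA
  have hmono : ∀ x : ℝ, 1 ≤ x → x ^ (1 / 2 : ℝ) * log x ^ 0 ≤ x ^ ρ.re * log x ^ 0 := by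
    intro x hx
    rw [pow_zero, mul_one, mul_one]
    exact rpow_le_rpow_of_exponent_le hx hre
  refine ⟨fun a ha0 ha => ?_, fun a ha => ?_, fun C hC => ?_⟩
  · obtain ⟨c, hc, x₀, h⟩ := h1 a ha0 ha
    refine ⟨c, hc, max x₀ 1, fun x hx => ?_⟩
    exact (mul_le_mul_of_nonneg_left (hmono x ((le_max_right _ _).trans hx)) hc.le).trans
      (h x ((le_max_left _ _).trans hx))
  · obtain ⟨c, hc, x₀, h⟩ := h2 a ha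
    refine ⟨c, hc, max x₀ 1, fun x hx => ?_⟩
    obtain ⟨t, ht1, ht⟩ := h x ((le_max_left _ _).trans hx)
    refine ⟨t, ht1, le_trans ?_ ht⟩
    apply mul_le_mul_of_nonneg_right _ (exp_pos _).le
    exact mul_le_mul_of_nonneg_left (hmono x ((le_max_right _ _).trans hx)) hc.le
  · obtain ⟨c, hc, Y₀, h⟩ := h3 C hC
    refine ⟨c, hc, max Y₀ 1, fun Y hY => ?_⟩
    obtain ⟨t, ht1, ht2, ht⟩ := h Y ((le_max_left _ _).trans hY)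
    refine ⟨t, ht1, ht2, le_trans ?_ ht⟩
    exact mul_le_mul_of_nonneg_left (hmono t (((le_max_right _ _).trans hY).trans ht1)) hc.le

end Pool.Agent.Helper18.ES
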