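import Pool.Agent.Helper18.ES.Core

open Real Filter Topology Set MeasureTheory Asymptotics
open Pool.Agent.Helper57.Zeta

namespace Pool.Agent.Helper18.ES

lemma aesm_GA {A : ℝ → ℝ} {D : ℝ} (h : Adm A D) :
    AEStronglyMeasurable (GA A) (volume.restrict (Ioi (0 : ℝ))) := by
  unfold GA
  have hf : AEStronglyMeasurable (fun p : ℝ × ℝ => A p.2 / p.2 * K (p.2 / p.1))
      ((volume.restrict (Ioi (0 : ℝ))).prod (volume.restrict (Ioi (0 : ℝ)))) := by
    rw [Measure.prod_restrict]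
    apply AEStronglyMeasurable.mul
    · apply Measurable.aestronglyMeasurable
      exact (h.meas.comp measurable_snd).div measurable_snd
    · apply ContinuousOn.aestronglyMeasurable _ (measurableSet_Ioi.prod measurableSet_Ioi)
      apply continuousOn_K.comp
      · intro p hp
        have hy0 : (0 : ℝ) < p.1 := hp.1
        apply ContinuousAt.continuousWithinAt
        exact ContinuousAt.div continuousAt_snd continuousAt_fst hy0.ne'
      · intro p hp
        have hy0 : (0 : ℝ) < p.1 := hp.1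
        have ht0 : (0 : ℝ) < p.2 := hp.2
        exact div_pos ht0 hy0
  exact hf.integral_prod_right'

lemma GA_le_cube {A : ℝ → ℝ} {D : ℝ} (h : Adm A D) :
    ∃ C : ℝ, 0 ≤ C ∧ ∀ z : ℝ, 0 < z → |GA A z| ≤ C * z ^ 3 := by
  obtain ⟨C, hC0, hC⟩ := K_le_cube
  have hD := h.nonneg
  refine ⟨D * C / 2, by positivity, fun z hz => ?_⟩
  unfold GA
  have h1 := norm_integral_le_of_norm_le (μ := volume.restrict (Ioi (0 : ℝ)))
    (maj_integrable (D * C * z ^ 3)).integrableOn
    ((ae_restrict_iff' measurableSet_Ioi).mpr (Eventually.of_forall (fun t ht => by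
      rw [Real.norm_eq_abs]
      exact maj_bound h hC hz ht)))
  rw [Real.norm_eq_abs] at h1
  refine h1.trans (le_of_eq ?_)
  unfold maj
  rw [setIntegral_indicator measurableSet_Ici]
  have h2 : Ioi (0 : ℝ) ∩ Ici 1 = Ici 1 := by
    apply inter_eq_right.mpr
    intro x (hx : (1 : ℝ) ≤ x)
    exact (lt_of_lt_of_le one_pos hx : (0 : ℝ) < x)
  rw [h2, integral_Ici_eq_integral_Ioi, integral_const_mul,
    integral_Ioi_rpow_of_lt (by norm_num) one_pos]
  norm_num
  ring

lemma locInt_GA {A : ℝ → ℝ} {D : ℝ} (h : Adm A D) :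
    LocallyIntegrableOn (fun z => (GA A z : ℂ)) (Ioi (0 : ℝ)) := by
  obtain ⟨C, hC0, hC⟩ := GA_le_cube h
  rw [locallyIntegrableOn_iff isOpen_Ioi.isLocallyClosed]
  intro k hk hkc
  have hg : IntegrableOn (fun z : ℝ => C * z ^ 3) k :=
    ContinuousOn.integrableOn_compact hkc (by fun_prop)
  apply Integrable.mono' hg
  · exact (Complex.continuous_ofReal.comp_aestronglyMeasurable (aesm_GA h)).mono_set hk
  · rw [ae_restrict_iff' hkc.measurableSet]
    refine Eventually.of_forall (fun z hz => ?_)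
    rw [Complex.norm_real, Real.norm_eq_abs]
    exact hC z (hk hz)

lemma GA_isBigO_top {A : ℝ → ℝ} {B θ : ℝ} (hB : ∀ z : ℝ, 1 ≤ z → |GA A z| ≤ B * z ^ θ) :
    (fun z => (GA A z : ℂ)) =O[atTop] (· ^ (-(-θ))) := by
  apply IsBigO.of_bound B
  filter_upwards [eventually_ge_atTop (1 : ℝ)] with z hz
  have hz0 : 0 < z := by linarith
  rw [Complex.norm_real, Real.norm_eq_abs, Real.norm_eq_abs, neg_neg,
    abs_of_pos (rpow_pos_of_pos hz0 _)]
  exact hB z hz

lemma GA_isBigO_zero {A : ℝ → ℝ} {D : ℝ} (h : Adm A D) :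
    (fun z => (GA A z : ℂ)) =O[𝓝[>] 0] (· ^ (-(-3) : ℝ)) := by
  obtain ⟨C, hC0, hC⟩ := GA_le_cube h
  apply IsBigO.of_bound C
  filter_upwards [self_mem_nhdsWithin] with z hz
  have hz0 : (0 : ℝ) < z := hz
  rw [Complex.norm_real, Real.norm_eq_abs, Real.norm_eq_abs, neg_neg,
    abs_of_pos (rpow_pos_of_pos hz0 _)]
  have := hC z hz0
  rw [show (3 : ℝ) = ((3 : ℕ) : ℝ) by norm_num, rpow_natCast]
  exact this

lemma GA_conv {A : ℝ → ℝ} {D B θ : ℝ} (h : Adm A D) (hB : ∀ z : ℝ, 1 ≤ z → |GA A z| ≤ B * z ^ θ)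
    {s : ℂ} (hs : θ < s.re) (hs3 : s.re < 3) :
    MellinConvergent (fun z => (GA A z : ℂ)) (-s) :=
  mellinConvergent_of_isBigO_rpow (locInt_GA h) (GA_isBigO_top hB) (by simpa using hs)
    (GA_isBigO_zero h) (by simpa using hs3)

lemma GA_diff {A : ℝ → ℝ} {D B θ : ℝ} (h : Adm A D) (hB : ∀ z : ℝ, 1 ≤ z → |GA A z| ≤ B * z ^ θ)
    {s : ℂ} (hs : θ < s.re) (hs3 : s.re < 3) :
    DifferentiableAt ℂ (mellin (fun z => (GA A z : ℂ))) (-s) :=
  mellin_differentiableAt_of_isBigO_rpow (locInt_GA h) (GA_isBigO_top hB) (by simpa using hs)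
    (GA_isBigO_zero h) (by simpa using hs3)

end Pool.Agent.Helper18.ES
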