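import Pool.Agent.Helper18.ES.Mellin

open Real Filter Topology Set MeasureTheory Asymptotics
open Pool.Agent.Helper57.Zeta

namespace Pool.Agent.Helper18.ES

lemma cube_exp_anti {x y : ℝ} (hy : 1 ≤ y) (hxy : y ≤ x) :
    x ^ 3 * exp (-(π * x)) ≤ y ^ 3 * exp (-(π * y)) := by
  have hy0 : 0 < y := by linarith
  have hx0 : 0 < x := by linarith
  have h1 : x / y ≤ exp (x - y) := by
    have h2 : x / y ≤ 1 + (x - y) := by
      rw [div_le_iff₀ hy0]; nlinarith
    have := add_one_le_exp (x - y)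
    linarith
  have h3 : (x / y) ^ 3 ≤ exp (π * (x - y)) := by
    calc (x / y) ^ 3 ≤ (exp (x - y)) ^ 3 := pow_le_pow_left₀ (by positivity) h1 3
      _ = exp (3 * (x - y)) := by rw [← exp_nat_mul]; norm_num
      _ ≤ exp (π * (x - y)) := by
        apply exp_le_exp.mpr
        have := pi_gt_three
        nlinarith
  have h4 : exp (π * (x - y)) = exp (-(π * y)) / exp (-(π * x)) := by
    rw [← exp_sub]; congr 1; ring
  rw [h4, div_pow, div_le_div_iff₀ (by positivity) (exp_pos _)] at h3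
  linarith

/-- For `1 ≤ u ≤ w`: `K w ≤ C0 w⁻² u⁶ exp(-πu²)`. -/
lemma K_far {u w : ℝ} (hu : 1 ≤ u) (hw : u ≤ w) :
    K w ≤ C0 * (u ^ 6 / w ^ 2) * exp (-(π * u ^ 2)) := by
  have hw1 : 1 ≤ w := hu.trans hw
  have hw0 : 0 < w := by linarith
  have h1 := cube_exp_anti (x := w ^ 2) (y := u ^ 2) (one_le_pow₀ hu)
    (pow_le_pow_left₀ (by linarith) hw 2)
  refine (K_le hw1).trans ?_
  have h2 : w ^ 4 * exp (-(π * w ^ 2)) = ((w ^ 2) ^ 3 * exp (-(π * w ^ 2))) / w ^ 2 := by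
    field_simp
  calc C0 * w ^ 4 * exp (-(π * w ^ 2)) = C0 * (w ^ 4 * exp (-(π * w ^ 2))) := by ring
    _ = C0 * (((w ^ 2) ^ 3 * exp (-(π * w ^ 2))) / w ^ 2) := by rw [h2]
    _ ≤ C0 * (((u ^ 2) ^ 3 * exp (-(π * u ^ 2))) / w ^ 2) := by
        apply mul_le_mul_of_nonneg_left _ C0_pos.le
        exact div_le_div_of_nonneg_right h1 (by positivity)
    _ = _ := by ring

/-- The weights allowed in the detecting kernels. -/
structure Wt (W : ℝ → ℂ) : Prop where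
  cont : ContinuousOn W (Ioi 0)
  int0 : IntegrableOn (fun y => ‖W y‖ * y ^ 2) (Ioo 0 1)
  int1 : IntegrableOn (fun y => ‖W y‖ / y) (Ioi 1)
  zero : ∀ u : ℝ, 0 < u → (∫ y in Ioi (0 : ℝ), W y * (K (u / y) : ℂ)) = 0

/-- The detecting kernel attached to a weight `W`. -/
noncomputable def K1 (W : ℝ → ℂ) (u : ℝ) : ℂ :=
  ∫ y in Ioo (0 : ℝ) 1, W y * (K (u / y) : ℂ)

lemma K1_le_of_one_le {W : ℝ → ℂ} (h : Wt W) {u : ℝ} (hu : 1 ≤ u) :
    ‖K1 W u‖ ≤ C0 / 16 * (∫ y in Ioo (0 : ℝ) 1, ‖W y‖ * y ^ 2) * K u := by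
  have hu0 : 0 < u := by linarith
  have hC := C0_pos
  have hb : ∀ y ∈ Ioo (0 : ℝ) 1, ‖W y * (K (u / y) : ℂ)‖ ≤
      (C0 * u ^ 4 * exp (-(π * u ^ 2))) * (‖W y‖ * y ^ 2) := by
    intro y hy
    have hy0 : 0 < y := hy.1
    have hy1 : y ≤ 1 := hy.2.le
    have huy : u ≤ u / y := by
      rw [le_div_iff₀ hy0]; nlinarith
    have hK := K_far hu huy
    have hKp := K_pos (u := u / y) (by positivity)
    rw [norm_mul, Complex.norm_real, Real.norm_eq_abs, abs_of_pos hKp]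
    have e1 : u ^ 6 / (u / y) ^ 2 = u ^ 4 * y ^ 2 := by field_simp
    rw [e1] at hK
    calc ‖W y‖ * K (u / y) ≤ ‖W y‖ * (C0 * (u ^ 4 * y ^ 2) * exp (-(π * u ^ 2))) :=
          mul_le_mul_of_nonneg_left hK (norm_nonneg _)
      _ = _ := by ring
  have h2 := norm_integral_le_of_norm_le (h.int0.const_mul (C0 * u ^ 4 * exp (-(π * u ^ 2))))
    ((ae_restrict_iff' measurableSet_Ioo).mpr (Eventually.of_forall hb))
  rw [integral_const_mul] at h2
  have h4 := K_ge hu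
  have hI : 0 ≤ ∫ y in Ioo (0 : ℝ) 1, ‖W y‖ * y ^ 2 :=
    integral_nonneg (fun y => by positivity)
  unfold K1
  refine h2.trans ?_
  calc C0 * u ^ 4 * exp (-(π * u ^ 2)) * (∫ y in Ioo (0 : ℝ) 1, ‖W y‖ * y ^ 2)
      = C0 / 16 * (∫ y in Ioo (0 : ℝ) 1, ‖W y‖ * y ^ 2) * (16 * u ^ 4 * exp (-(π * u ^ 2))) := by ring
    _ ≤ _ := mul_le_mul_of_nonneg_left h4 (by positivity)

lemma continuousOn_K_inv {u : ℝ} (hu : 0 < u) : ContinuousOn (fun y : ℝ => K (u / y)) (Ioi 0) := by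
  apply continuousOn_K.comp
  · intro y hy
    have hy0 : (0 : ℝ) < y := hy
    apply ContinuousAt.continuousWithinAt
    exact ContinuousAt.div continuousAt_const continuousAt_id hy0.ne'
  · intro y hy
    have hy0 : (0 : ℝ) < y := hy
    exact div_pos hu hy0

lemma aesm_WK {W : ℝ → ℂ} (h : Wt W) {u : ℝ} (hu : 0 < u) {s : Set ℝ} (hs : MeasurableSet s)
    (hss : s ⊆ Ioi 0) : AEStronglyMeasurable (fun y : ℝ => W y * (K (u / y) : ℂ))
      (volume.restrict s) := by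
  apply ContinuousOn.aestronglyMeasurable _ hs
  apply (h.cont.mono hss).mul
  exact Complex.continuous_ofReal.comp_continuousOn ((continuousOn_K_inv hu).mono hss)

lemma int_WK0 {W : ℝ → ℂ} (h : Wt W) {u : ℝ} (hu : 0 < u) :
    IntegrableOn (fun y : ℝ => W y * (K (u / y) : ℂ)) (Ioo 0 1) := by
  obtain ⟨C, hC, hK⟩ := K_le_pow 2
  apply Integrable.mono' (h.int0.const_mul (C / u ^ 2)) (aesm_WK h hu measurableSet_Ioo Ioo_subset_Ioi_self)
  refine (ae_restrict_iff' measurableSet_Ioo).mpr (Eventually.of_forall (fun y hy => ?_))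
  have hy0 : 0 < y := hy.1
  have huy : 0 < u / y := by positivity
  have hKp := K_pos huy
  rw [norm_mul, Complex.norm_real, Real.norm_eq_abs, abs_of_pos hKp]
  have h1 : (u / y) ^ 2 ≤ vv (u / y) ^ 2 := pow_le_pow_left₀ huy.le (le_vv _) 2
  have h3 : (u / y) ^ 2 * K (u / y) ≤ C :=
    (mul_le_mul_of_nonneg_right h1 hKp.le).trans (hK _ huy)
  have h4 : K (u / y) ≤ C / u ^ 2 * y ^ 2 := by
    rw [div_mul_eq_mul_div, le_div_iff₀ (by positivity)]
    have e : (u / y) ^ 2 * K (u / y) * y ^ 2 = K (u / y) * u ^ 2 := by field_simp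
    rw [← e]
    exact mul_le_mul_of_nonneg_right h3 (by positivity)
  calc ‖W y‖ * K (u / y) ≤ ‖W y‖ * (C / u ^ 2 * y ^ 2) :=
        mul_le_mul_of_nonneg_left h4 (norm_nonneg _)
    _ = _ := by ring

lemma int_WK1 {W : ℝ → ℂ} (h : Wt W) {u : ℝ} (hu : 0 < u) :
    IntegrableOn (fun y : ℝ => W y * (K (u / y) : ℂ)) (Ioi 1) := by
  obtain ⟨C, hC, hK⟩ := K_le_pow 1
  apply Integrable.mono' (h.int1.const_mul (C * u)) (aesm_WK h hu measurableSet_Ioi
    (fun x (hx : (1 : ℝ) < x) => (lt_trans one_pos hx : (0 : ℝ) < x)))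
  refine (ae_restrict_iff' measurableSet_Ioi).mpr (Eventually.of_forall (fun y hy => ?_))
  have hy1 : (1 : ℝ) < y := hy
  have hy0 : 0 < y := by linarith
  have huy : 0 < u / y := by positivity
  have hKp := K_pos huy
  rw [norm_mul, Complex.norm_real, Real.norm_eq_abs, abs_of_pos hKp]
  have h3 : (1 / (u / y)) * K (u / y) ≤ C := by
    have := hK _ huy
    rw [pow_one] at this
    exact (mul_le_mul_of_nonneg_right (inv_le_vv _) hKp.le).trans this
  have h4 : K (u / y) ≤ C * u / y := by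
    rw [le_div_iff₀ hy0]
    have e : (1 / (u / y)) * K (u / y) * u = K (u / y) * y := by field_simp
    rw [← e]
    exact mul_le_mul_of_nonneg_right h3 hu.le
  calc ‖W y‖ * K (u / y) ≤ ‖W y‖ * (C * u / y) :=
        mul_le_mul_of_nonneg_left h4 (norm_nonneg _)
    _ = _ := by ring

lemma K1_le_of_le_one {W : ℝ → ℂ} (h : Wt W) {u : ℝ} (hu0 : 0 < u) (hu : u ≤ 1) :
    ‖K1 W u‖ ≤ C0 / 16 * (∫ y in Ioi (1 : ℝ), ‖W y‖ / y) * K u := by
  have hmz := h.zero u hu0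
  have hC := C0_pos
  have hdec : (∫ y in Ioi (0 : ℝ), W y * ((K (u / y) : ℝ) : ℂ)) =
      (∫ y in Ioo (0 : ℝ) 1, W y * ((K (u / y) : ℝ) : ℂ)) +
      ∫ y in Ici (1 : ℝ), W y * ((K (u / y) : ℝ) : ℂ) := by
    rw [← setIntegral_union _ measurableSet_Ici]
    · congr 2
      rw [Ioo_union_Ici_eq_Ioi one_pos]
    · exact int_WK0 h hu0
    · exact Iff.mpr integrableOn_Ici_iff_integrableOn_Ioi (int_WK1 h hu0)
    · rw [Set.disjoint_left]
      intro x hx hx'
      exact absurd hx.2 (not_lt.mpr hx')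
  rw [hmz] at hdec
  have hK1 : K1 W u = -∫ y in Ici (1 : ℝ), W y * ((K (u / y) : ℝ) : ℂ) := by
    unfold K1
    linear_combination -hdec
  rw [hK1, norm_neg, integral_Ici_eq_integral_Ioi]
  have h1u : 1 ≤ 1 / u := by rw [le_div_iff₀ hu0]; linarith
  have hbound : ∀ y ∈ Ioi (1 : ℝ), ‖W y * ((K (u / y) : ℝ) : ℂ)‖ ≤
      (C0 * (1 / u) ^ 5 * exp (-(π * (1 / u) ^ 2))) * (‖W y‖ / y) := by
    intro y hy
    have hy1 : (1 : ℝ) < y := hy
    have hy0 : 0 < y := by linarith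
    have hyu : 1 / u ≤ y / u := div_le_div_of_nonneg_right hy1.le hu0.le
    have hK := K_far h1u hyu
    have hKp := K_pos (u := u / y) (by positivity)
    have hinv : K (u / y) = (y / u) * K (y / u) := by
      have := K_inv (u := y / u) (by positivity)
      rwa [one_div_div] at this
    rw [norm_mul, Complex.norm_real, Real.norm_eq_abs, abs_of_pos hKp, hinv]
    have e3 : y / u * (C0 * ((1 / u) ^ 6 / (y / u) ^ 2) * exp (-(π * (1 / u) ^ 2)))
        = (C0 * (1 / u) ^ 5 * exp (-(π * (1 / u) ^ 2))) / y := by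
      field_simp
    have h5 : y / u * K (y / u) ≤ (C0 * (1 / u) ^ 5 * exp (-(π * (1 / u) ^ 2))) / y := by
      rw [← e3]
      exact mul_le_mul_of_nonneg_left hK (by positivity)
    calc ‖W y‖ * (y / u * K (y / u)) ≤ ‖W y‖ * ((C0 * (1 / u) ^ 5 * exp (-(π * (1 / u) ^ 2))) / y) :=
          mul_le_mul_of_nonneg_left h5 (norm_nonneg _)
      _ = _ := by ring
  have h2 := norm_integral_le_of_norm_le (h.int1.const_mul (C0 * (1 / u) ^ 5 * exp (-(π * (1 / u) ^ 2))))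
    ((ae_restrict_iff' measurableSet_Ioi).mpr (Eventually.of_forall hbound))
  refine h2.trans ?_
  rw [integral_const_mul]
  have h4 := K_ge h1u
  have hinv : K u = (1 / u) * K (1 / u) := by
    have := K_inv (u := 1 / u) (by positivity)
    rwa [one_div_one_div] at this
  rw [hinv]
  have hI : 0 ≤ ∫ y in Ioi (1 : ℝ), ‖W y‖ / y := by
    apply setIntegral_nonneg measurableSet_Ioi
    intro y hy
    have hy1 : (1 : ℝ) < y := hy
    positivity
  calc C0 * (1 / u) ^ 5 * exp (-(π * (1 / u) ^ 2)) * (∫ y in Ioi (1 : ℝ), ‖W y‖ / y)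
      = C0 / 16 * (∫ y in Ioi (1 : ℝ), ‖W y‖ / y) * (1 / u * (16 * (1 / u) ^ 4 * exp (-(π * (1 / u) ^ 2)))) := by
        ring
    _ ≤ _ := by
        apply mul_le_mul_of_nonneg_left _ (by positivity)
        exact mul_le_mul_of_nonneg_left h4 (by positivity)

theorem K1_le {W : ℝ → ℂ} (h : Wt W) : ∃ C : ℝ, 0 < C ∧ ∀ u : ℝ, 0 < u → ‖K1 W u‖ ≤ C * K u := by
  have hC := C0_pos
  have hI0 : 0 ≤ ∫ y in Ioo (0 : ℝ) 1, ‖W y‖ * y ^ 2 :=
    integral_nonneg (fun y => by positivity)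
  have hI1 : 0 ≤ ∫ y in Ioi (1 : ℝ), ‖W y‖ / y := by
    apply setIntegral_nonneg measurableSet_Ioi
    intro y hy
    have hy1 : (1 : ℝ) < y := hy
    positivity
  refine ⟨C0 / 16 * ((∫ y in Ioo (0 : ℝ) 1, ‖W y‖ * y ^ 2) + (∫ y in Ioi (1 : ℝ), ‖W y‖ / y) + 1),
    by positivity, fun u hu => ?_⟩
  have hK := (K_pos hu).le
  rcases le_total 1 u with h1 | h1
  · refine (K1_le_of_one_le h h1).trans ?_
    apply mul_le_mul_of_nonneg_right _ hK
    apply mul_le_mul_of_nonneg_left _ (by positivity)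
    linarith
  · refine (K1_le_of_le_one h hu h1).trans ?_
    apply mul_le_mul_of_nonneg_right _ hK
    apply mul_le_mul_of_nonneg_left _ (by positivity)
    linarith

lemma mellinConv_K_inv (s : ℂ) {u : ℝ} (hu : 0 < u) :
    MellinConvergent (fun y : ℝ => (K (u / y) : ℂ)) s := by
  have h1 : MellinConvergent (fun y : ℝ => (K (u * y) : ℂ)) (-s) :=
    (MellinConvergent.comp_mul_left (f := fun y : ℝ => (K y : ℂ)) hu).mpr (mellinConv_K _)
  have h2 := (MellinConvergent.comp_rpow (f := fun y : ℝ => (K (u * y) : ℂ)) (s := s)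
    (a := -1) (by norm_num)).mpr (by
      have e : s / ((-1 : ℝ) : ℂ) = -s := by push_cast; ring
      rw [e]; exact h1)
  have h3 : (fun y : ℝ => (K (u / y) : ℂ)) = fun t : ℝ => ((K (u * t ^ (-1 : ℝ)) : ℝ) : ℂ) := by
    funext y
    rw [rpow_neg_one, div_eq_mul_inv]
  rw [h3]
  exact h2


end Pool.Agent.Helper18.ES
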