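import Pool.Agent.Helper18.ES.Mu

open Filter Topology Set MeasureTheory Asymptotics

namespace Pool.Agent.Helper18.ES

open ArithmeticFunction in
/-- indicator of positive squares as an arithmetic function -/
noncomputable def sqInd : ArithmeticFunction ℤ where
  toFun n := open Classical in if n = 0 then 0 else if IsSquare n then 1 else 0
  map_zero' := by simp

lemma sqInd_apply {n : ℕ} (hn : n ≠ 0) : sqInd n = open Classical in if IsSquare n then 1 else 0 := by
  show (open Classical in if n = 0 then (0:ℤ) else if IsSquare n then 1 else 0) = _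
  rw [if_neg hn]

lemma isSquare_mul_iff {m n : ℕ} (h : Nat.Coprime m n) :
    IsSquare (m * n) ↔ IsSquare m ∧ IsSquare n := by
  constructor
  · rintro ⟨r, hr⟩
    have h1 : m * n = r ^ 2 := by rw [hr]; ring
    have hu : IsUnit (gcd m n) := by
      have : gcd m n = 1 := h
      rw [this]; exact isUnit_one
    have hu' : IsUnit (gcd n m) := by
      have : gcd n m = 1 := h.symm
      rw [this]; exact isUnit_one
    obtain ⟨d, hd⟩ := exists_eq_pow_of_mul_eq_pow hu h1
    obtain ⟨e, he⟩ := exists_eq_pow_of_mul_eq_pow hu' (by rw [mul_comm]; exact h1)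
    exact ⟨⟨d, by rw [hd]; ring⟩, ⟨e, by rw [he]; ring⟩⟩
  · rintro ⟨h1, h2⟩
    exact h1.mul h2

lemma sqInd_mult : sqInd.IsMultiplicative := by
  constructor
  · rw [sqInd_apply one_ne_zero, if_pos ⟨1, by simp⟩]
  · intro m n hmn
    rcases eq_or_ne m 0 with rfl | hm
    · simp
    rcases eq_or_ne n 0 with rfl | hn
    · simp
    rw [sqInd_apply hm, sqInd_apply hn, sqInd_apply (mul_ne_zero hm hn)]
    by_cases h1 : IsSquare m <;> by_cases h2 : IsSquare n <;>
      simp [h1, h2, isSquare_mul_iff hmn]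

lemma isSquare_prime_pow_iff {p i : ℕ} (hp : p.Prime) : IsSquare (p ^ i) ↔ Even i := by
  constructor
  · rintro ⟨r, hr⟩
    have h1 := congrArg (fun n => Nat.factorization n p) hr
    have hr0 : r ≠ 0 := by
      rintro rfl
      have := pow_pos hp.pos i
      omega
    simp only [Nat.factorization_pow, Nat.factorization_mul hr0 hr0, Finsupp.smul_apply,
      Finsupp.add_apply, hp.factorization_self, smul_eq_mul, mul_one] at h1
    exact ⟨_, h1⟩
  · rintro ⟨j, rfl⟩
    exact ⟨p ^ j, by rw [pow_add]⟩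

lemma sum_neg_one_pow (i : ℕ) : (∑ j ∈ Finset.range (i + 1), (-1 : ℤ) ^ j) = if Even i then 1 else 0 := by
  induction i with
  | zero => simp
  | succ i ih =>
    rw [Finset.sum_range_succ, ih]
    rcases Nat.even_or_odd i with h | h
    · have h2 : ¬ Even (i + 1) := by simpa [Nat.even_add_one] using h
      rw [if_pos h, if_neg h2, pow_succ, h.neg_one_pow]; norm_num
    · have h1 : ¬ Even i := Nat.not_even_iff_odd.mpr h
      have h2 : Even (i + 1) := h.add_one
      rw [if_neg h1, if_pos h2, h2.neg_one_pow]; norm_num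

lemma liouville_mul_zeta : (ArithmeticFunction.liouville *
    ((ArithmeticFunction.zeta : ArithmeticFunction ℕ) : ArithmeticFunction ℤ)) = sqInd := by
  rw [ArithmeticFunction.IsMultiplicative.eq_iff_eq_on_prime_powers _
    (ArithmeticFunction.isMultiplicative_liouville.mul
      (ArithmeticFunction.isMultiplicative_zeta.natCast)) _ sqInd_mult]
  intro p i hp
  rw [ArithmeticFunction.coe_mul_zeta_apply, Nat.sum_divisors_prime_pow hp,
    sqInd_apply (pow_ne_zero _ hp.ne_zero)]
  have h1 : ∀ j ∈ Finset.range (i + 1), ArithmeticFunction.liouville (p ^ j) = (-1 : ℤ) ^ j := by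
    intro j _
    rw [ArithmeticFunction.liouville_apply (pow_ne_zero _ hp.ne_zero)]
    rw [ArithmeticFunction.cardFactors_apply_prime_pow hp]
  rw [Finset.sum_congr rfl h1, sum_neg_one_pow]
  simp only [isSquare_prime_pow_iff hp]

/-- real Liouville -/
noncomputable def lam (n : ℕ) : ℝ := ((ArithmeticFunction.liouville n : ℤ) : ℝ)

lemma lam_le (n : ℕ) : |lam n| ≤ 1 := by
  unfold lam
  rcases eq_or_ne n 0 with rfl | hn
  · simp
  · rw [ArithmeticFunction.liouville_apply hn]
    push_cast
    rw [abs_pow]; simp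

lemma lam_conv (k : ℕ+) : (∑ d ∈ (k : ℕ).divisorsAntidiagonal, lam d.1) =
    open Classical in if IsSquare (k : ℕ) then 1 else 0 := by
  have h := congrArg (fun f : ArithmeticFunction ℤ => f (k : ℕ)) liouville_mul_zeta
  simp only [ArithmeticFunction.mul_apply] at h
  rw [sqInd_apply k.ne_zero] at h
  have h2 : (∑ d ∈ (k : ℕ).divisorsAntidiagonal, (ArithmeticFunction.liouville d.1 : ℤ)) =
      open Classical in if IsSquare (k : ℕ) then 1 else 0 := by
    rw [← h]
    apply Finset.sum_congr rfl
    intro d hd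
    have hd2 : d.2 ≠ 0 := by
      have := Nat.mem_divisorsAntidiagonal.mp hd
      intro h0
      rw [h0, mul_zero] at this
      exact this.2 this.1.symm
    simp [hd2]
  have h3 : (∑ d ∈ (k : ℕ).divisorsAntidiagonal, lam d.1) =
      ((∑ d ∈ (k : ℕ).divisorsAntidiagonal, (ArithmeticFunction.liouville d.1 : ℤ) : ℤ) : ℝ) := by
    unfold lam; push_cast; rfl
  rw [h3, h2]
  split_ifs <;> simp

/-- the theta-like function -/
noncomputable def G1 (z : ℝ) : ℝ := ∑' j : ℕ+, Phi (((j : ℕ) : ℝ) ^ 2 / z)

lemma GA_lam {z : ℝ} (hz : 0 < z) :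
    HasSum (fun j : ℕ+ => Phi (((j : ℕ) : ℝ) ^ 2 / z)) (GA (S lam) z) := by
  classical
  have h := GA_S_conv lam_le hz
  simp_rw [lam_conv] at h
  have hinj : Function.Injective (fun j : ℕ+ => j ^ 2) := by
    intro a b hab
    have h1 : ((a ^ 2 : ℕ+) : ℕ) = ((b ^ 2 : ℕ+) : ℕ) := congrArg _ hab
    rw [PNat.pow_coe, PNat.pow_coe] at h1
    exact PNat.coe_injective (Nat.pow_left_injective (n := 2) (by norm_num) h1)
  rw [← hinj.hasSum_iff] at h
  · refine h.congr_fun ?_
    intro j
    have : IsSquare (((j ^ 2 : ℕ+) : ℕ)) := ⟨j, by rw [PNat.pow_coe]; ring⟩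
    simp only [Function.comp]
    rw [if_pos this, one_mul, PNat.pow_coe]
    push_cast; rfl
  · intro k hk
    have : ¬ IsSquare (k : ℕ) := by
      rintro ⟨r, hr⟩
      apply hk
      have hr0 : 0 < r := by
        rcases Nat.eq_zero_or_pos r with h0 | h0
        · rw [h0] at hr
          exact absurd hr k.ne_zero
        · exact h0
      refine ⟨Nat.toPNat' r, ?_⟩
      apply PNat.coe_injective
      show (((Nat.toPNat' r) ^ 2 : ℕ+) : ℕ) = (k : ℕ)
      rw [PNat.pow_coe, Nat.toPNat'_coe, if_pos hr0, hr]; ring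
    rw [if_neg this, zero_mul]

end Pool.Agent.Helper18.ES
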