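import Pool.Agent.Helper18.ES.Root

open Real Filter Topology Set MeasureTheory Asymptotics
open Pool.Agent.Helper57.Zeta

namespace Pool.Agent.Helper18.ES

lemma continuous_kap : Continuous kap := by unfold kap; fun_prop

lemma continuous_Phi : Continuous Phi := by unfold Phi; fun_prop

lemma int_abs_kap : IntegrableOn (fun w : ℝ => |kap w| / w) (Ioi 0) := by
  rw [← Ioc_union_Ioi_eq_Ioi (zero_le_one (α := ℝ))]
  apply IntegrableOn.union
  · have hb : IntegrableOn (fun _ : ℝ => 4 * π ^ 2 + 6 * π) (Ioc 0 1) :=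
      integrableOn_const (by simp)
    apply Integrable.mono' hb
    · apply ContinuousOn.aestronglyMeasurable _ measurableSet_Ioc
      apply ContinuousOn.div (continuous_kap.abs.continuousOn) continuousOn_id
      intro w hw
      exact hw.1.ne'
    · rw [ae_restrict_iff' measurableSet_Ioc]
      refine Eventually.of_forall (fun w hw => ?_)
      have hw0 : 0 < w := hw.1
      have hw1 : w ≤ 1 := hw.2
      rw [norm_div, Real.norm_eq_abs, Real.norm_eq_abs, abs_abs, abs_of_pos hw0, div_le_iff₀ hw0]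
      unfold kap
      rw [abs_mul, abs_of_pos (exp_pos _)]
      have h1 : exp (-(π * w ^ 2)) ≤ 1 := by
        rw [exp_le_one_iff]
        have := pi_pos
        have : 0 ≤ π * w ^ 2 := by positivity
        linarith
      have h2 : |4 * π ^ 2 * w ^ 4 - 6 * π * w ^ 2| ≤ (4 * π ^ 2 + 6 * π) * w := by
        have h3 : w ^ 4 ≤ w := by
          have := pow_le_pow_of_le_one hw0.le hw1 (show 1 ≤ 4 by norm_num)
          simpa using this
        have h4 : w ^ 2 ≤ w := by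
          have := pow_le_pow_of_le_one hw0.le hw1 (show 1 ≤ 2 by norm_num)
          simpa using this
        have hpi := pi_pos
        have h5 : 4 * π ^ 2 * w ^ 4 ≤ 4 * π ^ 2 * w := mul_le_mul_of_nonneg_left h3 (by positivity)
        have h6 : 6 * π * w ^ 2 ≤ 6 * π * w := mul_le_mul_of_nonneg_left h4 (by positivity)
        have h7 : 0 ≤ 4 * π ^ 2 * w ^ 4 := by positivity
        have h8 : 0 ≤ 6 * π * w ^ 2 := by positivity
        rw [abs_le]
        constructor <;> nlinarith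
      calc |4 * π ^ 2 * w ^ 4 - 6 * π * w ^ 2| * exp (-(π * w ^ 2))
          ≤ |4 * π ^ 2 * w ^ 4 - 6 * π * w ^ 2| * 1 := mul_le_mul_of_nonneg_left h1 (abs_nonneg _)
        _ ≤ _ := by rw [mul_one]; exact h2
  · have hb : IntegrableOn (fun t : ℝ => 12 * t ^ (-3 : ℝ)) (Ioi 1) :=
      (integrableOn_Ioi_rpow_of_lt (by norm_num) one_pos).const_mul _
    apply Integrable.mono' hb
    · apply ContinuousOn.aestronglyMeasurable _ measurableSet_Ioi
      apply ContinuousOn.div (continuous_kap.abs.continuousOn) continuousOn_id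
      intro w hw
      exact (lt_trans one_pos hw).ne'
    · rw [ae_restrict_iff' measurableSet_Ioi]
      refine Eventually.of_forall (fun w hw => ?_)
      have hw0 : 0 < w := lt_trans one_pos hw
      rw [norm_div, Real.norm_eq_abs, Real.norm_eq_abs, abs_abs, abs_of_pos hw0, div_le_iff₀ hw0]
      refine (kap_abs_le hw0).trans (le_of_eq ?_)
      have : w ^ (-3 : ℝ) = (w ^ 3)⁻¹ := by rw [rpow_neg hw0.le]; norm_num
      rw [this]
      field_simp

/-- `κ = ∫ w^{-1/2} kap` -/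
noncomputable def kp : ℝ := ∫ w in Ioi (0 : ℝ), w ^ ((1 / 2 : ℝ) - 1) * kap w

lemma int_kp : IntegrableOn (fun w : ℝ => w ^ ((1 / 2 : ℝ) - 1) * kap w) (Ioi 0) := by
  have h := (mellin_kap (s := (1 / 2 : ℂ)) (by norm_num)).1
  unfold MellinConvergent at h
  have h2 := h.re
  refine (integrableOn_congr_fun (fun u hu => ?_) measurableSet_Ioi).mp h2
  have hu0 : (0 : ℝ) < u := hu
  simp only [smul_eq_mul]
  have e : (u : ℂ) ^ ((1 / 2 : ℂ) - 1) = ((u ^ ((1 / 2 : ℝ) - 1) : ℝ) : ℂ) := by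
    rw [Complex.ofReal_cpow hu0.le]; push_cast; rfl
  rw [e, ← Complex.ofReal_mul]
  exact Complex.ofReal_re _

lemma kp_eq : (kp : ℂ) = mellin (fun u : ℝ => (kap u : ℂ)) (1 / 2 : ℂ) := by
  unfold kp mellin
  rw [← integral_complex_ofReal]
  apply setIntegral_congr_fun measurableSet_Ioi
  intro u hu
  have hu0 : (0 : ℝ) < u := hu
  simp only [smul_eq_mul]
  have e : (u : ℂ) ^ ((1 / 2 : ℂ) - 1) = ((u ^ ((1 / 2 : ℝ) - 1) : ℝ) : ℂ) := by
    rw [Complex.ofReal_cpow hu0.le]; push_cast; rfl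
  rw [e]; push_cast; rfl

lemma sq_rpow_two (t : ℝ) : t ^ (2 : ℝ) = t ^ 2 := by norm_num

lemma scaled_abs {z : ℝ} (hz : 0 < z) :
    IntegrableOn (fun t : ℝ => 2 * |kap (t ^ 2 / z)| / t) (Ioi 0) ∧
    (∫ t in Ioi (0 : ℝ), 2 * |kap (t ^ 2 / z)| / t) = ∫ w in Ioi (0 : ℝ), |kap w| / w := by
  have hz' : 0 < z⁻¹ := by positivity
  set g : ℝ → ℝ := fun y => |kap (z⁻¹ * y)| / y with hg
  have hfun : ∀ t ∈ Ioi (0 : ℝ), 2 * |kap (t ^ 2 / z)| / t = ((2 : ℝ) * t ^ ((2 : ℝ) - 1)) • g (t ^ (2 : ℝ)) := by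
    intro t ht
    have ht0 : (0 : ℝ) < t := ht
    simp only [hg, sq_rpow_two, smul_eq_mul]
    have e1 : t ^ ((2 : ℝ) - 1) = t := by norm_num
    rw [e1]
    have e2 : z⁻¹ * t ^ 2 = t ^ 2 / z := by field_simp
    rw [e2]
    field_simp
  have hg2 : ∀ y ∈ Ioi (0 : ℝ), g y = z⁻¹ * ((fun w : ℝ => |kap w| / w) (z⁻¹ * y)) := by
    intro y hy
    have hy0 : (0 : ℝ) < y := hy
    simp only [hg]
    field_simp
  have hgi : IntegrableOn g (Ioi 0) := by
    refine (integrableOn_congr_fun hg2 measurableSet_Ioi).mpr ?_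
    apply Integrable.const_mul
    have := (integrableOn_Ioi_comp_mul_left_iff (fun w : ℝ => |kap w| / w) 0 hz')
    rw [mul_zero] at this
    exact this.mpr int_abs_kap
  constructor
  · refine (integrableOn_congr_fun hfun measurableSet_Ioi).mpr ?_
    have h1 := (integrableOn_Ioi_comp_rpow_iff g (p := 2) (by norm_num)).mpr hgi
    have h2 : |(2 : ℝ)| = 2 := abs_of_pos two_pos
    rw [h2] at h1
    exact h1
  · rw [setIntegral_congr_fun measurableSet_Ioi hfun, integral_comp_rpow_Ioi_of_pos two_pos,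
      setIntegral_congr_fun measurableSet_Ioi hg2, integral_const_mul]
    have := integral_comp_mul_left_Ioi (fun w : ℝ => |kap w| / w) 0 hz'
    rw [mul_zero] at this
    rw [this, inv_inv, smul_eq_mul]
    field_simp

lemma scaled_main {z : ℝ} (hz : 0 < z) :
    IntegrableOn (fun t : ℝ => 2 * kap (t ^ 2 / z)) (Ioi 0) ∧
    (∫ t in Ioi (0 : ℝ), 2 * kap (t ^ 2 / z)) = √z * kp := by
  have hz' : 0 < z⁻¹ := by positivity
  set g : ℝ → ℝ := fun y => y ^ (-(1 / 2) : ℝ) * kap (z⁻¹ * y) with hg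
  have hfun : ∀ t ∈ Ioi (0 : ℝ), 2 * kap (t ^ 2 / z) = ((2 : ℝ) * t ^ ((2 : ℝ) - 1)) • g (t ^ (2 : ℝ)) := by
    intro t ht
    have ht0 : (0 : ℝ) < t := ht
    simp only [hg, sq_rpow_two, smul_eq_mul]
    have e1 : t ^ ((2 : ℝ) - 1) = t := by norm_num
    have e3 : (t ^ 2) ^ (-(1 / 2) : ℝ) = t⁻¹ := by
      rw [← rpow_natCast t 2, ← rpow_mul ht0.le]
      norm_num
      rw [rpow_neg_one]
    rw [e1, e3]
    have e2 : z⁻¹ * t ^ 2 = t ^ 2 / z := by field_simp
    rw [e2]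
    field_simp
  have hg2 : ∀ y ∈ Ioi (0 : ℝ), g y = z ^ (-(1 / 2) : ℝ) *
      ((fun w : ℝ => w ^ ((1 / 2 : ℝ) - 1) * kap w) (z⁻¹ * y)) := by
    intro y hy
    have hy0 : (0 : ℝ) < y := hy
    simp only [hg]
    have e1 : (1 / 2 : ℝ) - 1 = -(1 / 2) := by norm_num
    rw [e1, mul_rpow hz'.le hy0.le, inv_rpow hz.le]
    have : z ^ (-(1 / 2) : ℝ) ≠ 0 := (rpow_pos_of_pos hz _).ne'
    field_simp
  have hgi : IntegrableOn g (Ioi 0) := by
    refine (integrableOn_congr_fun hg2 measurableSet_Ioi).mpr ?_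
    apply Integrable.const_mul
    have := (integrableOn_Ioi_comp_mul_left_iff (fun w : ℝ => w ^ ((1 / 2 : ℝ) - 1) * kap w) 0 hz')
    rw [mul_zero] at this
    exact this.mpr int_kp
  constructor
  · refine (integrableOn_congr_fun hfun measurableSet_Ioi).mpr ?_
    have h1 := (integrableOn_Ioi_comp_rpow_iff g (p := 2) (by norm_num)).mpr hgi
    have h2 : |(2 : ℝ)| = 2 := abs_of_pos two_pos
    rw [h2] at h1
    exact h1
  · rw [setIntegral_congr_fun measurableSet_Ioi hfun, integral_comp_rpow_Ioi_of_pos two_pos,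
      setIntegral_congr_fun measurableSet_Ioi hg2, integral_const_mul]
    have := integral_comp_mul_left_Ioi (fun w : ℝ => w ^ ((1 / 2 : ℝ) - 1) * kap w) 0 hz'
    rw [mul_zero] at this
    rw [this, inv_inv, smul_eq_mul, ← mul_assoc]
    unfold kp
    congr 1
    rw [sqrt_eq_rpow]
    nth_rewrite 2 [← rpow_one z]
    rw [← rpow_add hz]
    norm_num

lemma hasDerivAt_Phi_sq {z : ℝ} (hz : 0 < z) {t : ℝ} (ht : 0 < t) :
    HasDerivAt (fun t => -Phi (t ^ 2 / z)) (2 * kap (t ^ 2 / z) / t) t := by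
  have h0 : HasDerivAt (fun t : ℝ => t ^ 2 / z) (2 * t / z) t := by
    have := (hasDerivAt_pow 2 t).div_const z
    convert! this using 1
    norm_num
  have h1 := (hasDerivAt_Phi (t ^ 2 / z)).comp t h0
  have h2 := h1.neg
  convert! h2 using 1
  unfold kap
  field_simp
  ring

lemma kap_sq_int {z : ℝ} (hz : 0 < z) {n : ℝ} (hn : 0 < n) :
    IntegrableOn (fun t => 2 * kap (t ^ 2 / z) / t) (Ioi n) ∧
    (∫ t in Ioi n, |2 * kap (t ^ 2 / z) / t|) ≤ 6 * z ^ 2 * (1 / n ^ 4) ∧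
    (∫ t in Ioi n, 2 * kap (t ^ 2 / z) / t) = Phi (n ^ 2 / z) := by
  have hb : IntegrableOn (fun t : ℝ => 24 * z ^ 2 * t ^ (-5 : ℝ)) (Ioi n) :=
    (integrableOn_Ioi_rpow_of_lt (by norm_num) hn).const_mul _
  have hbd : ∀ t ∈ Ioi n, |2 * kap (t ^ 2 / z) / t| ≤ 24 * z ^ 2 * t ^ (-5 : ℝ) := by
    intro t ht
    have ht0 : 0 < t := lt_trans hn ht
    rw [abs_div, abs_of_pos ht0, div_le_iff₀ ht0, abs_mul, abs_of_pos (two_pos)]
    have h1 := kap_abs_le (u := t ^ 2 / z) (by positivity)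
    have : t ^ (-5 : ℝ) = (t ^ 5)⁻¹ := by rw [rpow_neg ht0.le]; norm_num
    rw [this]
    calc 2 * |kap (t ^ 2 / z)| ≤ 2 * (12 / (t ^ 2 / z) ^ 2) := by linarith
      _ = _ := by field_simp; ring
  have hint : IntegrableOn (fun t => 2 * kap (t ^ 2 / z) / t) (Ioi n) := by
    apply Integrable.mono' hb
    · apply ContinuousOn.aestronglyMeasurable _ measurableSet_Ioi
      intro t ht
      have ht0 : 0 < t := lt_trans hn ht
      apply ContinuousAt.continuousWithinAt
      apply ContinuousAt.div _ continuousAt_id ht0.ne'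
      unfold kap
      fun_prop
    · rw [ae_restrict_iff' measurableSet_Ioi]
      exact Eventually.of_forall hbd
  refine ⟨hint, ?_, ?_⟩
  · have h1 : (∫ t in Ioi n, |2 * kap (t ^ 2 / z) / t|) ≤ ∫ t in Ioi n, 24 * z ^ 2 * t ^ (-5 : ℝ) :=
      setIntegral_mono_on hint.abs hb measurableSet_Ioi hbd
    refine h1.trans (le_of_eq ?_)
    rw [integral_const_mul, integral_Ioi_rpow_of_lt (by norm_num) hn]
    have : n ^ (-5 + 1 : ℝ) = (n ^ 4)⁻¹ := by
      rw [show (-5 + 1 : ℝ) = -4 by norm_num, rpow_neg hn.le]; norm_num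
    rw [this]
    field_simp
    norm_num
  · have h1 := integral_Ioi_of_hasDerivAt_of_tendsto (f := fun t => -Phi (t ^ 2 / z))
      (f' := fun t => 2 * kap (t ^ 2 / z) / t) (a := n) (m := 0)
      ((hasDerivAt_Phi_sq hz hn).continuousAt.continuousWithinAt)
      (fun t ht => hasDerivAt_Phi_sq hz (lt_trans hn ht)) hint (by
        have h2 : Tendsto (fun t : ℝ => t ^ 2 / z) atTop atTop :=
          (tendsto_pow_atTop two_ne_zero).atTop_div_const hz
        simpa using (tendsto_Phi_atTop.comp h2).neg)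
    rw [h1]; ring

lemma S_one {t : ℝ} : S (fun _ => 1) t = (⌊t⌋₊ : ℝ) := by
  unfold S; simp

lemma GA_lam_int {z : ℝ} (hz : 0 < z) :
    GA (S lam) z = ∫ t in Ioi (0 : ℝ), (⌊t⌋₊ : ℝ) * (2 * kap (t ^ 2 / z) / t) := by
  set F : ℕ+ → ℝ → ℝ := fun j t =>
    (Ici ((j : ℕ) : ℝ)).indicator (fun _ => (1 : ℝ)) t * (2 * kap (t ^ 2 / z) / t) with hF
  have hn0 : ∀ n : ℕ+, (0 : ℝ) < ((n : ℕ) : ℝ) := fun n => by exact_mod_cast n.pos
  have hFeq : ∀ j : ℕ+, F j = (Ici ((j : ℕ) : ℝ)).indicator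
      (fun t => 2 * kap (t ^ 2 / z) / t) := by
    intro p; funext t
    simp only [hF]
    by_cases h : t ∈ Ici ((p : ℕ) : ℝ)
    · rw [indicator_of_mem h, indicator_of_mem h, one_mul]
    · rw [indicator_of_notMem h, indicator_of_notMem h, zero_mul]
  have hinter : ∀ n : ℕ+, Ioi (0 : ℝ) ∩ Ici ((n : ℕ) : ℝ) = Ici ((n : ℕ) : ℝ) := by
    intro n
    apply inter_eq_right.mpr
    intro x hx
    exact lt_of_lt_of_le (hn0 n) hx
  have hint : ∀ p : ℕ+, Integrable (F p) (volume.restrict (Ioi 0)) := by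
    intro p
    rw [hFeq p]
    apply IntegrableOn.integrable
    rw [IntegrableOn, integrable_indicator_iff measurableSet_Ici, IntegrableOn,
      Measure.restrict_restrict measurableSet_Ici, inter_comm, hinter]
    exact Iff.mpr integrableOn_Ici_iff_integrableOn_Ioi (kap_sq_int hz (hn0 p)).1
  have hval : ∀ p : ℕ+, (∫ t in Ioi (0 : ℝ), F p t) = Phi (((p : ℕ) : ℝ) ^ 2 / z) := by
    intro p
    rw [hFeq p, setIntegral_indicator measurableSet_Ici, hinter,
      integral_Ici_eq_integral_Ioi, (kap_sq_int hz (hn0 p)).2.2]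
  have hnorm : ∀ p : ℕ+, (∫ t in Ioi (0 : ℝ), ‖F p t‖) ≤ 6 * z ^ 2 * (1 / ((p : ℕ) : ℝ) ^ 4) := by
    intro p
    have e1 : (fun t => ‖F p t‖) = (Ici ((p : ℕ) : ℝ)).indicator
        (fun t => |2 * kap (t ^ 2 / z) / t|) := by
      rw [hFeq p]
      funext t
      by_cases h : t ∈ Ici ((p : ℕ) : ℝ)
      · rw [indicator_of_mem h, indicator_of_mem h, Real.norm_eq_abs]
      · rw [indicator_of_notMem h, indicator_of_notMem h, norm_zero]
    rw [e1, setIntegral_indicator measurableSet_Ici, hinter, integral_Ici_eq_integral_Ioi]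
    exact (kap_sq_int hz (hn0 p)).2.1
  have hs1 : Summable fun n : ℕ+ => (1 : ℝ) / ((n : ℕ) : ℝ) ^ 4 :=
    (Real.summable_one_div_nat_pow.mpr (by norm_num : 1 < 4)).comp_injective PNat.coe_injective
  have hsum : Summable fun p : ℕ+ => ∫ t in Ioi (0 : ℝ), ‖F p t‖ := by
    apply Summable.of_nonneg_of_le (fun p => integral_nonneg (fun _ => norm_nonneg _)) hnorm
    exact hs1.mul_left _
  have hS := hasSum_integral_of_summable_integral_norm hint hsum
  simp_rw [hval] at hS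
  have h1 := (GA_lam hz).unique hS
  rw [h1]
  apply setIntegral_congr_fun measurableSet_Ioi
  intro t ht
  have ht0 : (0 : ℝ) < t := ht
  simp only [hF]
  rw [tsum_mul_right, tsum_indicator_eq_S (fun _ => 1) ht0, S_one]

theorem GA_lam_bound : ∃ V : ℝ, 0 ≤ V ∧ ∀ z : ℝ, 0 < z → |GA (S lam) z - √z * kp| ≤ V := by
  refine ⟨∫ w in Ioi (0 : ℝ), |kap w| / w, ?_, fun z hz => ?_⟩
  · apply setIntegral_nonneg measurableSet_Ioi
    intro w hw
    have : (0 : ℝ) < w := hw
    positivity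
  have hm := scaled_main hz
  have ha := scaled_abs hz
  rw [GA_lam_int hz, ← hm.2]
  have hmeas : AEStronglyMeasurable (fun t : ℝ => (⌊t⌋₊ : ℝ) * (2 * kap (t ^ 2 / z) / t))
      (volume.restrict (Ioi (0 : ℝ))) := by
    apply AEStronglyMeasurable.mul
    · apply Measurable.aestronglyMeasurable
      exact (measurable_from_nat (f := fun n : ℕ => (n : ℝ))).comp Nat.measurable_floor
    · apply ContinuousOn.aestronglyMeasurable _ measurableSet_Ioi
      intro t ht
      have ht0 : (0 : ℝ) < t := ht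
      apply ContinuousAt.continuousWithinAt
      apply ContinuousAt.div _ continuousAt_id ht0.ne'
      unfold kap
      fun_prop
  have hi1 : IntegrableOn (fun t : ℝ => (⌊t⌋₊ : ℝ) * (2 * kap (t ^ 2 / z) / t)) (Ioi 0) := by
    apply Integrable.mono hm.1 hmeas
    rw [ae_restrict_iff' measurableSet_Ioi]
    refine Eventually.of_forall (fun t ht => ?_)
    have ht0 : (0 : ℝ) < t := ht
    rw [norm_mul, norm_div, Real.norm_eq_abs (⌊t⌋₊ : ℝ), abs_of_nonneg (Nat.cast_nonneg _),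
      Real.norm_eq_abs t, abs_of_pos ht0]
    have h1 := Nat.floor_le ht0.le
    have h2 : 0 ≤ ‖2 * kap (t ^ 2 / z)‖ := norm_nonneg _
    calc (⌊t⌋₊ : ℝ) * (‖2 * kap (t ^ 2 / z)‖ / t) ≤ t * (‖2 * kap (t ^ 2 / z)‖ / t) :=
          mul_le_mul_of_nonneg_right h1 (by positivity)
      _ = _ := by field_simp
  rw [← integral_sub hi1 hm.1]
  have hb := norm_integral_le_of_norm_le (μ := volume.restrict (Ioi (0 : ℝ)))
    (f := fun t => (⌊t⌋₊ : ℝ) * (2 * kap (t ^ 2 / z) / t) - 2 * kap (t ^ 2 / z)) ha.1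
    ((ae_restrict_iff' measurableSet_Ioi).mpr (Eventually.of_forall (fun t ht => by
      have ht0 : (0 : ℝ) < t := ht
      have e : (⌊t⌋₊ : ℝ) * (2 * kap (t ^ 2 / z) / t) - 2 * kap (t ^ 2 / z) =
          ((⌊t⌋₊ : ℝ) - t) * (2 * kap (t ^ 2 / z) / t) := by field_simp
      have h1 := Nat.floor_le ht0.le
      have h2 := Nat.lt_floor_add_one t
      have h3 : |(⌊t⌋₊ : ℝ) - t| ≤ 1 := by
        rw [abs_le]; constructor <;> linarith
      have h4 : |2 * kap (t ^ 2 / z) / t| = 2 * |kap (t ^ 2 / z)| / t := by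
        rw [abs_div, abs_of_pos ht0, abs_mul, abs_of_pos (two_pos : (0:ℝ) < 2)]
      rw [e, norm_mul, Real.norm_eq_abs, Real.norm_eq_abs, h4]
      calc |(⌊t⌋₊ : ℝ) - t| * (2 * |kap (t ^ 2 / z)| / t) ≤ 1 * (2 * |kap (t ^ 2 / z)| / t) :=
            mul_le_mul_of_nonneg_right h3 (by positivity)
        _ = _ := one_mul _)))
  rw [ha.2, Real.norm_eq_abs] at hb
  exact hb

end Pool.Agent.Helper18.ES
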