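import Pool.Agent.Helper18.ES.Lam1

open Real Filter Topology Set MeasureTheory Asymptotics
open Pool.Agent.Helper57.Zeta

namespace Pool.Agent.Helper18.ES

lemma XR_half : (XR (1 / 2) : ℂ) = riemannZeta (1 / 2) * (kp : ℂ) := by
  have h1 := mellin_K_real (1 / 2)
  have e : (((1 / 2 : ℝ)) : ℂ) = 1 / 2 := by push_cast; rfl
  rw [e, mellin_K, xi_eq_zeta (by norm_num) (by norm_num)] at h1
  rw [kp_eq, (mellin_kap (s := (1 / 2 : ℂ)) (by norm_num)).2, ← h1]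
  ring

lemma kp_ne : kp ≠ 0 := by
  intro h
  have h1 := XR_half
  rw [h] at h1
  simp only [Complex.ofReal_zero, mul_zero, Complex.ofReal_eq_zero] at h1
  exact (XR_pos (1 / 2)).ne' h1

lemma zeta_half : riemannZeta (1 / 2) = ((XR (1 / 2) / kp : ℝ) : ℂ) := by
  have h1 := XR_half
  have h2 : (kp : ℂ) ≠ 0 := by exact_mod_cast kp_ne
  push_cast
  rw [eq_div_iff h2]
  exact h1.symm

lemma zeta_half_re : (riemannZeta (1 / 2)).re = XR (1 / 2) / kp := by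
  rw [zeta_half, Complex.ofReal_re]

lemma zeta_half_ne : (riemannZeta (1 / 2)).re ≠ 0 := by
  rw [zeta_half_re]
  exact div_ne_zero (XR_pos _).ne' kp_ne

/-- the coefficient of `√t` in the main term of the Liouville sum -/
noncomputable def bb : ℝ := 1 / (riemannZeta (1 / 2)).re

lemma bb_mul : bb * XR (1 / 2) = kp := by
  unfold bb
  rw [zeta_half_re]
  have h1 := (XR_pos (1 / 2)).ne'
  have h2 := kp_ne
  field_simp

lemma Phi_inv {s : ℂ} (hs : 0 < s.re) {c : ℝ} (hc : 0 < c) :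
    MellinConvergent (fun z : ℝ => (Phi (c / z) : ℂ)) (-s) ∧
    mellin (fun z : ℝ => (Phi (c / z) : ℂ)) (-s) = (c : ℂ) ^ (-s) * mellin (fun u : ℝ => (Phi u : ℂ)) s := by
  have hP := mellin_Phi hs
  constructor
  · have h1 : MellinConvergent (fun y : ℝ => (Phi (c * y) : ℂ)) s :=
      (MellinConvergent.comp_mul_left (f := fun y : ℝ => (Phi y : ℂ)) hc).mpr hP.1
    have h2 := (MellinConvergent.comp_rpow (f := fun y : ℝ => (Phi (c * y) : ℂ)) (s := -s)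
      (a := -1) (by norm_num)).mpr (by
        have e : -s / ((-1 : ℝ) : ℂ) = s := by push_cast; ring
        rw [e]; exact h1)
    simp_rw [rpow_neg_one, ← div_eq_mul_inv] at h2
    exact h2
  · have h3 : (fun z : ℝ => (Phi (c / z) : ℂ)) =
        fun t : ℝ => (fun t : ℝ => ((Phi (c * t) : ℝ) : ℂ)) t⁻¹ := by
      funext y
      simp only [div_eq_mul_inv]
    have h4 : mellin (fun t : ℝ => (fun t : ℝ => ((Phi (c * t) : ℝ) : ℂ)) t⁻¹) (-s) =
        mellin (fun t : ℝ => ((Phi (c * t) : ℝ) : ℂ)) (- -s) :=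
      mellin_comp_inv (fun t : ℝ => ((Phi (c * t) : ℝ) : ℂ)) (-s)
    rw [h3, h4, neg_neg]
    have h5 := mellin_comp_mul_left (fun y : ℝ => (Phi y : ℂ)) s hc
    rw [h5, smul_eq_mul]

lemma norm_Phi_inv {s : ℂ} {c : ℝ} (hc : 0 < c) :
    (∫ z in Ioi (0 : ℝ), ‖(z : ℂ) ^ (-s - 1) • ((Phi (c / z) : ℝ) : ℂ)‖) =
      c ^ (-s.re) * ∫ z in Ioi (0 : ℝ), ‖(z : ℂ) ^ (-s - 1) • ((Phi (1 / z) : ℝ) : ℂ)‖ := by
  have h1 := integral_comp_mul_left_Ioi
    (fun z : ℝ => ‖(z : ℂ) ^ (-s - 1) • ((Phi (c / z) : ℝ) : ℂ)‖) 0 hc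
  rw [mul_zero] at h1
  have h2 : ∀ u ∈ Ioi (0 : ℝ), ‖(((c * u : ℝ)) : ℂ) ^ (-s - 1) • ((Phi (c / (c * u)) : ℝ) : ℂ)‖ =
      c ^ (-s.re - 1) * ‖(u : ℂ) ^ (-s - 1) • ((Phi (1 / u) : ℝ) : ℂ)‖ := by
    intro u hu
    have hu0 : (0 : ℝ) < u := hu
    rw [norm_smul, norm_smul, norm_cpow_aux (by positivity : (0 : ℝ) < c * u), norm_cpow_aux hu0,
      mul_rpow hc.le hu0.le]
    have e : c / (c * u) = 1 / u := by field_simp
    rw [e]
    ring
  rw [setIntegral_congr_fun measurableSet_Ioi h2, integral_const_mul, smul_eq_mul] at h1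
  have e3 : c ^ (-s.re - 1) = c ^ (-s.re) * c⁻¹ := by
    rw [rpow_sub hc, rpow_one, div_eq_mul_inv]
  rw [e3] at h1
  have hc1 : c⁻¹ ≠ 0 := by positivity
  have h4 : c⁻¹ * (c ^ (-s.re) * ∫ z in Ioi (0 : ℝ), ‖(z : ℂ) ^ (-s - 1) • ((Phi (1 / z) : ℝ) : ℂ)‖) =
      c⁻¹ * ∫ z in Ioi (0 : ℝ), ‖(z : ℂ) ^ (-s - 1) • ((Phi (c / z) : ℝ) : ℂ)‖ := by
    rw [← h1]; ring
  exact (mul_left_cancel₀ hc1 h4).symm

theorem mellin_GA_lam {s : ℂ} (hs : 1 / 2 < s.re) :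
    mellin (fun z : ℝ => (GA (S lam) z : ℂ)) (-s) =
      riemannZeta (2 * s) * mellin (fun u : ℝ => (Phi u : ℂ)) s := by
  have hs0 : 0 < s.re := by linarith
  have hj0 : ∀ j : ℕ+, (0 : ℝ) < ((j : ℕ) : ℝ) ^ 2 := fun j => by
    have : (0 : ℝ) < ((j : ℕ) : ℝ) := by exact_mod_cast j.pos
    positivity
  have hterm : ∀ j : ℕ+, MellinConvergent (fun z : ℝ => (Phi (((j : ℕ) : ℝ) ^ 2 / z) : ℂ)) (-s) :=
    fun j => (Phi_inv hs0 (hj0 j)).1
  have hval : ∀ j : ℕ+, mellin (fun z : ℝ => (Phi (((j : ℕ) : ℝ) ^ 2 / z) : ℂ)) (-s) =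
      (1 / ((j : ℕ) : ℂ) ^ (2 * s)) * mellin (fun u : ℝ => (Phi u : ℂ)) s := by
    intro j
    rw [(Phi_inv hs0 (hj0 j)).2]
    congr 1
    have hjp : (0 : ℝ) < ((j : ℕ) : ℝ) := by exact_mod_cast j.pos
    rw [one_div, ← Complex.cpow_neg]
    have e : (((((j : ℕ) : ℝ) ^ 2 : ℝ)) : ℂ) = ((j : ℕ) : ℂ) ^ (2 : ℕ) := by push_cast; rfl
    rw [e, ← Complex.cpow_nat_mul' (x := ((j : ℕ) : ℂ)) (n := 2)
      (by simp [Complex.natCast_arg, pi_pos]) (by simp [Complex.natCast_arg, pi_pos.le]) (-s)]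
    congr 1
    push_cast; ring
  have hsum : Summable fun j : ℕ+ => ∫ z in Ioi (0 : ℝ),
      ‖(z : ℂ) ^ (-s - 1) • ((Phi (((j : ℕ) : ℝ) ^ 2 / z) : ℝ) : ℂ)‖ := by
    have hn : ∀ j : ℕ+, (∫ z in Ioi (0 : ℝ),
        ‖(z : ℂ) ^ (-s - 1) • ((Phi (((j : ℕ) : ℝ) ^ 2 / z) : ℝ) : ℂ)‖) =
        (1 / ((j : ℕ) : ℝ) ^ (2 * s.re)) * ∫ z in Ioi (0 : ℝ),
          ‖(z : ℂ) ^ (-s - 1) • ((Phi (1 / z) : ℝ) : ℂ)‖ := by
      intro j
      rw [norm_Phi_inv (hj0 j)]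
      congr 1
      have hjp : (0 : ℝ) < ((j : ℕ) : ℝ) := by exact_mod_cast j.pos
      rw [← rpow_natCast, ← rpow_mul hjp.le, one_div, ← rpow_neg hjp.le]
      congr 1
      push_cast; ring
    simp_rw [hn]
    apply Summable.mul_right
    have := (Real.summable_one_div_nat_rpow.mpr (show 1 < 2 * s.re by linarith)).comp_injective
      PNat.coe_injective
    exact this
  have hS := hasSum_integral_of_summable_integral_norm (μ := volume.restrict (Ioi (0 : ℝ)))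
    (F := fun (j : ℕ+) (z : ℝ) => (z : ℂ) ^ (-s - 1) • ((Phi (((j : ℕ) : ℝ) ^ 2 / z) : ℝ) : ℂ))
    hterm hsum
  have e1 : (∫ z in Ioi (0 : ℝ), ∑' j : ℕ+,
        (z : ℂ) ^ (-s - 1) • ((Phi (((j : ℕ) : ℝ) ^ 2 / z) : ℝ) : ℂ))
      = mellin (fun z : ℝ => (GA (S lam) z : ℂ)) (-s) := by
    unfold mellin
    apply setIntegral_congr_fun measurableSet_Ioi
    intro z hz
    simp only
    rw [tsum_const_smul'' ((z : ℂ) ^ (-s - 1))]
    congr 1
    rw [← Complex.ofReal_tsum, (GA_lam hz).tsum_eq]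
  rw [e1] at hS
  have hS2 : HasSum (fun j : ℕ+ => (1 / ((j : ℕ) : ℂ) ^ (2 * s)) * mellin (fun u : ℝ => (Phi u : ℂ)) s)
      (mellin (fun z : ℝ => (GA (S lam) z : ℂ)) (-s)) := by
    refine hS.congr_fun ?_
    intro j
    exact (hval j).symm
  have hz : (∑' m : ℕ+, (1 / ((m : ℕ) : ℂ) ^ (2 * s))) = riemannZeta (2 * s) := by
    rw [zeta_eq_tsum_one_div_nat_add_one_cpow (by simp; linarith)]
    rw [tsum_pnat_eq_tsum_succ (f := fun n : ℕ => 1 / ((n : ℕ) : ℂ) ^ (2 * s))]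
    simp
  have h1 := hS2.tsum_eq
  rw [tsum_mul_right, hz] at h1
  exact h1.symm

/-- The Liouville summatory function minus its main term. -/
noncomputable def AL (t : ℝ) : ℝ := S lam t - bb * P t

lemma adm_AL : Adm AL (1 + |bb|) := by
  have h1 := adm_S lam_le
  have h2 := adm_P
  refine ⟨h1.meas.sub (h2.meas.const_mul _), fun t ht => ?_, fun t ht => ?_, by positivity⟩
  · unfold AL
    rw [h1.zero t ht, h2.zero t ht]; ring
  · unfold AL
    have h3 := h1.bound t ht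
    have h4 := h2.bound t ht
    calc |S lam t - bb * P t| ≤ |S lam t| + |bb * P t| := abs_sub _ _
      _ ≤ 1 * t + |bb| * (1 * t) := by
          rw [abs_mul]
          exact add_le_add h3 (mul_le_mul_of_nonneg_left h4 (abs_nonneg _))
      _ = _ := by ring

lemma GA_AL {z : ℝ} (hz : 0 < z) : GA AL z = GA (S lam) z - bb * GA P z := by
  unfold GA
  rw [← integral_const_mul, ← integral_sub (int_A (adm_S lam_le) hz) ((int_A adm_P hz).const_mul _)]
  apply setIntegral_congr_fun measurableSet_Ioi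
  intro t _
  simp only [AL]
  ring

lemma GA_AL_bound : ∃ B : ℝ, 0 ≤ B ∧ ∀ z : ℝ, 0 < z → |GA AL z| ≤ B := by
  obtain ⟨V1, hV1, h1⟩ := GA_lam_bound
  obtain ⟨V2, hV2, h2⟩ := GA_P_bound
  refine ⟨V1 + |bb| * V2, by positivity, fun z hz => ?_⟩
  have e : GA AL z = (GA (S lam) z - √z * kp) - bb * (GA P z - √z * XR (1 / 2)) := by
    rw [GA_AL hz]
    have := bb_mul
    linear_combination (√z) * (-this)
  rw [e]
  calc |(GA (S lam) z - √z * kp) - bb * (GA P z - √z * XR (1 / 2))|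
      ≤ |GA (S lam) z - √z * kp| + |bb * (GA P z - √z * XR (1 / 2))| := abs_sub _ _
    _ ≤ V1 + |bb| * V2 := by
        rw [abs_mul]
        exact add_le_add (h1 z hz) (mul_le_mul_of_nonneg_left (h2 z hz) (abs_nonneg _))

lemma mellin_GA_AL {s : ℂ} (hs : 1 / 2 < s.re) (hs3 : s.re < 3) :
    mellin (fun z : ℝ => (GA AL z : ℂ)) (-s) =
      riemannZeta (2 * s) * ((1 / 2) * (s - 1) * Complex.Gammaℝ s) -
        bb * ((1 / (s - 1 / 2)) * ((1 / 2) * xi s)) := by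
  obtain ⟨V1, hV1, h1⟩ := GA_lam_bound
  obtain ⟨V2, hV2, h2⟩ := GA_P_bound
  have hb1 : ∀ z : ℝ, 1 ≤ z → |GA (S lam) z| ≤ (V1 + |kp|) * z ^ (1 / 2 : ℝ) := by
    intro z hz
    have hz0 : 0 < z := by linarith
    rw [← sqrt_eq_rpow]
    have h3 : 1 ≤ √z := by rw [Real.one_le_sqrt]; exact hz
    calc |GA (S lam) z| = |(GA (S lam) z - √z * kp) + √z * kp| := by congr 1; ring
      _ ≤ |GA (S lam) z - √z * kp| + |√z * kp| := abs_add_le _ _
      _ ≤ V1 + √z * |kp| := by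
          rw [abs_mul, abs_of_nonneg (sqrt_nonneg z)]
          exact add_le_add (h1 z hz0) le_rfl
      _ ≤ (V1 + |kp|) * √z := by nlinarith
  have hb2 : ∀ z : ℝ, 1 ≤ z → |GA P z| ≤ (V2 + |XR (1 / 2)|) * z ^ (1 / 2 : ℝ) := by
    intro z hz
    have hz0 : 0 < z := by linarith
    rw [← sqrt_eq_rpow]
    have h3 : 1 ≤ √z := by rw [Real.one_le_sqrt]; exact hz
    calc |GA P z| = |(GA P z - √z * XR (1 / 2)) + √z * XR (1 / 2)| := by congr 1; ring
      _ ≤ |GA P z - √z * XR (1 / 2)| + |√z * XR (1 / 2)| := abs_add_le _ _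
      _ ≤ V2 + √z * |XR (1 / 2)| := by
          rw [abs_mul, abs_of_nonneg (sqrt_nonneg z)]
          exact add_le_add (h2 z hz0) le_rfl
      _ ≤ (V2 + |XR (1 / 2)|) * √z := by nlinarith
  have hc1 := GA_conv (adm_S lam_le) hb1 hs hs3
  have hc2 := GA_conv adm_P hb2 hs hs3
  have hh := hasMellin_sub hc1 (hc2.const_smul (bb : ℂ))
  have e1 : mellin (fun z : ℝ => (GA AL z : ℂ)) (-s) =
      mellin (fun z : ℝ => (GA (S lam) z : ℂ) - (bb : ℂ) • (GA P z : ℂ)) (-s) := by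
    unfold mellin
    apply setIntegral_congr_fun measurableSet_Ioi
    intro z hz
    simp only
    rw [GA_AL hz, smul_eq_mul (bb : ℂ)]
    push_cast; rfl
  rw [e1, hh.2, mellin_const_smul, mellin_GA_lam hs, mellin_GA_P hs, mellin_K,
    (mellin_Phi (by linarith : 0 < s.re)).2, smul_eq_mul]

lemma mellin_AL_ne {ρ : ℂ} (hρ : xi ρ = 0) (h0 : 1 / 2 ≤ ρ.re) (h1 : ρ.re < 1) :
    mellin (fun z : ℝ => (GA AL z : ℂ)) (-ρ) ≠ 0 := by
  obtain ⟨B, hB0, hB⟩ := GA_AL_bound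
  have hBz : ∀ z : ℝ, 1 ≤ z → |GA AL z| ≤ B * z ^ (0 : ℝ) := by
    intro z hz
    rw [rpow_zero, mul_one]
    exact hB z (by linarith)
  have hre : 0 < ρ.re := by linarith
  have hhalf : ρ ≠ 1 / 2 := by
    intro h
    have h2 := mellin_K_real (1 / 2)
    have e : (((1 / 2 : ℝ)) : ℂ) = 1 / 2 := by push_cast; rfl
    rw [e, mellin_K, ← h, hρ, mul_zero] at h2
    have h3 := (XR_pos (1 / 2)).ne'
    exact h3 (by exact_mod_cast h2.symm)
  -- the sequence approaching ρ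
  have hseq : Tendsto (fun δ : ℝ => ρ + (δ : ℂ)) (𝓝[>] 0) (𝓝 ρ) := by
    have : Tendsto (fun δ : ℝ => ρ + (δ : ℂ)) (𝓝 0) (𝓝 (ρ + ((0 : ℝ) : ℂ))) := by
      apply Continuous.tendsto
      fun_prop
    rw [Complex.ofReal_zero, add_zero] at this
    exact this.mono_left nhdsWithin_le_nhds
  have hL : Tendsto (fun δ : ℝ => mellin (fun z : ℝ => (GA AL z : ℂ)) (-(ρ + (δ : ℂ)))) (𝓝[>] 0)
      (𝓝 (mellin (fun z : ℝ => (GA AL z : ℂ)) (-ρ))) := by
    have hd := (GA_diff adm_AL hBz (s := ρ) (by simpa using hre) (by linarith)).continuousAt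
    have : Tendsto (fun δ : ℝ => -(ρ + (δ : ℂ))) (𝓝[>] 0) (𝓝 (-ρ)) := hseq.neg
    exact hd.tendsto.comp this
  have h2ρ : (2 * ρ) ≠ 1 := by
    intro h
    apply hhalf
    linear_combination (1 / 2 : ℂ) * h
  have hR : Tendsto (fun δ : ℝ => riemannZeta (2 * (ρ + δ)) *
      ((1 / 2) * ((ρ + δ) - 1) * Complex.Gammaℝ (ρ + δ)) -
        bb * ((1 / ((ρ + δ) - 1 / 2)) * ((1 / 2) * xi (ρ + δ)))) (𝓝[>] 0)
      (𝓝 (riemannZeta (2 * ρ) * ((1 / 2) * (ρ - 1) * Complex.Gammaℝ ρ) -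
        bb * ((1 / (ρ - 1 / 2)) * ((1 / 2) * xi ρ)))) := by
    have hc : ContinuousAt (fun s : ℂ => riemannZeta (2 * s) *
        ((1 / 2) * (s - 1) * Complex.Gammaℝ s) -
        bb * ((1 / (s - 1 / 2)) * ((1 / 2) * xi s))) ρ := by
      apply ContinuousAt.sub
      · apply ContinuousAt.mul
        · have h5 : ContinuousAt riemannZeta (2 * ρ) := (differentiableAt_riemannZeta h2ρ).continuousAt
          exact ContinuousAt.comp (f := fun s : ℂ => 2 * s) (g := riemannZeta) h5 (by fun_prop)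
        · apply ContinuousAt.mul (by fun_prop)
          unfold Complex.Gammaℝ
          apply ContinuousAt.mul
          · apply ContinuousAt.const_cpow
            · fun_prop
            · left; exact_mod_cast pi_pos.ne'
          · apply ContinuousAt.comp (f := fun s : ℂ => s / 2) (g := Complex.Gamma)
            · apply (Complex.differentiableAt_Gamma _ _).continuousAt
              intro m hm
              have : (ρ / 2).re = (-(m : ℂ)).re := by rw [hm]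
              simp at this
              have hm0 : (0 : ℝ) ≤ m := Nat.cast_nonneg m
              linarith
            · fun_prop
      · apply ContinuousAt.mul continuousAt_const
        apply ContinuousAt.mul
        · apply ContinuousAt.div continuousAt_const (by fun_prop)
          exact sub_ne_zero.mpr hhalf
        · exact (continuousAt_const).mul differentiable_xi.continuous.continuousAt
    exact hc.tendsto.comp hseq
  have hEq : (fun δ : ℝ => mellin (fun z : ℝ => (GA AL z : ℂ)) (-(ρ + (δ : ℂ)))) =ᶠ[𝓝[>] 0]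
      fun δ : ℝ => riemannZeta (2 * (ρ + δ)) *
      ((1 / 2) * ((ρ + δ) - 1) * Complex.Gammaℝ (ρ + δ)) -
        bb * ((1 / ((ρ + δ) - 1 / 2)) * ((1 / 2) * xi (ρ + δ))) := by
    have h01 : Ioc (0 : ℝ) 1 ∈ 𝓝[>] (0 : ℝ) := Ioc_mem_nhdsGT one_pos
    filter_upwards [h01] with δ hδ
    apply mellin_GA_AL
    · simp; linarith [hδ.1]
    · simp; linarith [hδ.2]
  have hlim := tendsto_nhds_unique hL (hR.congr' hEq.symm)
  rw [hlim, hρ, mul_zero, mul_zero, mul_zero, sub_zero]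
  have hG := Complex.Gammaℝ_ne_zero_of_re_pos hre
  have h2 : ρ - 1 ≠ 0 := by
    intro h
    have : (ρ - 1).re = 0 := by rw [h]; simp
    simp at this; linarith
  have h3 : riemannZeta (2 * ρ) ≠ 0 := by
    apply riemannZeta_ne_zero_of_one_le_re
    simp; linarith
  exact mul_ne_zero h3 (mul_ne_zero (mul_ne_zero (by norm_num) h2) hG)

theorem lam_lower {ρ : ℂ} {k : ℕ} (hρ : ((k + 1 : ℕ) : ℕ∞) ≤ analyticOrderAt riemannZeta ρ)
    (h0 : 1 / 2 ≤ ρ.re) : ∃ c : ℝ, 0 < c ∧ ∃ x₀ : ℝ, 1 ≤ x₀ ∧ ∀ x : ℝ, x₀ ≤ x →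
      c * (x ^ ρ.re * log x ^ k) ≤ GA (fun t => max (AL t) 0) x ∧
      c * (x ^ ρ.re * log x ^ k) ≤ GA (fun t => max (-AL t) 0) x := by
  have h1 := re_lt_one_of_order hρ
  obtain ⟨B, hB0, hB⟩ := GA_AL_bound
  have hxi : xi ρ = 0 := by
    have h2 : analyticOrderAt riemannZeta ρ ≠ 0 := by
      intro h
      rw [h] at hρ
      simp at hρ
    exact xi_eq_zero_iff.mpr ⟨by linarith, h1, apply_eq_zero_of_analyticOrderAt_ne_zero h2⟩
  exact abstract_lower adm_AL hB hρ h0 h1 (mellin_AL_ne hxi h0 h1)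

end Pool.Agent.Helper18.ES
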