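import Pool.Agent.Helper69.ES.Easy
import Pool.Agent.Helper69.PQ.E0
import Pool.Agent.Helper69.PQ.E2
import Pool.Agent.Helper69.PQ.E3
import Pool.Agent.Helper69.PQ.W1
import Pool.Agent.Helper69.PQ.C3
import Pool.Agent.Helper4.SH.PPow
import Pool.Agent.Helper4.SH.Scale
import Pool.Agent.Helper22.SI.WtI

/-!
# ES: the law of large numbers for `|M|²` times the prime sums

The first part is copied from `Helper22/SI/E4S.lean` (private lemmas there).
-/

open MeasureTheory Set Filter Topology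
open Pool.Agent.Helper57.Zeta Pool.Agent.Helper57.PC Pool.Agent.Helper57.LH Pool.Agent.Helper78.SG
open Pool.Agent.Helper4.SH Pool.Agent.Helper69.PP
open Pool.Agent.Helper69.SM (wt gmvS wt_cont)

namespace Pool.Agent.Helper69.PQ.H18

open scoped ArithmeticFunction.vonMangoldt

/-- the coefficients of `|M|²`, class `k` -/
noncomputable def e4e (P : Par) (k : ℕ) (T : ℝ) (x y : ℕ × ℕ) : ℝ :=
  if dk P T x y = k then cfn x * cfn y else 0

theorem e4e_symm (P : Par) (k : ℕ) (T : ℝ) (x y : ℕ × ℕ) : e4e P k T x y = e4e P k T y x := by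
  have h : dk P T x y = dk P T y x := by
    unfold dk
    rw [← Int.natAbs_neg, neg_sub]
  unfold e4e
  rw [h, mul_comm]

theorem e4e_abs (P : Par) (k : ℕ) (T : ℝ) (x y : ℕ × ℕ) :
    |e4e P k T x y| ≤ |cfn x| * |cfn y| := by
  unfold e4e
  split_ifs
  · rw [abs_mul]
  · rw [abs_zero]
    positivity

theorem e4_sin (P : Par) (k : ℕ) (T t : ℝ) :
    ∑ x ∈ IX P T, ∑ y ∈ IX P T, e4e P k T x y * Real.sin (t * (phn x - phn y)) = 0 := by
  have h : ∑ x ∈ IX P T, ∑ y ∈ IX P T, e4e P k T x y * Real.sin (t * (phn x - phn y)) =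
      -∑ x ∈ IX P T, ∑ y ∈ IX P T, e4e P k T x y * Real.sin (t * (phn x - phn y)) := by
    conv_lhs => rw [Finset.sum_comm]
    rw [← Finset.sum_neg_distrib]
    refine Finset.sum_congr rfl fun x _ => ?_
    rw [← Finset.sum_neg_distrib]
    refine Finset.sum_congr rfl fun y _ => ?_
    rw [e4e_symm P k T y x, show t * (phn y - phn x) = -(t * (phn x - phn y)) by ring, Real.sin_neg]
    ring
  linarith

/-- the positive integers up to `T` -/
noncomputable def RN (T : ℝ) : Finset ℕ := Finset.Icc 1 ⌊T⌋₊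

noncomputable def ck (P : Par) (k : ℕ) (f : TF) (T : ℝ) (i : ((ℕ × ℕ) × (ℕ × ℕ)) × ℕ) : ℝ :=
  e4e P k T i.1.1 i.1.2 * cc71 f.h 2 T i.2

def ai (i : ((ℕ × ℕ) × (ℕ × ℕ)) × ℕ) : ℕ := i.1.1.1 * i.1.2.2 * i.2

def bi (i : ((ℕ × ℕ) × (ℕ × ℕ)) × ℕ) : ℕ := i.1.1.2 * i.1.2.1

theorem RN_range (T : ℝ) (F : ℕ → ℝ) (h0 : F 0 = 0) :
    ∑ n ∈ Finset.range (⌊T⌋₊ + 1), F n = ∑ n ∈ RN T, F n := by
  symm
  refine Finset.sum_subset ?_ ?_
  · intro n hn
    have := Finset.mem_Icc.1 hn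
    exact Finset.mem_range.2 (by omega)
  · intro n hn hn2
    have h1 := Finset.mem_range.1 hn
    have h2 : n = 0 := by
      by_contra h
      exact hn2 (Finset.mem_Icc.2 ⟨by omega, by omega⟩)
    rw [h2, h0]

theorem FKpss (P : Par) (k : ℕ) (f : TF) {T : ℝ} (hT : 1 < T) (t : ℝ) :
    FK P k T t * pss f.h 2 T t = ∑ i ∈ (IX P T ×ˢ IX P T) ×ˢ RN T,
      ck P k f T i * Real.cos (t * (Real.log (ai i) - Real.log (bi i))) := by
  have hpss : pss f.h 2 T t = ∑ n ∈ RN T, cc71 f.h 2 T n * Real.cos (Real.log n * t) := by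
    rw [pss_eq71 f (Or.inr rfl) hT t]
    exact RN_range T _ (by simp [cc71])
  have hFK : FK P k T t = ∑ x ∈ IX P T, ∑ y ∈ IX P T, e4e P k T x y * Real.cos (t * (phn x - phn y)) := by
    unfold FK e4e
    refine Finset.sum_congr rfl fun x _ => Finset.sum_congr rfl fun y _ => ?_
    split_ifs
    · rfl
    · rw [zero_mul]
  rw [hpss, Finset.mul_sum, Finset.sum_product_right]
  refine Finset.sum_congr rfl fun n hn => ?_
  rw [Finset.sum_product]
  have hn0 : (n : ℝ) ≠ 0 := by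
    have := (Finset.mem_Icc.1 hn).1
    exact_mod_cast (by omega : n ≠ 0)
  have e1 : ∑ x ∈ IX P T, ∑ y ∈ IX P T,
      ck P k f T ((x, y), n) * Real.cos (t * (Real.log (ai ((x, y), n)) - Real.log (bi ((x, y), n)))) =
      ∑ x ∈ IX P T, ∑ y ∈ IX P T, (cc71 f.h 2 T n * Real.cos (Real.log n * t) *
          (e4e P k T x y * Real.cos (t * (phn x - phn y))) -
        cc71 f.h 2 T n * Real.sin (Real.log n * t) *
          (e4e P k T x y * Real.sin (t * (phn x - phn y)))) := by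
    refine Finset.sum_congr rfl fun x hx => Finset.sum_congr rfl fun y hy => ?_
    obtain ⟨hx1, hx2⟩ := IX_ne hx
    obtain ⟨hy1, hy2⟩ := IX_ne hy
    have hx1' : (x.1 : ℝ) ≠ 0 := by exact_mod_cast hx1
    have hx2' : (x.2 : ℝ) ≠ 0 := by exact_mod_cast hx2
    have hy1' : (y.1 : ℝ) ≠ 0 := by exact_mod_cast hy1
    have hy2' : (y.2 : ℝ) ≠ 0 := by exact_mod_cast hy2
    simp only [ck, ai, bi, Nat.cast_mul]
    rw [Real.log_mul (mul_ne_zero hx1' hy2') hn0, Real.log_mul hx1' hy2', Real.log_mul hx2' hy1']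
    have e2 : t * (Real.log x.1 + Real.log y.2 + Real.log n - (Real.log x.2 + Real.log y.1)) =
        t * (phn x - phn y) + Real.log n * t := by
      unfold phn
      ring
    rw [e2, Real.cos_add]
    ring
  rw [e1]
  simp only [Finset.sum_sub_distrib, ← Finset.mul_sum]
  rw [e4_sin, mul_zero, sub_zero, hFK]
  ring

theorem min_cond (P : Par) {T : ℝ} (hT : 1 < T) : ∀ i ∈ (IX P T ×ˢ IX P T) ×ˢ RN T,
    1 ≤ ai i ∧ 1 ≤ bi i ∧ ((min (ai i) (bi i) : ℕ) : ℝ) ≤ T ^ ((1 : ℝ) - 1 / 4200) := by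
  have hT0 : 0 < T := by linarith
  rintro ⟨⟨x, y⟩, n⟩ hi
  rw [Finset.mem_product, Finset.mem_product] at hi
  obtain ⟨⟨hx, hy⟩, hn⟩ := hi
  obtain ⟨hx1, hx2⟩ := IX_ne hx
  obtain ⟨hy1, hy2⟩ := IX_ne hy
  have hn1 := (Finset.mem_Icc.1 hn).1
  refine ⟨?_, ?_, ?_⟩
  · exact Nat.one_le_iff_ne_zero.2 (mul_ne_zero (mul_ne_zero hx1 hy2) (by omega))
  · exact Nat.one_le_iff_ne_zero.2 (mul_ne_zero hx2 hy1)
  · have h1 : ((min (ai ((x, y), n)) (bi ((x, y), n)) : ℕ) : ℝ) ≤ bi ((x, y), n) := by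
      exact_mod_cast min_le_right _ _
    refine h1.trans ?_
    simp only [bi, Nat.cast_mul]
    have h2 := NB_le hT (mem_IX.1 hx).2.1
    have h3 := NA_le hT (mem_IX.1 hy).1
    calc (x.2 : ℝ) * y.1 ≤ T ^ ((2099 : ℝ) / 4200) * T ^ ((1 : ℝ) / 2) :=
          mul_le_mul h2 h3 (Nat.cast_nonneg _) (Real.rpow_nonneg hT0.le _)
      _ = T ^ ((1 : ℝ) - 1 / 4200) := by
          rw [← Real.rpow_add hT0]
          norm_num

theorem sum_abs_le (P : Par) (k : ℕ) {f : TF} {M T : ℝ} (hM : 0 < M) (hf : ∀ y, |f.h y| ≤ M)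
    (hT : 1 < T) (hs : ∑ x ∈ IX P T, |cfn x| ≤ 4 * T ^ ((4199 : ℝ) / 8400)) :
    ∑ i ∈ (IX P T ×ˢ IX P T) ×ˢ RN T, |ck P k f T i| ≤ 32 * M * (T ^ ((4199 : ℝ) / 4200) * T) := by
  have hT0 : 0 < T := by linarith
  have h1 : ∑ n ∈ RN T, |cc71 f.h 2 T n| ≤ 2 * M * T := by
    have h2 : ∀ n ∈ RN T, |cc71 f.h 2 T n| ≤ 2 * M := by
      intro n hn
      have h3 := Finset.mem_Icc.1 hn
      exact cc_bd71 hf hT (Finset.mem_range.2 (by omega)) h3.1
    have h4 : ((RN T).card : ℝ) ≤ T := by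
      rw [RN, Nat.card_Icc, Nat.add_sub_cancel]
      exact Nat.floor_le hT0.le
    calc ∑ n ∈ RN T, |cc71 f.h 2 T n| ≤ ∑ _n ∈ RN T, 2 * M := Finset.sum_le_sum h2
      _ = (RN T).card * (2 * M) := by rw [Finset.sum_const, nsmul_eq_mul]
      _ ≤ T * (2 * M) := mul_le_mul_of_nonneg_right h4 (by positivity)
      _ = 2 * M * T := by ring
  have h0 : 0 ≤ ∑ x ∈ IX P T, |cfn x| := Finset.sum_nonneg fun _ _ => abs_nonneg _
  have h0' : 0 ≤ ∑ n ∈ RN T, |cc71 f.h 2 T n| := Finset.sum_nonneg fun _ _ => abs_nonneg _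
  have h3 : ∑ x ∈ IX P T, ∑ y ∈ IX P T, |e4e P k T x y| ≤ 16 * T ^ ((4199 : ℝ) / 4200) := by
    calc ∑ x ∈ IX P T, ∑ y ∈ IX P T, |e4e P k T x y|
        ≤ ∑ x ∈ IX P T, ∑ y ∈ IX P T, |cfn x| * |cfn y| :=
          Finset.sum_le_sum fun x _ => Finset.sum_le_sum fun y _ => e4e_abs P k T x y
      _ = (∑ x ∈ IX P T, |cfn x|) * (∑ y ∈ IX P T, |cfn y|) := (Finset.sum_mul_sum _ _ _ _).symm
      _ ≤ (4 * T ^ ((4199 : ℝ) / 8400)) * (4 * T ^ ((4199 : ℝ) / 8400)) :=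
          mul_le_mul hs hs h0 (h0.trans hs)
      _ = 16 * (T ^ ((4199 : ℝ) / 8400) * T ^ ((4199 : ℝ) / 8400)) := by ring
      _ = 16 * T ^ ((4199 : ℝ) / 4200) := by
          rw [← Real.rpow_add hT0]
          norm_num
  have h4 : ∑ i ∈ (IX P T ×ˢ IX P T) ×ˢ RN T, |ck P k f T i| =
      (∑ x ∈ IX P T, ∑ y ∈ IX P T, |e4e P k T x y|) * ∑ n ∈ RN T, |cc71 f.h 2 T n| := by
    simp only [ck, abs_mul]
    rw [Finset.sum_product]
    simp only [← Finset.mul_sum]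
    rw [← Finset.sum_mul, Finset.sum_product]
  rw [h4]
  calc (∑ x ∈ IX P T, ∑ y ∈ IX P T, |e4e P k T x y|) * ∑ n ∈ RN T, |cc71 f.h 2 T n|
      ≤ (16 * T ^ ((4199 : ℝ) / 4200)) * (2 * M * T) := mul_le_mul h3 h1 h0' (by positivity)
    _ = _ := by ring

/-- the diagonal of class `k` -/
noncomputable def Dk (P : Par) (k : ℕ) (f : TF) (T : ℝ) : ℝ :=
  ∑ i ∈ (IX P T ×ˢ IX P T) ×ˢ RN T, if ai i = bi i then ck P k f T i else 0

theorem SBc_abs (c y : ℝ) (hc : 0 < c) (hc1 : c < 1) : |SBc c y| ≤ 1 := by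
  unfold SBc
  rw [abs_mul, abs_of_pos hc]
  have := Real.abs_sinc_le_one (Real.pi * c * y)
  nlinarith [abs_nonneg (Real.sinc (Real.pi * c * y))]

/-- the kernel on the diagonal -/
theorem kf_diag {P : Par} {T : ℝ} (hT : 1 < T) {x y : ℕ × ℕ} (hx : x ∈ IX P T) (hy : y ∈ IX P T)
    {n : ℕ} (hn : n ≠ 0) (h : x.1 * y.2 * n = x.2 * y.1) {f : TF} (hf : KF P (dk P T x y) f) :
    cc71 f.h 2 T n = 2 / Real.log T * (Λ n / Real.sqrt n) * SBc P.c (yy T n) := by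
  have hL : 0 < Real.log T := Real.log_pos hT
  obtain ⟨hx1, hx2⟩ := IX_ne hx
  obtain ⟨hy1, hy2⟩ := IX_ne hy
  have hx1' : (x.1 : ℝ) ≠ 0 := by exact_mod_cast hx1
  have hx2' : (x.2 : ℝ) ≠ 0 := by exact_mod_cast hx2
  have hy1' : (y.1 : ℝ) ≠ 0 := by exact_mod_cast hy1
  have hy2' : (y.2 : ℝ) ≠ 0 := by exact_mod_cast hy2
  have hn' : (n : ℝ) ≠ 0 := by exact_mod_cast hn
  have e1 : Real.log n = phn y - phn x := by
    have h2 : Real.log ((x.1 : ℝ) * y.2 * n) = Real.log ((x.2 : ℝ) * y.1) := by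
      congr 1
      exact_mod_cast h
    rw [Real.log_mul (mul_ne_zero hx1' hy2') hn', Real.log_mul hx1' hy2', Real.log_mul hx2' hy1'] at h2
    unfold phn
    linarith
  have e2 : |yy T n / 2| ≤ ((dk P T x y : ℝ) + 2 * P.K) / P.G / 2 := by
    have h3 := dk_phn hT hx hy
    rw [abs_sub_comm, ← e1] at h3
    rw [abs_div, abs_of_pos (by norm_num : (0 : ℝ) < 2)]
    refine div_le_div_of_nonneg_right ?_ (by norm_num)
    rw [yy, abs_div, abs_of_pos hL, div_le_iff₀ hL]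
    exact h3
  unfold cc71
  rw [hf.1 _ e2, show 2 * (yy T n / 2) = yy T n by ring]

theorem diag_sum (P : Par) (f : ℕ → TF) (hf : ∀ k ∈ KR P, KF P k (f k)) {ε : ℝ} (hε : 0 < ε) :
    ∀ᶠ T : ℝ in atTop, |(∑ k ∈ KR P, Dk P k (f k) T) + BT P T| ≤ ε := by
  classical
  filter_upwards [eventually_gt_atTop 1, nonprime_small P hε] with T hT hnp
  have hL : 0 < Real.log T := Real.log_pos hT
  -- the total diagonal
  have e1 : ∑ k ∈ KR P, Dk P k (f k) T = ∑ x ∈ IX P T, ∑ y ∈ IX P T, ∑ n ∈ Finset.range (⌊T⌋₊ + 1),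
      (if x.1 * y.2 * n = x.2 * y.1 then
        cfn x * cfn y * (2 / Real.log T * (Λ n / Real.sqrt n) * SBc P.c (yy T n)) else 0) := by
    unfold Dk
    rw [Finset.sum_comm, Finset.sum_product, Finset.sum_product]
    refine Finset.sum_congr rfl fun x hx => Finset.sum_congr rfl fun y hy => ?_
    rw [RN_range]
    · refine Finset.sum_congr rfl fun n hn => ?_
      have hn0 : n ≠ 0 := by
        have := (Finset.mem_Icc.1 hn).1
        omega
      by_cases h : x.1 * y.2 * n = x.2 * y.1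
      · have h' : ai ((x, y), n) = bi ((x, y), n) := h
        simp only [if_pos h', if_pos h]
        rw [Finset.sum_eq_single (dk P T x y)]
        · simp only [ck, e4e, if_true]
          rw [kf_diag hT hx hy hn0 h (hf _ (dk_mem hx hy))]
        · intro k _ hk
          simp only [ck, e4e]
          rw [if_neg (Ne.symm hk), zero_mul]
        · intro hk
          exact absurd (dk_mem hx hy) hk
      · have h' : ¬ ai ((x, y), n) = bi ((x, y), n) := h
        simp only [if_neg h', if_neg h]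
        exact Finset.sum_const_zero
    · rw [if_neg]
      intro h
      obtain ⟨-, hx2⟩ := IX_ne hx
      obtain ⟨hy1, -⟩ := IX_ne hy
      rw [mul_zero] at h
      exact mul_ne_zero hx2 hy1 h.symm
  have e2 : ∑ k ∈ KR P, Dk P k (f k) T + BT P T = ∑ x ∈ IX P T, ∑ y ∈ IX P T,
      ∑ n ∈ (Finset.range (⌊T⌋₊ + 1)).filter (fun n => ¬ n.Prime),
      (if x.1 * y.2 * n = x.2 * y.1 then
        cfn x * cfn y * (2 / Real.log T * (Λ n / Real.sqrt n) * SBc P.c (yy T n)) else 0) := by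
    have h1 := diag_total P hT
    have h2 : BT P T = -∑ x ∈ IX P T, ∑ y ∈ IX P T, ∑ p ∈ PP T,
        (if x.1 * y.2 * p = x.2 * y.1 then
          cfn x * cfn y * (2 / Real.log T * (Λ p / Real.sqrt p) * SBc P.c (yy T p)) else 0) := by
      rw [← neg_eq_iff_eq_neg, ← h1]
      refine Finset.sum_congr rfl fun x _ => Finset.sum_congr rfl fun y _ =>
        Finset.sum_congr rfl fun p hp => ?_
      have hp' : p.Prime := (Finset.mem_filter.1 hp).2
      rw [ArithmeticFunction.vonMangoldt_apply_prime hp', ww]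
      congr 2
      rw [div_mul_div_comm, mul_div_assoc]
    rw [e1, h2, ← sub_eq_add_neg, ← Finset.sum_sub_distrib]
    refine Finset.sum_congr rfl fun x _ => ?_
    rw [← Finset.sum_sub_distrib]
    refine Finset.sum_congr rfl fun y _ => ?_
    rw [sub_eq_iff_eq_add', PP]
    exact (Finset.sum_filter_add_sum_filter_not _ _ _).symm
  rw [e2]
  refine le_trans ?_ hnp
  refine (Finset.abs_sum_le_sum_abs _ _).trans (Finset.sum_le_sum fun x _ => ?_)
  refine (Finset.abs_sum_le_sum_abs _ _).trans (Finset.sum_le_sum fun y _ => ?_)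
  refine (Finset.abs_sum_le_sum_abs _ _).trans (Finset.sum_le_sum fun n _ => ?_)
  split_ifs
  · have h0 : 0 ≤ 2 / Real.log T * (Λ n / Real.sqrt n) :=
      mul_nonneg (by positivity) (div_nonneg ArithmeticFunction.vonMangoldt_nonneg (Real.sqrt_nonneg _))
    rw [abs_mul (cfn x * cfn y), abs_mul (2 / Real.log T * (Λ n / Real.sqrt n)), abs_of_nonneg h0]
    refine mul_le_mul_of_nonneg_left ?_ (abs_nonneg _)
    have := SBc_abs P.c (yy T n) P.hc P.hc1
    calc 2 / Real.log T * (Λ n / Real.sqrt n) * |SBc P.c (yy T n)|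
        ≤ 2 / Real.log T * (Λ n / Real.sqrt n) * 1 := mul_le_mul_of_nonneg_left this h0
      _ = _ := mul_one _
  · rw [abs_zero]


/-! ### The law -/

open Pool.Agent.Helper69.ES

theorem uiw_mono {g : TF} (hg : GoodG g) {F H : ℝ → ℝ → ℝ} (hF : ∀ x, Continuous (F x)) (hH : ∀ x, Continuous (H x))
    (hle : ∀ x t, |F x t| ≤ |H x t|) (h : UIW g H) : UIW g F := by
  obtain ⟨⟨C, hC, h1⟩, h2⟩ := h
  have key : ∀ x : ℝ, 0 < x → ∀ t, wt g.h x x t * |F x t| ≤ wt g.h x x t * |H x t| := fun x _ t =>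
    mul_le_mul_of_nonneg_left (hle x t) (hg.2.1 _)
  have iF : ∀ x : ℝ, 0 < x → Integrable (fun t => wt g.h x x t * |F x t|) := fun x hx =>
    Pool.Agent.Helper22.SI.wtI g x hx (hF x).abs
  have iH : ∀ x : ℝ, 0 < x → Integrable (fun t => wt g.h x x t * |H x t|) := fun x hx =>
    Pool.Agent.Helper22.SI.wtI g x hx (hH x).abs
  refine ⟨⟨C, hC, ?_⟩, fun ε hε => ?_⟩
  · filter_upwards [h1, eventually_gt_atTop (0 : ℝ)] with x h3 hx
    exact (integral_mono (iF x hx) (iH x hx) (key x hx)).trans h3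
  · obtain ⟨η, hη, h3⟩ := h2 ε hε
    refine ⟨η, hη, ?_⟩
    filter_upwards [h3, eventually_gt_atTop (0 : ℝ)] with x h4 hx B hB hBv
    exact (setIntegral_mono (iF x hx).integrableOn (iH x hx).integrableOn (key x hx)).trans (h4 B hB hBv)

theorem uiw_add {g : TF} {F H : ℝ → ℝ → ℝ} (hg : GoodG g) (hF : ∀ x, Continuous (F x)) (hH : ∀ x, Continuous (H x))
    (h : UIW g F) (h' : UIW g H) : UIW g (fun x t => |F x t| + |H x t|) := by
  obtain ⟨⟨C, hC, h1⟩, h2⟩ := h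
  obtain ⟨⟨C', hC', h1'⟩, h2'⟩ := h'
  have iF : ∀ x : ℝ, 0 < x → Integrable (fun t => wt g.h x x t * |F x t|) := fun x hx =>
    Pool.Agent.Helper22.SI.wtI g x hx (hF x).abs
  have iH : ∀ x : ℝ, 0 < x → Integrable (fun t => wt g.h x x t * |H x t|) := fun x hx =>
    Pool.Agent.Helper22.SI.wtI g x hx (hH x).abs
  have e : ∀ x t, wt g.h x x t * |(|F x t| + |H x t|)| = wt g.h x x t * |F x t| + wt g.h x x t * |H x t| := by
    intro x t
    rw [abs_of_nonneg (by positivity)]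
    ring
  refine ⟨⟨C + C', by linarith, ?_⟩, fun ε hε => ?_⟩
  · filter_upwards [h1, h1', eventually_gt_atTop (0 : ℝ)] with x h3 h3' hx
    simp only [e]
    rw [integral_add (iF x hx) (iH x hx)]
    linarith
  · obtain ⟨η, hη, h3⟩ := h2 (ε / 2) (by linarith)
    obtain ⟨η', hη', h3'⟩ := h2' (ε / 2) (by linarith)
    refine ⟨min η η', lt_min hη hη', ?_⟩
    filter_upwards [h3, h3', eventually_gt_atTop (0 : ℝ)] with x h4 h4' hx B hB hBv
    simp only [e]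
    rw [integral_add (iF x hx).integrableOn (iH x hx).integrableOn]
    have b1 := h4 B hB (hBv.trans (ENNReal.ofReal_le_ofReal (mul_le_mul_of_nonneg_right (min_le_left _ _) hx.le)))
    have b2 := h4' B hB (hBv.trans (ENNReal.ofReal_le_ofReal (mul_le_mul_of_nonneg_right (min_le_right _ _) hx.le)))
    linarith

theorem uiw_sum {g : TF} (hg : GoodG g) (s : Finset ℕ) (H : ℕ → ℝ → ℝ → ℝ) (hH : ∀ k x, Continuous (H k x))
    (h : ∀ k ∈ s, UIW g (H k)) : UIW g (fun x t => ∑ k ∈ s, |H k x t|) := by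
  classical
  induction s using Finset.induction_on with
  | empty =>
    refine ⟨⟨1, one_pos, ?_⟩, fun ε hε => ⟨1, one_pos, ?_⟩⟩
    · filter_upwards [eventually_gt_atTop (0 : ℝ)] with x hx
      simp only [Finset.sum_empty, abs_zero, mul_zero, integral_zero]
      linarith
    · filter_upwards [eventually_gt_atTop (0 : ℝ)] with x hx B _ _
      simp only [Finset.sum_empty, abs_zero, mul_zero, integral_zero]
      positivity
  | insert a s ha ih =>
    have h1 := ih fun k hk => h k (Finset.mem_insert_of_mem hk)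
    have h2 := h a (Finset.mem_insert_self _ _)
    have h3 := uiw_add hg (hH a) (fun x => continuous_finsetSum _ fun k _ => (hH k x).abs) h2 h1
    have e : (fun x t => ∑ k ∈ insert a s, |H k x t|) = fun x t => |H a x t| + abs (∑ k ∈ s, |H k x t|) := by
      funext x t
      rw [Finset.sum_insert ha, abs_of_nonneg (Finset.sum_nonneg fun k _ => abs_nonneg (H k x t))]
    rw [e]
    exact h3

/-- the coefficients of all classes -/
noncomputable def ccf (P : Par) (f : ℕ → TF) (T : ℝ) (i : ((ℕ × ℕ) × (ℕ × ℕ)) × ℕ) : ℝ :=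
  ∑ k ∈ KR P, ck P k (f k) T i

theorem FKpss_all (P : Par) (f : ℕ → TF) {T : ℝ} (hT : 1 < T) (t : ℝ) :
    ∑ k ∈ KR P, FK P k T t * pss (f k).h 2 T t = ∑ i ∈ IQ P T,
      ccf P f T i * Real.cos (t * (Real.log (aq i) - Real.log (bq i))) := by
  rw [Finset.sum_congr rfl fun k _ => FKpss P k (f k) hT t, Finset.sum_comm]
  refine Finset.sum_congr rfl fun i _ => ?_
  unfold ccf
  rw [Finset.sum_mul]
  rfl

theorem ccf_sum (P : Par) (f : ℕ → TF) {M T : ℝ} (hM : 0 < M) (hf : ∀ k ∈ KR P, ∀ y, |(f k).h y| ≤ M)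
    (hT : 1 < T) (hs : ∑ x ∈ IX P T, |cfn x| ≤ 4 * T ^ ((4199 : ℝ) / 8400)) :
    ∑ i ∈ IQ P T, |ccf P f T i| ≤ (KR P).card * (32 * M * (T ^ ((4199 : ℝ) / 4200) * T)) := by
  calc ∑ i ∈ IQ P T, |ccf P f T i| ≤ ∑ i ∈ IQ P T, ∑ k ∈ KR P, |ck P k (f k) T i| :=
        Finset.sum_le_sum fun i _ => Finset.abs_sum_le_sum_abs _ _
    _ = ∑ k ∈ KR P, ∑ i ∈ IQ P T, |ck P k (f k) T i| := Finset.sum_comm
    _ ≤ ∑ _k ∈ KR P, 32 * M * (T ^ ((4199 : ℝ) / 4200) * T) :=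
        Finset.sum_le_sum fun k hk => sum_abs_le P k hM (hf k hk) hT hs
    _ = _ := by rw [Finset.sum_const, nsmul_eq_mul]

theorem ccf_wq (P : Par) (f : ℕ → TF) {M T : ℝ} (hM : 0 < M) (hf : ∀ k ∈ KR P, ∀ y, |(f k).h y| ≤ M)
    (hT : 1 < T) (i : ((ℕ × ℕ) × (ℕ × ℕ)) × ℕ) : |ccf P f T i| ≤ (KR P).card * (2 * M) * wq T i := by
  have hL : 0 < Real.log T := Real.log_pos hT
  have h1 : ∀ k ∈ KR P, |ck P k (f k) T i| ≤ 2 * M * wq T i := by
    intro k hk
    unfold ck wq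
    rw [abs_mul]
    have h2 := e4e_abs P k T i.1.1 i.1.2
    have h3 : |cc71 (f k).h 2 T i.2| ≤ 2 * M * ((if i.2 = 1 then 1 else Λ i.2 / Real.log T) / Real.sqrt i.2) := by
      have h4 : 0 ≤ Λ i.2 / Real.sqrt i.2 := div_nonneg ArithmeticFunction.vonMangoldt_nonneg (Real.sqrt_nonneg _)
      unfold cc71
      rw [abs_mul, abs_mul, abs_of_nonneg h4, abs_of_pos (by positivity : 0 < 2 / Real.log T)]
      have h5 := hf k hk (yy T i.2 / 2)
      by_cases hi : i.2 = 1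
      · rw [hi]
        simp only [ArithmeticFunction.vonMangoldt_apply_one, zero_div, mul_zero, zero_mul, if_true]
        positivity
      · rw [if_neg hi]
        calc 2 / Real.log T * (Λ i.2 / Real.sqrt i.2) * |(f k).h (yy T i.2 / 2)|
            ≤ 2 / Real.log T * (Λ i.2 / Real.sqrt i.2) * M := mul_le_mul_of_nonneg_left h5 (by positivity)
          _ = 2 * M * (Λ i.2 / Real.log T / Real.sqrt i.2) := by ring
    calc |e4e P k T i.1.1 i.1.2| * |cc71 (f k).h 2 T i.2|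
        ≤ (|cfn i.1.1| * |cfn i.1.2|) * (2 * M * ((if i.2 = 1 then 1 else Λ i.2 / Real.log T) / Real.sqrt i.2)) :=
          mul_le_mul h2 h3 (abs_nonneg _) (by positivity)
      _ = _ := by ring
  calc |ccf P f T i| ≤ ∑ k ∈ KR P, |ck P k (f k) T i| := Finset.abs_sum_le_sum_abs _ _
    _ ≤ ∑ _k ∈ KR P, 2 * M * wq T i := Finset.sum_le_sum h1
    _ = _ := by rw [Finset.sum_const, nsmul_eq_mul]; ring

theorem ccf_diag (P : Par) (f : ℕ → TF) (T : ℝ) :
    (∑ i ∈ IQ P T, if aq i = bq i then ccf P f T i else 0) = ∑ k ∈ KR P, Dk P k (f k) T := by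
  unfold Dk
  rw [Finset.sum_comm]
  refine Finset.sum_congr rfl fun i _ => ?_
  have e : (aq i = bq i) = (ai i = bi i) := rfl
  by_cases h : ai i = bi i
  · rw [if_pos (e ▸ h)]
    simp only [if_pos h]
    rfl
  · rw [if_neg (fun h' => h (e ▸ h'))]
    simp only [if_neg h, Finset.sum_const_zero]
/-- the sum over the classes at scale `x^(1/2)` -/
noncomputable def SF (P : Par) (f : ℕ → TF) (x t : ℝ) : ℝ :=
  ∑ k ∈ KR P, FK P k (x ^ ((1 : ℝ) / 2)) t * pss (f k).h 2 (x ^ ((1 : ℝ) / 2)) t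

theorem tendsto_half : Tendsto (fun x : ℝ => x ^ ((1 : ℝ) / 2)) atTop atTop := tendsto_rpow_atTop (by norm_num)

theorem kernels_bdd (P : Par) (f : ℕ → TF) : ∃ M : ℝ, 0 < M ∧ ∀ k ∈ KR P, ∀ y, |(f k).h y| ≤ M := by
  choose m hm0 hm using fun k => tf_bdd71 (f k)
  refine ⟨1 + ∑ k ∈ KR P, m k, ?_, fun k hk y => ?_⟩
  · have : 0 ≤ ∑ k ∈ KR P, m k := Finset.sum_nonneg fun k _ => (hm0 k).le
    linarith
  · have h1 : m k ≤ ∑ k ∈ KR P, m k := Finset.single_le_sum (fun k _ => (hm0 k).le) hk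
    linarith [hm k y]

theorem sf_cont (P : Par) (f : ℕ → TF) (x : ℝ) : Continuous (SF P f x) := by
  unfold SF
  exact continuous_finsetSum _ fun k _ => (FK_cont P k _).mul (pss_cont _ _ _)

theorem sf_repr (P : Par) (f : ℕ → TF) : ∀ᶠ x : ℝ in atTop, ∀ t, SF P f x t = ∑ i ∈ IQ P (x ^ ((1 : ℝ) / 2)),
    ccf P f (x ^ ((1 : ℝ) / 2)) i * Real.cos (t * (Real.log (aq i) - Real.log (bq i))) := by
  filter_upwards [tendsto_half.eventually (eventually_gt_atTop 1)] with x hx t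
  exact FKpss_all P f hx t

theorem sf_abs (P : Par) (f : ℕ → TF) : ∃ C : ℝ, 0 < C ∧ ∀ᶠ x : ℝ in atTop,
    ∑ i ∈ IQ P (x ^ ((1 : ℝ) / 2)), |ccf P f (x ^ ((1 : ℝ) / 2)) i| ≤ C * x ^ ((8399 : ℝ) / 8400) := by
  obtain ⟨M, hM0, hMb⟩ := kernels_bdd P f
  refine ⟨(KR P).card * (32 * M) + 1, by positivity, ?_⟩
  filter_upwards [tendsto_half.eventually (eventually_gt_atTop 1), tendsto_half.eventually (sum_cf P),
    eventually_gt_atTop (0 : ℝ)] with x hx hs hx0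
  refine (ccf_sum P f hM0 hMb hx hs).trans ?_
  have hexp : (x ^ ((1 : ℝ) / 2)) ^ ((4199 : ℝ) / 4200) * x ^ ((1 : ℝ) / 2) = x ^ ((8399 : ℝ) / 8400) := by
    rw [← Real.rpow_mul hx0.le, ← Real.rpow_add hx0]
    norm_num
  rw [hexp]
  have : 0 ≤ x ^ ((8399 : ℝ) / 8400) := Real.rpow_nonneg hx0.le _
  linarith

theorem sf_crude (P : Par) (f : ℕ → TF) : Crude (SF P f) := by
  obtain ⟨C, hC, h⟩ := sf_abs P f
  refine ⟨8399 / 8400, C, hC, by norm_num, ?_⟩
  filter_upwards [sf_repr P f, h] with x h1 h2 t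
  rw [h1 t]
  refine ((Finset.abs_sum_le_sum_abs _ _).trans (Finset.sum_le_sum fun i _ => ?_)).trans h2
  rw [abs_mul]
  exact mul_le_of_le_one_right (abs_nonneg _) (Real.abs_cos_le_one _)

open Classical in
/-- the diagonal of `SF` at the small frequencies -/
theorem sf_diag (P : Par) (f : ℕ → TF) : ∃ W : ℝ, 0 < W ∧ ∀ᶠ x : ℝ in atTop, ∀ θ : ℝ,
    ∑ i ∈ IQ P (x ^ ((1 : ℝ) / 2)), ∑ j ∈ IQ P (x ^ ((1 : ℝ) / 2)),
      (if cnd θ x (aq i) (bq i) (aq j) (bq j) then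
        |ccf P f (x ^ ((1 : ℝ) / 2)) i| * |ccf P f (x ^ ((1 : ℝ) / 2)) j| else 0) ≤
    W * ∑ i ∈ IQ P (x ^ ((1 : ℝ) / 2)), ∑ j ∈ IQ P (x ^ ((1 : ℝ) / 2)),
      (if cnd (2 * θ) (x ^ ((1 : ℝ) / 2)) (aq i) (bq i) (aq j) (bq j) then
        wq (x ^ ((1 : ℝ) / 2)) i * wq (x ^ ((1 : ℝ) / 2)) j else 0) := by
  obtain ⟨M, hM0, hMb⟩ := kernels_bdd P f
  have hW0 : 0 ≤ (KR P).card * (2 * M) := by positivity
  obtain ⟨W, hW⟩ : ∃ W : ℝ, W = (KR P).card * (2 * M) := ⟨_, rfl⟩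
  rw [← hW] at hW0
  refine ⟨W ^ 2 + 1, by positivity, ?_⟩
  filter_upwards [tendsto_half.eventually (eventually_gt_atTop 1), eventually_gt_atTop (0 : ℝ)] with x hx hx0 θ
  have hcnd : ∀ a b a' b' : ℕ, cnd θ x a b a' b' ↔ cnd (2 * θ) (x ^ ((1 : ℝ) / 2)) a b a' b' := by
    intro a b a' b'
    unfold cnd
    rw [Real.log_rpow hx0]
    have : 2 * θ * (1 / 2 * Real.log x) = θ * Real.log x := by ring
    rw [this]
  rw [Finset.mul_sum]
  refine Finset.sum_le_sum fun i _ => ?_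
  rw [Finset.mul_sum]
  refine Finset.sum_le_sum fun j _ => ?_
  by_cases h : cnd (2 * θ) (x ^ ((1 : ℝ) / 2)) (aq i) (bq i) (aq j) (bq j)
  · rw [if_pos ((hcnd _ _ _ _).2 h), if_pos h]
    have b1 := ccf_wq P f hM0 hMb hx i
    have b2 := ccf_wq P f hM0 hMb hx j
    rw [← hW] at b1 b2
    have b3 := mul_le_mul b1 b2 (abs_nonneg _) ((abs_nonneg _).trans b1)
    have b4 : 0 ≤ wq (x ^ ((1 : ℝ) / 2)) i * wq (x ^ ((1 : ℝ) / 2)) j := by
      have w0 : ∀ i : I3, 0 ≤ wq (x ^ ((1 : ℝ) / 2)) i := by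
        intro i
        have hL : 0 < Real.log (x ^ ((1 : ℝ) / 2)) := Real.log_pos hx
        unfold wq
        have : 0 ≤ ArithmeticFunction.vonMangoldt i.2 / Real.log (x ^ ((1 : ℝ) / 2)) :=
          div_nonneg ArithmeticFunction.vonMangoldt_nonneg hL.le
        split_ifs <;> positivity
      exact mul_nonneg (w0 i) (w0 j)
    refine b3.trans ?_
    calc W * wq (x ^ ((1 : ℝ) / 2)) i * (W * wq (x ^ ((1 : ℝ) / 2)) j)
        = W ^ 2 * (wq (x ^ ((1 : ℝ) / 2)) i * wq (x ^ ((1 : ℝ) / 2)) j) := by ring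
      _ ≤ (W ^ 2 + 1) * (wq (x ^ ((1 : ℝ) / 2)) i * wq (x ^ ((1 : ℝ) / 2)) j) :=
          mul_le_mul_of_nonneg_right (by linarith) b4
  · rw [if_neg (fun h' => h ((hcnd _ _ _ _).1 h')), if_neg h, mul_zero]

theorem sf_rep (P : Par) (f : ℕ → TF)
    (corr : open Classical in ∀ (P : PQ.Par) {ε : ℝ}, 0 < ε → ∃ θ : ℝ, 0 < θ ∧ ∀ᶠ U : ℝ in atTop,
      ∑ i ∈ IQ P U, ∑ j ∈ IQ P U, (if cnd θ U (aq i) (bq i) (aq j) (bq j) then wq U i * wq U j else 0) ≤ ε) :
    Rep (SF P f) (fun x => IQ P (x ^ ((1 : ℝ) / 2))) (fun x => ccf P f (x ^ ((1 : ℝ) / 2))) aq bq := by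
  refine ⟨sf_repr P f, ?_, ?_, ?_⟩
  · filter_upwards [tendsto_half.eventually (eventually_gt_atTop 1), eventually_gt_atTop (0 : ℝ)] with x hx hx0 i hi
    obtain ⟨h1, h2, h3⟩ := min_cond P hx i hi
    refine ⟨h1, h2, h3.trans (le_of_eq ?_)⟩
    rw [← Real.rpow_mul hx0.le]
    norm_num
  · obtain ⟨C, hC, h⟩ := sf_abs P f
    filter_upwards [h, eventually_ge_atTop (max 1 C)] with x h1 h2
    have hx1 : 1 ≤ x := (le_max_left _ _).trans h2
    have hx2 : C ≤ x := (le_max_right _ _).trans h2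
    refine h1.trans ?_
    have h3 : x ^ ((8399 : ℝ) / 8400) ≤ x := by
      calc x ^ ((8399 : ℝ) / 8400) ≤ x ^ (1 : ℝ) := Real.rpow_le_rpow_of_exponent_le hx1 (by norm_num)
        _ = x := Real.rpow_one x
    calc C * x ^ ((8399 : ℝ) / 8400) ≤ x * x :=
          mul_le_mul hx2 h3 (Real.rpow_nonneg (by linarith) _) (by linarith)
      _ = x ^ (2 : ℝ) := by
        rw [Real.rpow_two]
        ring
  · intro ε hε
    obtain ⟨W, hW, h1⟩ := sf_diag P f
    obtain ⟨θ, hθ, h2⟩ := corr P (ε := ε / W) (by positivity)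
    refine ⟨θ / 2, by linarith, ?_⟩
    filter_upwards [h1, tendsto_half.eventually h2] with x h3 h4
    refine (h3 (θ / 2)).trans ?_
    rw [mul_div_cancel₀ θ (two_ne_zero)]
    calc _ ≤ W * (ε / W) := mul_le_mul_of_nonneg_left h4 hW.le
      _ = ε := by field_simp

/-- the law, from `law_of`, `corr`, `ui_FKW` -/
theorem law_FK_of
    (law_of : ∀ {ι : Type} {F : ℝ → ℝ → ℝ} {S : ℝ → Finset ι} {c : ℝ → ι → ℝ} {a b : ι → ℕ} (g : TF), GoodG g →
      Rep F S c a b → (∀ x, Continuous (F x)) → Crude F → UIW g F →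
      LLN F (fun x => ∑ i ∈ S x, if a i = b i then c x i else 0))
    (corr : open Classical in ∀ (P : PQ.Par) {ε : ℝ}, 0 < ε → ∃ θ : ℝ, 0 < θ ∧ ∀ᶠ U : ℝ in atTop,
      ∑ i ∈ IQ P U, ∑ j ∈ IQ P U, (if cnd θ U (aq i) (bq i) (aq j) (bq j) then wq U i * wq U j else 0) ≤ ε)
    (ui_FKW : ∀ (P : PQ.Par) (g : TF), GoodG g → ∀ {k : ℕ} {f : TF}, PQ.KF P k f →
      UIW g (fun x t => |PQ.FK P k (x ^ ((1 : ℝ) / 2)) t| * (1 + |pss f.h 2 (x ^ ((1 : ℝ) / 2)) t|)))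
    (P : PQ.Par) (f : ℕ → TF) (hf : ∀ k ∈ PQ.KR P, PQ.KF P k (f k)) :
    LLN (fun x t => ∑ k ∈ PQ.KR P, PQ.FK P k (x ^ ((1 : ℝ) / 2)) t * pss (f k).h 2 (x ^ ((1 : ℝ) / 2)) t)
      (fun x => - PQ.BT P (x ^ ((1 : ℝ) / 2))) := by
  classical
  obtain ⟨g, hg⟩ := exists_gg
  -- uniform integrability
  have hHc : ∀ k x, Continuous (fun t => |FK P k (x ^ ((1 : ℝ) / 2)) t| * (1 + |pss (f k).h 2 (x ^ ((1 : ℝ) / 2)) t|)) :=
    fun k x => (FK_cont P k _).abs.mul (continuous_const.add (pss_cont _ _ _).abs)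
  have hui : UIW g (SF P f) := by
    have h1 := uiw_sum hg (KR P) (fun k x t => |FK P k (x ^ ((1 : ℝ) / 2)) t| *
      (1 + |pss (f k).h 2 (x ^ ((1 : ℝ) / 2)) t|)) hHc (fun k hk => ui_FKW P g hg (hf k hk))
    have h2 : ∀ x : ℝ, Continuous (fun t => ∑ k ∈ KR P, abs (|FK P k (x ^ ((1 : ℝ) / 2)) t| *
      (1 + |pss (f k).h 2 (x ^ ((1 : ℝ) / 2)) t|))) := fun x => continuous_finsetSum _ fun k _ => (hHc k x).abs
    refine uiw_mono hg (sf_cont P f) h2 (fun x t => ?_) h1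
    unfold SF
    refine (Finset.abs_sum_le_sum_abs _ _).trans ?_
    rw [abs_of_nonneg (Finset.sum_nonneg fun k _ => abs_nonneg _)]
    refine Finset.sum_le_sum fun k _ => ?_
    rw [abs_mul, abs_mul, abs_abs, abs_of_nonneg (a := 1 + |pss (f k).h 2 (x ^ ((1 : ℝ) / 2)) t|) (by positivity)]
    exact mul_le_mul_of_nonneg_left (by linarith) (abs_nonneg _)
  have hlaw := law_of g hg (sf_rep P f corr) (sf_cont P f) (sf_crude P f) hui
  show LLN (SF P f) _
  intro ε hε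
  obtain ⟨K0, hK0⟩ := hlaw (ε / 2) (by linarith)
  refine ⟨max K0 1, fun K hK => ?_⟩
  have hK1 : 1 ≤ K := (le_max_right _ _).trans hK
  filter_upwards [hK0 K ((le_max_left _ _).trans hK), tendsto_half.eventually (diag_sum P f hf (ε := ε) hε),
    eventually_gt_atTop (1 : ℝ)] with x h1 h2 hx J hJ
  have h3 := h1 J hJ
  have h4 := InW_card hx (by linarith : 0 < K) hJ
  have hL : 0 < Real.log x := Real.log_pos hx
  have h0 : 0 ≤ (J.card : ℝ) * (K / Real.log x) := by positivity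
  simp only [ccf_diag] at h3
  have e : (∫ t in St K 0 x J, SF P f x t) - J.card * (K / Real.log x) * -BT P (x ^ ((1 : ℝ) / 2)) =
      ((∫ t in St K 0 x J, SF P f x t) - J.card * (K / Real.log x) * ∑ k ∈ KR P, Dk P k (f k) (x ^ ((1 : ℝ) / 2))) +
      J.card * (K / Real.log x) * ((∑ k ∈ KR P, Dk P k (f k) (x ^ ((1 : ℝ) / 2))) + BT P (x ^ ((1 : ℝ) / 2))) := by
    ring
  rw [e]
  have h5 : |(J.card : ℝ) * (K / Real.log x) *
      ((∑ k ∈ KR P, Dk P k (f k) (x ^ ((1 : ℝ) / 2))) + BT P (x ^ ((1 : ℝ) / 2)))| ≤ x / 4 * ε := by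
    rw [abs_mul, abs_of_nonneg h0]
    exact mul_le_mul h4 h2 (abs_nonneg _) (by linarith)
  refine (abs_add_le _ _).trans ?_
  have hx0 : 0 < x := by linarith
  have h6 : x / 4 * ε ≤ ε / 2 * x := by
    have : 0 < x * ε := by positivity
    linarith
  linarith

end Pool.Agent.Helper69.PQ.H18
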