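import Pool.Agent.Helper18.ES.LawFK
import Pool.Agent.Helper69.ES.DefsR
import Pool.Agent.Helper7.ES.N3

/-!
# ES: the law of large numbers for `|M|²` times the prime sums, with a rate
-/

open MeasureTheory Set Filter Topology
open Pool.Agent.Helper57.Zeta Pool.Agent.Helper57.PC Pool.Agent.Helper57.LH Pool.Agent.Helper78.SG
open Pool.Agent.Helper4.SH Pool.Agent.Helper69.PP
open Pool.Agent.Helper69.SM (wt gmvS wt_cont)

namespace Pool.Agent.Helper69.PQ.H18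

open Pool.Agent.Helper69.ES

theorem l2w_sum {g : TF} (hg : GoodG g) (s : Finset ℕ) {F : ℝ → ℝ → ℝ} (H : ℕ → ℝ → ℝ → ℝ)
    (hF : ∀ x, Continuous (F x)) (hH : ∀ k x, Continuous (H k x))
    (hle : ∀ x t, |F x t| ≤ ∑ k ∈ s, |H k x t|) (h : ∀ k ∈ s, L2W g (H k)) : L2W g F := by
  have h' : ∀ k, ∃ C : ℝ, 0 < C ∧ (k ∈ s → ∀ᶠ x : ℝ in atTop, ∫ t, wt g.h x x t * H k x t ^ 2 ≤ C * x) := by
    intro k
    by_cases hk : k ∈ s
    · obtain ⟨C, hC, h1⟩ := h k hk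
      exact ⟨C, hC, fun _ => h1⟩
    · exact ⟨1, one_pos, fun hk' => absurd hk' hk⟩
  choose C hC hCx using h'
  refine ⟨s.card * (∑ k ∈ s, C k) + 1, ?_, ?_⟩
  · have : 0 ≤ ∑ k ∈ s, C k := Finset.sum_nonneg fun k _ => (hC k).le
    positivity
  · have hall : ∀ᶠ x : ℝ in atTop, ∀ k ∈ s, ∫ t, wt g.h x x t * H k x t ^ 2 ≤ C k * x :=
      (Filter.eventually_all_finset s).2 fun k hk => hCx k hk
    filter_upwards [hall, eventually_gt_atTop (0 : ℝ)] with x h1 hx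
    have iF : Integrable (fun t => wt g.h x x t * F x t ^ 2) :=
      Pool.Agent.Helper22.SI.wtI g x hx ((hF x).pow 2)
    have iH : ∀ k ∈ s, Integrable (fun t => wt g.h x x t * H k x t ^ 2) := fun k _ =>
      Pool.Agent.Helper22.SI.wtI g x hx ((hH k x).pow 2)
    have key : ∀ t, wt g.h x x t * F x t ^ 2 ≤ s.card * ∑ k ∈ s, wt g.h x x t * H k x t ^ 2 := by
      intro t
      have hw : 0 ≤ wt g.h x x t := hg.2.1 _
      have h2 : F x t ^ 2 ≤ (∑ k ∈ s, |H k x t|) ^ 2 := by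
        rw [← sq_abs (F x t)]
        exact pow_le_pow_left₀ (abs_nonneg _) (hle x t) 2
      have h3 : (∑ k ∈ s, |H k x t|) ^ 2 ≤ s.card * ∑ k ∈ s, |H k x t| ^ 2 := sq_sum_le_card_mul_sum_sq
      simp only [sq_abs] at h3
      rw [← Finset.mul_sum]
      calc wt g.h x x t * F x t ^ 2 ≤ wt g.h x x t * (s.card * ∑ k ∈ s, H k x t ^ 2) :=
            mul_le_mul_of_nonneg_left (h2.trans h3) hw
        _ = _ := by ring
    calc ∫ t, wt g.h x x t * F x t ^ 2 ≤ ∫ t, (s.card : ℝ) * ∑ k ∈ s, wt g.h x x t * H k x t ^ 2 :=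
          integral_mono iF ((integrable_finsetSum s iH).const_mul _) key
      _ = s.card * ∑ k ∈ s, ∫ t, wt g.h x x t * H k x t ^ 2 := by
          rw [integral_const_mul, integral_finsetSum s iH]
      _ ≤ s.card * ∑ k ∈ s, C k * x := mul_le_mul_of_nonneg_left (Finset.sum_le_sum h1) (Nat.cast_nonneg _)
      _ = s.card * (∑ k ∈ s, C k) * x := by
          rw [← Finset.sum_mul]
          ring
      _ ≤ (s.card * (∑ k ∈ s, C k) + 1) * x := by linarith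

open Classical in
theorem corr_rate' (P : PQ.Par) : ∃ C : ℝ, 0 < C ∧ ∀ θ : ℝ, 0 < θ → ∀ᶠ U : ℝ in atTop,
    ∑ i ∈ IQ P U, ∑ j ∈ IQ P U, (if cnd θ U (aq i) (bq i) (aq j) (bq j) then wq U i * wq U j else 0) ≤ C * θ := by
  obtain ⟨C, hC, h⟩ := Pool.Agent.Helper7.ES.corr_core P
  refine ⟨8 * C, by positivity, fun θ hθ => ?_⟩
  filter_upwards [h, Real.tendsto_log_atTop.eventually_ge_atTop (1 / θ), eventually_gt_atTop (1:ℝ)] with U hU hUL hU1
  have hL : 0 < Real.log U := Real.log_pos hU1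
  refine (hU θ hθ.le).trans ?_
  have h3 : 1 / Real.log U ≤ θ := by
    rw [div_le_iff₀ hL]
    rw [div_le_iff₀ hθ] at hUL
    linarith
  have h4 : 5 * θ + 3 * (1 / Real.log U) ≤ 8 * θ := by linarith
  calc C * (5 * θ + 3 * (1 / Real.log U)) ≤ C * (8 * θ) := mul_le_mul_of_nonneg_left h4 hC.le
    _ = 8 * C * θ := by ring

/-- the law with a rate, from `law_rate`, `l2_FK` -/
theorem law_FKr_of
    (law_rate : ∀ {ι : Type} {F : ℝ → ℝ → ℝ} {S : ℝ → Finset ι} {c : ℝ → ι → ℝ} {a b : ι → ℕ} (g : TF), GoodG g →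
      Rep F S c a b → Dgr S c a b → (∀ x, Continuous (F x)) → Crude F → L2W g F →
      LLNr F (fun x => ∑ i ∈ S x, if a i = b i then c x i else 0))
    (l2_FK : ∀ (P : PQ.Par) (g : TF), GoodG g → ∀ {k : ℕ} {f : TF}, PQ.KF P k f →
      L2W g (fun x t => |PQ.FK P k (x ^ ((1 : ℝ) / 2)) t| * (1 + |pss f.h 2 (x ^ ((1 : ℝ) / 2)) t|)))
    (P : PQ.Par) (f : ℕ → TF) (hf : ∀ k ∈ PQ.KR P, PQ.KF P k (f k)) :
    LLNr (fun x t => ∑ k ∈ PQ.KR P, PQ.FK P k (x ^ ((1 : ℝ) / 2)) t * pss (f k).h 2 (x ^ ((1 : ℝ) / 2)) t)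
      (fun x => - PQ.BT P (x ^ ((1 : ℝ) / 2))) := by
  classical
  obtain ⟨g, hg⟩ := exists_gg
  -- square integrability
  have hHc : ∀ k x, Continuous (fun t => |FK P k (x ^ ((1 : ℝ) / 2)) t| * (1 + |pss (f k).h 2 (x ^ ((1 : ℝ) / 2)) t|)) :=
    fun k x => (FK_cont P k _).abs.mul (continuous_const.add (pss_cont _ _ _).abs)
  have hL2 : L2W g (SF P f) := by
    refine l2w_sum hg (KR P) (fun k x t => |FK P k (x ^ ((1 : ℝ) / 2)) t| *
      (1 + |pss (f k).h 2 (x ^ ((1 : ℝ) / 2)) t|)) (sf_cont P f) hHc (fun x t => ?_)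
      (fun k hk => l2_FK P g hg (hf k hk))
    unfold SF
    refine (Finset.abs_sum_le_sum_abs _ _).trans ?_
    refine Finset.sum_le_sum fun k _ => ?_
    rw [abs_mul, abs_mul, abs_abs, abs_of_nonneg (a := 1 + |pss (f k).h 2 (x ^ ((1 : ℝ) / 2)) t|) (by positivity)]
    exact mul_le_mul_of_nonneg_left (by linarith) (abs_nonneg _)
  have hdg : Dgr (fun x => IQ P (x ^ ((1 : ℝ) / 2))) (fun x => ccf P f (x ^ ((1 : ℝ) / 2))) aq bq := by
    obtain ⟨W, hW, h1⟩ := sf_diag P f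
    obtain ⟨C, hC, h2⟩ := corr_rate' P
    refine ⟨W * (C * 2), by positivity, fun θ hθ _ => ?_⟩
    filter_upwards [h1, tendsto_half.eventually (h2 (2 * θ) (by linarith))] with x h3 h4
    refine (h3 θ).trans ?_
    calc _ ≤ W * (C * (2 * θ)) := mul_le_mul_of_nonneg_left h4 hW.le
      _ = _ := by ring
  obtain ⟨C, κ, hC, hκ, hlaw⟩ := law_rate g hg (sf_rep P f Pool.Agent.Helper7.ES.corr) hdg (sf_cont P f) (sf_crude P f) hL2
  show LLNr (SF P f) _
  refine ⟨C + 1, κ, by linarith, hκ, fun K hK => ?_⟩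
  have hK0 : 0 < K := by linarith
  have hε : 0 < K ^ (-κ) := Real.rpow_pos_of_pos hK0 _
  filter_upwards [hlaw K hK, tendsto_half.eventually (diag_sum P f hf (ε := K ^ (-κ)) hε),
    eventually_gt_atTop (1 : ℝ)] with x h1 h2 hx J hJ
  have h3 := h1 J hJ
  have h4 := InW_card hx hK0 hJ
  have hL : 0 < Real.log x := Real.log_pos hx
  have h0 : 0 ≤ (J.card : ℝ) * (K / Real.log x) := by positivity
  simp only [ccf_diag] at h3
  have e : (∫ t in St K 0 x J, SF P f x t) - J.card * (K / Real.log x) * -BT P (x ^ ((1 : ℝ) / 2)) =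
      ((∫ t in St K 0 x J, SF P f x t) - J.card * (K / Real.log x) * ∑ k ∈ KR P, Dk P k (f k) (x ^ ((1 : ℝ) / 2))) +
      J.card * (K / Real.log x) * ((∑ k ∈ KR P, Dk P k (f k) (x ^ ((1 : ℝ) / 2))) + BT P (x ^ ((1 : ℝ) / 2))) := by
    ring
  rw [e]
  have h5 : |(J.card : ℝ) * (K / Real.log x) *
      ((∑ k ∈ KR P, Dk P k (f k) (x ^ ((1 : ℝ) / 2))) + BT P (x ^ ((1 : ℝ) / 2)))| ≤ x / 4 * K ^ (-κ) := by
    rw [abs_mul, abs_of_nonneg h0]
    exact mul_le_mul h4 h2 (abs_nonneg _) (by linarith)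
  refine (abs_add_le _ _).trans ?_
  have hx0 : 0 < x := by linarith
  have h6 : x / 4 * K ^ (-κ) ≤ K ^ (-κ) * x := by
    have : 0 < x * K ^ (-κ) := by positivity
    linarith
  calc _ ≤ C * K ^ (-κ) * x + x / 4 * K ^ (-κ) := add_le_add h3 h5
    _ ≤ C * K ^ (-κ) * x + K ^ (-κ) * x := by linarith
    _ = (C + 1) * K ^ (-κ) * x := by ring

end Pool.Agent.Helper69.PQ.H18
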