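import Pool.Agent.Helper18.ES.GAprops

open Real Filter Topology Set MeasureTheory Asymptotics
open Pool.Agent.Helper57.Zeta

namespace Pool.Agent.Helper18.ES

lemma Adm.abs {A : ℝ → ℝ} {D : ℝ} (h : Adm A D) : Adm (fun t => |A t|) D :=
  ⟨h.meas.abs, fun t ht => by simp [h.zero t ht], fun t ht => by simpa using h.bound t ht, h.nonneg⟩

lemma Adm.neg {A : ℝ → ℝ} {D : ℝ} (h : Adm A D) : Adm (fun t => -A t) D :=
  ⟨h.meas.neg, fun t ht => by simp [h.zero t ht], fun t ht => by simpa using h.bound t ht, h.nonneg⟩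

lemma Adm.pos {A : ℝ → ℝ} {D : ℝ} (h : Adm A D) : Adm (fun t => max (A t) 0) D := by
  refine ⟨h.meas.max measurable_const, fun t ht => by simp [h.zero t ht], fun t ht => ?_, h.nonneg⟩
  have h1 := h.bound t ht
  have h2 := h.nonneg
  rw [abs_of_nonneg (le_max_right _ _)]
  apply max_le ((le_abs_self _).trans h1)
  positivity

lemma GA_abs {A : ℝ → ℝ} {D : ℝ} (h : Adm A D) {x : ℝ} (hx : 0 < x) :
    GA (fun t => |A t|) x = GA (fun t => max (A t) 0) x + GA (fun t => max (-A t) 0) x := by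
  unfold GA
  rw [← integral_add (int_A h.pos hx) (int_A h.neg.pos hx)]
  apply setIntegral_congr_fun measurableSet_Ioi
  intro t _
  simp only
  have : |A t| = max (A t) 0 + max (-A t) 0 := by
    rcases le_total 0 (A t) with h1 | h1
    · rw [abs_of_nonneg h1, max_eq_left h1, max_eq_right (by linarith)]; ring
    · rw [abs_of_nonpos h1, max_eq_right h1, max_eq_left (by linarith)]; ring
  rw [this]; ring

lemma GA_sub {A : ℝ → ℝ} {D : ℝ} (h : Adm A D) {x : ℝ} (hx : 0 < x) :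
    GA A x = GA (fun t => max (A t) 0) x - GA (fun t => max (-A t) 0) x := by
  unfold GA
  rw [← integral_sub (int_A h.pos hx) (int_A h.neg.pos hx)]
  apply setIntegral_congr_fun measurableSet_Ioi
  intro t _
  simp only
  have : A t = max (A t) 0 - max (-A t) 0 := by
    rcases le_total 0 (A t) with h1 | h1
    · rw [max_eq_left h1, max_eq_right (by linarith)]; ring
    · rw [max_eq_right h1, max_eq_left (by linarith)]; ring
  nth_rewrite 1 [this]
  ring

lemma norm_detect_le {A : ℝ → ℝ} {D : ℝ} (h : Adm A D) {W : ℝ → ℂ} {C : ℝ}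
    (hC : ∀ u : ℝ, 0 < u → ‖K1 W u‖ ≤ C * K u) {x : ℝ} (hx : 0 < x) :
    ‖∫ t in Ioi (0 : ℝ), ((A t / t : ℝ) : ℂ) * K1 W (t / x)‖ ≤ C * GA (fun t => |A t|) x := by
  have hint : IntegrableOn (fun t => C * (|A t| / t * K (t / x))) (Ioi 0) :=
    (int_A h.abs hx).const_mul _
  have hb := norm_integral_le_of_norm_le (μ := volume.restrict (Ioi (0 : ℝ)))
    (f := fun t => ((A t / t : ℝ) : ℂ) * K1 W (t / x)) hint
    ((ae_restrict_iff' measurableSet_Ioi).mpr (Eventually.of_forall (fun t ht => by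
      have ht0 : (0 : ℝ) < t := ht
      have hK := hC (t / x) (by positivity)
      rw [norm_mul, Complex.norm_real, Real.norm_eq_abs, abs_div, abs_of_pos ht0]
      calc |A t| / t * ‖K1 W (t / x)‖ ≤ |A t| / t * (C * K (t / x)) :=
            mul_le_mul_of_nonneg_left hK (by positivity)
        _ = _ := by ring)))
  rw [integral_const_mul] at hb
  exact hb

/-- lower bound of a polynomial in `log x` by half its leading term -/
lemma poly_lower (k : ℕ) (M : ℕ → ℂ) (hM : M 0 ≠ 0) :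
    ∃ L₀ : ℝ, 1 ≤ L₀ ∧ ∀ L : ℝ, L₀ ≤ L → ‖M 0‖ / 2 * L ^ k ≤
      ‖∑ j ∈ Finset.range (k + 1), (((k.choose j : ℝ) * (-L) ^ (k - j) : ℝ) : ℂ) * M j‖ := by
  set E : ℝ := ∑ j ∈ Finset.range k, (k.choose (j + 1) : ℝ) * ‖M (j + 1)‖ with hE
  have hE0 : 0 ≤ E := Finset.sum_nonneg (fun j _ => by positivity)
  have hM0 := norm_pos_iff.mpr hM
  refine ⟨max 1 (2 * E / ‖M 0‖), le_max_left _ _, fun L hL => ?_⟩
  have hL1 : 1 ≤ L := (le_max_left _ _).trans hL
  have hL0 : 0 < L := by linarith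
  have hL2 : 2 * E / ‖M 0‖ ≤ L := (le_max_right _ _).trans hL
  rw [div_le_iff₀ hM0] at hL2
  rw [Finset.sum_range_succ']
  have h1 : ‖∑ j ∈ Finset.range k, (((k.choose (j + 1) : ℝ) * (-L) ^ (k - (j + 1)) : ℝ) : ℂ) * M (j + 1)‖ * L
      ≤ E * L ^ k := by
    have h2 := norm_sum_le (Finset.range k)
      (fun j => (((k.choose (j + 1) : ℝ) * (-L) ^ (k - (j + 1)) : ℝ) : ℂ) * M (j + 1))
    refine (mul_le_mul_of_nonneg_right h2 hL0.le).trans ?_
    rw [Finset.sum_mul, hE, Finset.sum_mul]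
    apply Finset.sum_le_sum
    intro j hj
    have hj' : j + 1 ≤ k := by
      have := Finset.mem_range.mp hj; omega
    rw [norm_mul, Complex.norm_real, Real.norm_eq_abs, abs_mul, abs_pow, abs_neg, abs_of_pos hL0,
      abs_of_nonneg (Nat.cast_nonneg _)]
    have h3 : L ^ (k - (j + 1)) * L ≤ L ^ k := by
      rw [← pow_succ]
      exact pow_le_pow_right₀ hL1 (by omega)
    calc (k.choose (j + 1) : ℝ) * L ^ (k - (j + 1)) * ‖M (j + 1)‖ * L
        = ((k.choose (j + 1) : ℝ) * ‖M (j + 1)‖) * (L ^ (k - (j + 1)) * L) := by ring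
      _ ≤ _ := mul_le_mul_of_nonneg_left h3 (by positivity)
  have h4 : ‖∑ j ∈ Finset.range k, (((k.choose (j + 1) : ℝ) * (-L) ^ (k - (j + 1)) : ℝ) : ℂ) * M (j + 1)‖
      ≤ ‖M 0‖ / 2 * L ^ k := by
    have h5 : E * L ^ k ≤ (‖M 0‖ / 2 * L ^ k) * L := by
      have : 0 ≤ L ^ k := by positivity
      nlinarith
    exact le_of_mul_le_mul_right (h1.trans h5) hL0
  have h6 : ‖(((k.choose 0 : ℝ) * (-L) ^ (k - 0) : ℝ) : ℂ) * M 0‖ = ‖M 0‖ * L ^ k := by
    rw [norm_mul, Complex.norm_real, Real.norm_eq_abs, abs_mul, abs_pow, abs_neg, abs_of_pos hL0]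
    simp [mul_comm]
  have h7 := norm_sub_norm_le ((((k.choose 0 : ℝ) * (-L) ^ (k - 0) : ℝ) : ℂ) * M 0)
    (-∑ j ∈ Finset.range k, (((k.choose (j + 1) : ℝ) * (-L) ^ (k - (j + 1)) : ℝ) : ℂ) * M (j + 1))
  rw [sub_neg_eq_add, norm_neg, h6] at h7
  rw [add_comm]
  linarith

theorem abstract_lower {A : ℝ → ℝ} {D B : ℝ} (h : Adm A D) (hB : ∀ z : ℝ, 0 < z → |GA A z| ≤ B)
    {ρ : ℂ} {k : ℕ} (hρ : ((k + 1 : ℕ) : ℕ∞) ≤ analyticOrderAt riemannZeta ρ)
    (hre : 1 / 2 ≤ ρ.re) (hre1 : ρ.re < 1)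
    (hne : mellin (fun z : ℝ => (GA A z : ℂ)) (-ρ) ≠ 0) :
    ∃ c : ℝ, 0 < c ∧ ∃ x₀ : ℝ, 1 ≤ x₀ ∧ ∀ x : ℝ, x₀ ≤ x →
      c * (x ^ ρ.re * log x ^ k) ≤ GA (fun t => max (A t) 0) x ∧
      c * (x ^ ρ.re * log x ^ k) ≤ GA (fun t => max (-A t) 0) x := by
  have hB0 : 0 ≤ B := (abs_nonneg _).trans (hB 1 one_pos)
  have hW := wt_Wk hρ hre hre1
  obtain ⟨C, hC, hK1⟩ := K1_le hW
  have hBz : ∀ z : ℝ, 1 ≤ z → |GA A z| ≤ B * z ^ (0 : ℝ) := by
    intro z hz
    rw [rpow_zero, mul_one]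
    exact hB z (by linarith)
  set f : ℝ → ℂ := fun z => (GA A z : ℂ) with hf
  have hcv : ∀ j : ℕ, MellinConvergent (fun t => ((log t ^ j : ℝ) : ℂ) * f t) (-ρ) := by
    intro j
    apply mellinConv_log j (show (0 : ℝ) < 1 / 4 by norm_num)
    · have := GA_conv h hBz (s := ρ - ((1 / 4 : ℝ) : ℂ)) (by simp; linarith) (by simp; linarith)
      rw [show -ρ + ((1 / 4 : ℝ) : ℂ) = -(ρ - ((1 / 4 : ℝ) : ℂ)) by ring]
      exact this
    · have := GA_conv h hBz (s := ρ + ((1 / 4 : ℝ) : ℂ)) (by simp; linarith) (by simp; linarith)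
      rw [show -ρ - ((1 / 4 : ℝ) : ℂ) = -(ρ + ((1 / 4 : ℝ) : ℂ)) by ring]
      exact this
  set M : ℕ → ℂ := fun j => mellin (fun t => ((log t ^ j : ℝ) : ℂ) * f t) (-ρ) with hM
  have hM0 : M 0 ≠ 0 := by
    simp only [hM, pow_zero, Complex.ofReal_one, one_mul]
    exact hne
  obtain ⟨L₀, hL₀, hpoly⟩ := poly_lower k M hM0
  set I1 : ℝ := ∫ y in Ioi (1 : ℝ), ‖Wk ρ k y‖ with hI1
  have hI10 : 0 ≤ I1 := integral_nonneg (fun _ => norm_nonneg _)
  -- lower bound for the detecting functional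
  have hlow : ∀ x : ℝ, exp L₀ ≤ x → x ^ ρ.re * (‖M 0‖ / 2 * log x ^ k) - B * I1 ≤
      ‖∫ t in Ioi (0 : ℝ), ((A t / t : ℝ) : ℂ) * K1 (Wk ρ k) (t / x)‖ := by
    intro x hx
    have hx0 : 0 < x := (exp_pos _).trans_le hx
    have hLx : L₀ ≤ log x := by
      rw [← log_exp L₀]; exact log_le_log (exp_pos _) hx
    rw [fubini h hW hx0]
    have hm := mellin_log_scaled (f := f) (s := -ρ) k (fun j _ => hcv j) hx0
    rw [neg_neg] at hm
    have hcx : IntegrableOn (fun y : ℝ => Wk ρ k y * (GA A (x * y) : ℂ)) (Ioi 0) := by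
      have h1 : MellinConvergent (fun t => f (x * t)) (-ρ + ((1 / 4 : ℝ) : ℂ)) := by
        apply (MellinConvergent.comp_mul_left (f := f) hx0).mpr
        have := GA_conv h hBz (s := ρ - ((1 / 4 : ℝ) : ℂ)) (by simp; linarith) (by simp; linarith)
        rw [show -ρ + ((1 / 4 : ℝ) : ℂ) = -(ρ - ((1 / 4 : ℝ) : ℂ)) by ring]
        exact this
      have h2 : MellinConvergent (fun t => f (x * t)) (-ρ - ((1 / 4 : ℝ) : ℂ)) := by
        apply (MellinConvergent.comp_mul_left (f := f) hx0).mpr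
        have := GA_conv h hBz (s := ρ + ((1 / 4 : ℝ) : ℂ)) (by simp; linarith) (by simp; linarith)
        rw [show -ρ - ((1 / 4 : ℝ) : ℂ) = -(ρ + ((1 / 4 : ℝ) : ℂ)) by ring]
        exact this
      have h3 := mellinConv_log k (show (0 : ℝ) < 1 / 4 by norm_num) h1 h2
      refine h3.congr (Eventually.of_forall (fun t => ?_))
      simp only [Wk, hf, smul_eq_mul]
      ring
    have hmI : (∫ y in Ioi (0 : ℝ), Wk ρ k y * (GA A (x * y) : ℂ)) =
        (x : ℂ) ^ ρ * ∑ j ∈ Finset.range (k + 1),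
        (((k.choose j : ℝ) * (-log x) ^ (k - j) : ℝ) : ℂ) * M j := by
      rw [← hm]
      unfold mellin
      apply integral_congr_ae
      refine Eventually.of_forall (fun t => ?_)
      simp only [Wk, hf, smul_eq_mul]
      ring
    have hdec : (∫ y in Ioi (0 : ℝ), Wk ρ k y * (GA A (x * y) : ℂ)) =
        (∫ y in Ioo (0 : ℝ) 1, Wk ρ k y * (GA A (x * y) : ℂ)) +
        ∫ y in Ici (1 : ℝ), Wk ρ k y * (GA A (x * y) : ℂ) := by
      rw [← setIntegral_union _ measurableSet_Ici]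
      · congr 2
        rw [Ioo_union_Ici_eq_Ioi one_pos]
      · exact hcx.mono_set (Ioo_subset_Ioi_self)
      · exact hcx.mono_set (fun x (hx : (1 : ℝ) ≤ x) => (lt_of_lt_of_le one_pos hx : (0 : ℝ) < x))
      · rw [Set.disjoint_left]
        intro x hx hx'
        exact absurd hx.2 (not_lt.mpr hx')
    have hbound : ∀ y ∈ Ioi (1 : ℝ), ‖Wk ρ k y * (GA A (x * y) : ℂ)‖ ≤ B * ‖Wk ρ k y‖ := by
      intro y hy
      have hy1 : (1 : ℝ) < y := hy
      have hy0 : 0 < y := by linarith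
      rw [norm_mul, Complex.norm_real, Real.norm_eq_abs, mul_comm]
      exact mul_le_mul_of_nonneg_right (hB (x * y) (by positivity)) (norm_nonneg _)
    have h2 := norm_integral_le_of_norm_le ((int_Wk_top k hre).const_mul B)
      ((ae_restrict_iff' measurableSet_Ioi).mpr (Eventually.of_forall hbound))
    rw [integral_const_mul] at h2
    rw [hmI, integral_Ici_eq_integral_Ioi] at hdec
    have h4 : (∫ y in Ioo (0 : ℝ) 1, Wk ρ k y * (GA A (x * y) : ℂ)) =
        (x : ℂ) ^ ρ * (∑ j ∈ Finset.range (k + 1),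
        (((k.choose j : ℝ) * (-log x) ^ (k - j) : ℝ) : ℂ) * M j) -
        ∫ y in Ioi (1 : ℝ), Wk ρ k y * (GA A (x * y) : ℂ) := by
      rw [hdec]; ring
    rw [h4]
    have h5 : ‖(x : ℂ) ^ ρ * (∑ j ∈ Finset.range (k + 1),
        (((k.choose j : ℝ) * (-log x) ^ (k - j) : ℝ) : ℂ) * M j)‖ = x ^ ρ.re *
        ‖∑ j ∈ Finset.range (k + 1), (((k.choose j : ℝ) * (-log x) ^ (k - j) : ℝ) : ℂ) * M j‖ := by
      rw [norm_mul, Complex.norm_cpow_eq_rpow_re_of_pos hx0]
    have h7 := norm_sub_norm_le ((x : ℂ) ^ ρ * (∑ j ∈ Finset.range (k + 1),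
        (((k.choose j : ℝ) * (-log x) ^ (k - j) : ℝ) : ℂ) * M j))
      (∫ y in Ioi (1 : ℝ), Wk ρ k y * (GA A (x * y) : ℂ))
    rw [h5] at h7
    have h8 := mul_le_mul_of_nonneg_left (hpoly (log x) hLx) (rpow_pos_of_pos hx0 ρ.re).le
    linarith
  set a : ℝ := ‖M 0‖ / 2 / C with ha
  have ha0 : 0 < a := by
    have := norm_pos_iff.mpr hM0
    positivity
  set b : ℝ := B * I1 / C + B with hb
  have hb0 : 0 ≤ b := by positivity
  refine ⟨a / 4, by positivity, max (max 1 ((2 * b / a) ^ 2)) (exp L₀),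
    (le_max_left _ _).trans (le_max_left _ _), fun x hx => ?_⟩
  have hx1 : 1 ≤ x := ((le_max_left _ _).trans (le_max_left _ _)).trans hx
  have hx0 : 0 < x := by linarith
  have hx2 : (2 * b / a) ^ 2 ≤ x := ((le_max_right _ _).trans (le_max_left _ _)).trans hx
  have hx3 : exp L₀ ≤ x := (le_max_right _ _).trans hx
  have hLx : L₀ ≤ log x := by
    rw [← log_exp L₀]; exact log_le_log (exp_pos _) hx3
  have hsx : 2 * b / a ≤ √x := Real.le_sqrt_of_sq_le hx2
  have hsx2 : √x ≤ x ^ ρ.re * log x ^ k := by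
    have h1 : √x ≤ x ^ ρ.re := by
      rw [sqrt_eq_rpow]
      exact rpow_le_rpow_of_exponent_le hx1 hre
    have h2 : 1 ≤ log x ^ k := one_le_pow₀ (by linarith)
    have h3 := (rpow_pos_of_pos hx0 ρ.re).le
    nlinarith
  set G : ℝ := x ^ ρ.re * log x ^ k with hG
  have hsx' : 2 * b ≤ a * G := by
    rw [div_le_iff₀ ha0] at hsx
    nlinarith
  have h1 := hlow x hx3
  have h2 := norm_detect_le h hK1 hx0
  have h3 := h1.trans h2
  have h4 := GA_abs h hx0
  have h5 := GA_sub h hx0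
  have h6 := hB x hx0
  have h7 := abs_le.mp h6
  have h8 : a * G - B * I1 / C ≤ GA (fun t => |A t|) x := by
    have h9 : (1 / C) * (x ^ ρ.re * (‖M 0‖ / 2 * log x ^ k) - B * I1) ≤
        (1 / C) * (C * GA (fun t => |A t|) x) :=
      mul_le_mul_of_nonneg_left h3 (by positivity)
    have h10 : (1 / C) * (C * GA (fun t => |A t|) x) = GA (fun t => |A t|) x := by
      field_simp
    rw [h10] at h9
    refine le_trans (le_of_eq ?_) h9
    rw [ha, hG]; field_simp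
  constructor
  · linarith [h7.1, h7.2]
  · linarith [h7.1, h7.2]

end Pool.Agent.Helper18.ES
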