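import Pool.Agent.Helper18.ES.Bounds
import Pool.Agent.Helper57.Zeta.Xi

open Real Filter Topology Set MeasureTheory Asymptotics
open Pool.Agent.Helper57.Zeta

namespace Pool.Agent.Helper18.ES

/-- the Gaussian -/
noncomputable def gs (u : ℝ) : ℂ := Complex.exp (-(π * (u : ℂ) ^ 2))

lemma gs_eq (u : ℝ) : gs u = ((exp (-(π * u ^ 2)) : ℝ) : ℂ) := by
  unfold gs; push_cast; rfl

lemma gs_convergent_and {s : ℂ} (hs : 0 < s.re) :
    MellinConvergent gs s ∧ mellin gs s = (1 / 2) * Complex.Gammaℝ s := by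
  have hs2 : 0 < (s / 2).re := by
    have : (s / 2).re = s.re / 2 := by simp
    rw [this]; linarith
  have hconv : MellinConvergent (fun t : ℝ => Complex.exp (-(π * (t : ℂ)))) (s / 2) := by
    have hd : (1:ℝ) ≠ 0 := one_ne_zero
    apply mellinConvergent_of_isBigO_rpow_exp (a := π) (b := 0) pi_pos
    · apply ContinuousOn.locallyIntegrableOn _ measurableSet_Ioi
      fun_prop
    · apply IsBigO.of_bound 1
      filter_upwards with t
      rw [Complex.norm_exp, Real.norm_eq_abs, abs_of_pos (exp_pos _)]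
      simp
    · apply IsBigO.of_bound 1
      filter_upwards [self_mem_nhdsWithin] with t ht
      have ht' : (0 : ℝ) < t := ht
      rw [Complex.norm_exp]
      simp only [Complex.neg_re, Complex.mul_re, Complex.ofReal_re, Complex.ofReal_im, mul_zero,
        sub_zero, neg_zero, rpow_zero, norm_one, mul_one]
      rw [exp_le_one_iff]
      have := pi_pos
      nlinarith
    · exact hs2
  have hmel : mellin (fun t : ℝ => Complex.exp (-(π * (t : ℂ)))) (s / 2)
      = (1 / (π : ℂ)) ^ (s / 2) * Complex.Gamma (s / 2) := by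
    unfold mellin
    simp only [smul_eq_mul]
    rw [Complex.integral_cpow_mul_exp_neg_mul_Ioi hs2 (by simpa using pi_pos)]
  have hg : gs = fun t : ℝ => (fun t : ℝ => Complex.exp (-(π * (t : ℂ)))) (t ^ (2 : ℝ)) := by
    funext t
    unfold gs
    simp
  constructor
  · rw [hg]
    rw [MellinConvergent.comp_rpow (f := fun t : ℝ => Complex.exp (-(π * (t : ℂ)))) two_ne_zero]
    simpa using hconv
  · rw [hg, mellin_comp_rpow (fun t : ℝ => Complex.exp (-(π * (t : ℂ))))]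
    have : (s / ((2 : ℝ) : ℂ)) = s / 2 := by norm_num
    rw [this, hmel, Complex.Gammaℝ_def]
    have hpi : (1 / (π : ℂ)) ^ (s / 2) = (π : ℂ) ^ (-s / 2) := by
      rw [one_div, Complex.inv_cpow, ← Complex.cpow_neg]
      · congr 1; ring
      · rw [Complex.arg_ofReal_of_nonneg pi_pos.le]
        exact pi_pos.ne
    rw [hpi]
    simp

lemma pow_gs (k : ℕ) {s : ℂ} (hs : 0 < s.re) :
    MellinConvergent (fun u : ℝ => (u : ℂ) ^ k * gs u) s ∧
      mellin (fun u : ℝ => (u : ℂ) ^ k * gs u) s = (1 / 2) * Complex.Gammaℝ (s + k) := by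
  have h1 : (fun u : ℝ => (u : ℂ) ^ k * gs u) = fun t : ℝ => (t : ℂ) ^ (k : ℂ) • gs t := by
    funext t; rw [Complex.cpow_natCast, smul_eq_mul]
  have hsk : 0 < (s + k).re := by
    simp only [Complex.add_re, Complex.natCast_re]; positivity
  rw [h1]
  constructor
  · rw [MellinConvergent.cpow_smul]
    exact (gs_convergent_and hsk).1
  · rw [mellin_cpow_smul]
    exact (gs_convergent_and hsk).2

lemma mellin_kap {s : ℂ} (hs : 0 < s.re) :
    MellinConvergent (fun u : ℝ => (kap u : ℂ)) s ∧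
    mellin (fun u : ℝ => (kap u : ℂ)) s = (1 / 2) * (s * (s - 1)) * Complex.Gammaℝ s := by
  have h4 := pow_gs 4 hs
  have h2 := pow_gs 2 hs
  have hk : (fun u : ℝ => (kap u : ℂ)) = fun u : ℝ =>
      (4 * (π : ℂ) ^ 2) • ((u : ℂ) ^ 4 * gs u) - (6 * (π : ℂ)) • ((u : ℂ) ^ 2 * gs u) := by
    funext u
    unfold kap
    rw [gs_eq]
    simp only [smul_eq_mul]
    push_cast
    ring
  have hs0 : s ≠ 0 := by rintro rfl; simp at hs
  have hs2 : s + 2 ≠ 0 := by
    intro h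
    have : (s + 2).re = 0 := by rw [h]; simp
    simp at this; linarith
  have hh := hasMellin_sub (h4.1.const_smul (4 * (π : ℂ) ^ 2)) (h2.1.const_smul (6 * (π : ℂ)))
  rw [hk]
  refine ⟨hh.1, ?_⟩
  rw [hh.2, mellin_const_smul, mellin_const_smul, h4.2, h2.2]
  have e2 : Complex.Gammaℝ (s + (2 : ℕ)) = Complex.Gammaℝ s * s / 2 / π := by
    have := Complex.Gammaℝ_add_two hs0
    simpa using this
  have e4 : Complex.Gammaℝ (s + (4 : ℕ)) = Complex.Gammaℝ s * s / 2 / π * (s + 2) / 2 / π := by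
    have h := Complex.Gammaℝ_add_two hs2
    rw [Complex.Gammaℝ_add_two hs0] at h
    rw [← h]
    congr 1
    push_cast; ring
  rw [e2, e4]
  have hpi : (π : ℂ) ≠ 0 := by exact_mod_cast pi_pos.ne'
  simp only [smul_eq_mul]
  field_simp
  ring

/-- `Φ(u) = (2πu²-1)exp(-πu²)`. -/
noncomputable def Phi (u : ℝ) : ℝ := (2 * π * u ^ 2 - 1) * exp (-(π * u ^ 2))

lemma mellin_Phi {s : ℂ} (hs : 0 < s.re) :
    MellinConvergent (fun u : ℝ => (Phi u : ℂ)) s ∧
    mellin (fun u : ℝ => (Phi u : ℂ)) s = (1 / 2) * (s - 1) * Complex.Gammaℝ s := by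
  have h2 := pow_gs 2 hs
  have h0 := gs_convergent_and hs
  have hk : (fun u : ℝ => (Phi u : ℂ)) = fun u : ℝ =>
      (2 * (π : ℂ)) • ((u : ℂ) ^ 2 * gs u) - gs u := by
    funext u
    unfold Phi
    rw [gs_eq]
    simp only [smul_eq_mul]
    push_cast
    ring
  have hs0 : s ≠ 0 := by rintro rfl; simp at hs
  have hh := hasMellin_sub (h2.1.const_smul (2 * (π : ℂ))) h0.1
  rw [hk]
  refine ⟨hh.1, ?_⟩
  rw [hh.2, mellin_const_smul, h0.2, h2.2]
  have e2 : Complex.Gammaℝ (s + (2 : ℕ)) = Complex.Gammaℝ s * s / 2 / π := by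
    have := Complex.Gammaℝ_add_two hs0
    simpa using this
  rw [e2]
  have hpi : (π : ℂ) ≠ 0 := by exact_mod_cast pi_pos.ne'
  simp only [smul_eq_mul]
  field_simp

lemma K_isBigO_top (a : ℝ) : (fun u : ℝ => (K u : ℂ)) =O[atTop] (· ^ (-a)) := by
  obtain ⟨N, hN⟩ := exists_nat_gt |a|
  obtain ⟨C, hC, h⟩ := K_le_pow N
  apply IsBigO.of_bound C
  filter_upwards [eventually_ge_atTop (1 : ℝ)] with u hu
  have hu0 : 0 < u := by linarith
  rw [Complex.norm_real, Real.norm_eq_abs, abs_of_pos (K_pos hu0), Real.norm_eq_abs,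
    abs_of_pos (rpow_pos_of_pos hu0 _)]
  have hv : vv u = u := by
    rcases vv_eq_or hu0 with ⟨_, h'⟩ | ⟨h1, h'⟩
    · exact h'
    · have : u = 1 := le_antisymm h1 hu
      rw [h', this]; norm_num
  have h1 := h u hu0
  rw [hv] at h1
  have h2 : u ^ a ≤ u ^ N := by
    rw [← rpow_natCast]
    apply rpow_le_rpow_of_exponent_le hu
    exact (le_abs_self a).trans hN.le
  have h3 : u ^ a * K u ≤ C := (mul_le_mul_of_nonneg_right h2 (K_pos hu0).le).trans h1
  rw [rpow_neg hu0.le, ← div_eq_mul_inv, le_div_iff₀ (rpow_pos_of_pos hu0 _)]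
  linarith

lemma K_isBigO_zero (b : ℝ) : (fun u : ℝ => (K u : ℂ)) =O[𝓝[>] 0] (· ^ (-b)) := by
  obtain ⟨N, hN⟩ := exists_nat_gt |b|
  obtain ⟨C, hC, h⟩ := K_le_pow N
  apply IsBigO.of_bound C
  have h01 : Ioc (0 : ℝ) 1 ∈ 𝓝[>] (0 : ℝ) := Ioc_mem_nhdsGT one_pos
  filter_upwards [h01] with u hu
  have hu0 : 0 < u := hu.1
  rw [Complex.norm_real, Real.norm_eq_abs, abs_of_pos (K_pos hu0), Real.norm_eq_abs,
    abs_of_pos (rpow_pos_of_pos hu0 _)]
  have hv : vv u = 1 / u := by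
    rcases vv_eq_or hu0 with ⟨h1, h'⟩ | ⟨_, h'⟩
    · have : u = 1 := le_antisymm hu.2 h1
      rw [h', this]; norm_num
    · exact h'
  have h1 := h u hu0
  rw [hv] at h1
  have h2 : u ^ b ≤ (1 / u) ^ N := by
    rw [one_div, inv_pow, ← rpow_natCast, ← rpow_neg hu0.le]
    apply rpow_le_rpow_of_exponent_ge hu0 hu.2
    have := neg_abs_le b
    linarith
  have h3 : u ^ b * K u ≤ C := (mul_le_mul_of_nonneg_right h2 (K_pos hu0).le).trans h1
  rw [rpow_neg hu0.le, ← div_eq_mul_inv, le_div_iff₀ (rpow_pos_of_pos hu0 _)]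
  linarith

lemma locInt_K : LocallyIntegrableOn (fun u : ℝ => (K u : ℂ)) (Ioi 0) :=
  ContinuousOn.locallyIntegrableOn (Complex.continuous_ofReal.comp_continuousOn continuousOn_K)
    measurableSet_Ioi

lemma mellinConv_K (s : ℂ) : MellinConvergent (fun u : ℝ => (K u : ℂ)) s :=
  mellinConvergent_of_isBigO_rpow locInt_K (K_isBigO_top (s.re + 1)) (by linarith)
    (K_isBigO_zero (s.re - 1)) (by linarith)

lemma differentiable_mellin_K : Differentiable ℂ (mellin (fun u : ℝ => (K u : ℂ))) := fun s =>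
  mellin_differentiableAt_of_isBigO_rpow locInt_K (K_isBigO_top (s.re + 1)) (by linarith)
    (K_isBigO_zero (s.re - 1)) (by linarith)

lemma mellin_K_of_one_lt {s : ℂ} (hs : 1 < s.re) :
    mellin (fun u : ℝ => (K u : ℂ)) s = (1 / 2) * xi s := by
  have hs0 : 0 < s.re := by linarith
  obtain ⟨hc, hm⟩ := mellin_kap hs0
  have hterm : ∀ m : ℕ+, MellinConvergent (fun u : ℝ => (kap ((m : ℝ) * u) : ℂ)) s := fun m =>
    (MellinConvergent.comp_mul_left (f := fun u : ℝ => (kap u : ℂ)) (a := (m : ℝ))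
      (by exact_mod_cast m.pos)).mpr hc
  have hval : ∀ m : ℕ+, mellin (fun u : ℝ => (kap ((m : ℝ) * u) : ℂ)) s =
      (1 / ((m : ℕ) : ℂ) ^ s) * mellin (fun u : ℝ => (kap u : ℂ)) s := by
    intro m
    rw [mellin_comp_mul_left (fun u : ℝ => (kap u : ℂ)) s (a := (m : ℝ)) (by exact_mod_cast m.pos)]
    rw [smul_eq_mul, Complex.cpow_neg, one_div]
    norm_num
  -- interchange
  have hsum : Summable fun m : ℕ+ => ∫ u in Ioi (0 : ℝ),
      ‖((u : ℂ) ^ (s - 1) • ((kap ((m : ℝ) * u) : ℝ) : ℂ))‖ := by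
    have hn : ∀ m : ℕ+, (∫ u in Ioi (0 : ℝ), ‖((u : ℂ) ^ (s - 1) • ((kap ((m : ℝ) * u) : ℝ) : ℂ))‖)
        = (1 / ((m : ℕ) : ℝ) ^ s.re) *
          ∫ u in Ioi (0 : ℝ), ‖((u : ℂ) ^ (s - 1) • ((kap u : ℝ) : ℂ))‖ := by
      intro m
      have hm0 : (0 : ℝ) < (m : ℝ) := by exact_mod_cast m.pos
      have h1 := integral_comp_mul_left_Ioi
        (fun u : ℝ => ‖((u : ℂ) ^ (s - 1) • ((kap u : ℝ) : ℂ))‖) 0 hm0
      rw [mul_zero] at h1
      have h2 : ∀ u ∈ Ioi (0 : ℝ), ‖((u : ℂ) ^ (s - 1) • ((kap ((m : ℝ) * u) : ℝ) : ℂ))‖ =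
          (1 / (m : ℝ) ^ (s.re - 1)) *
            ‖((((m : ℝ) * u : ℝ) : ℂ) ^ (s - 1) • ((kap ((m : ℝ) * u) : ℝ) : ℂ))‖ := by
        intro u hu
        have hu0 : (0 : ℝ) < u := hu
        rw [norm_smul, norm_smul, Complex.norm_cpow_eq_rpow_re_of_pos hu0,
          Complex.norm_cpow_eq_rpow_re_of_pos (by positivity : (0 : ℝ) < (m : ℝ) * u),
          mul_rpow hm0.le hu0.le]
        have : (m : ℝ) ^ (s - 1).re = (m : ℝ) ^ (s.re - 1) := by simp
        rw [this]
        have h3 : (m : ℝ) ^ (s.re - 1) ≠ 0 := (rpow_pos_of_pos hm0 _).ne'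
        field_simp
      rw [setIntegral_congr_fun measurableSet_Ioi h2, integral_const_mul, h1, smul_eq_mul,
        ← mul_assoc]
      congr 1
      rw [rpow_sub hm0, rpow_one]
      have h3 : (m : ℝ) ^ s.re ≠ 0 := (rpow_pos_of_pos hm0 _).ne'
      field_simp
    simp_rw [hn]
    apply Summable.mul_right
    have := (Real.summable_one_div_nat_rpow.mpr hs).comp_injective PNat.coe_injective
    exact this
  have hS := hasSum_integral_of_summable_integral_norm (μ := volume.restrict (Ioi (0 : ℝ)))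
    (F := fun (m : ℕ+) (u : ℝ) => (u : ℂ) ^ (s - 1) • ((kap ((m : ℝ) * u) : ℝ) : ℂ)) hterm hsum
  have e1 : (∫ u in Ioi (0 : ℝ), ∑' m : ℕ+, (u : ℂ) ^ (s - 1) • ((kap ((m : ℝ) * u) : ℝ) : ℂ))
      = mellin (fun u : ℝ => (K u : ℂ)) s := by
    unfold mellin
    apply setIntegral_congr_fun measurableSet_Ioi
    intro u hu
    simp only
    rw [tsum_const_smul'' ((u : ℂ) ^ (s - 1))]
    congr 1
    rw [← Complex.ofReal_tsum]
    rfl
  rw [e1] at hS
  have hS2 : HasSum (fun m : ℕ+ => (1 / ((m : ℕ) : ℂ) ^ s) * mellin (fun u : ℝ => (kap u : ℂ)) s)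
      (mellin (fun u : ℝ => (K u : ℂ)) s) := by
    refine hS.congr_fun ?_ 
    intro m
    exact (hval m).symm
  have hz : (∑' m : ℕ+, (1 / ((m : ℕ) : ℂ) ^ s)) = riemannZeta s := by
    rw [zeta_eq_tsum_one_div_nat_add_one_cpow hs]
    rw [tsum_pnat_eq_tsum_succ (f := fun n : ℕ => 1 / ((n : ℕ) : ℂ) ^ s)]
    simp
  have h1 := hS2.tsum_eq
  rw [tsum_mul_right, hz, hm] at h1
  have hs1 : s ≠ 1 := by rintro rfl; simp at hs
  rw [← h1, xi_eq_zeta hs0 hs1]
  ring

theorem mellin_K (s : ℂ) : mellin (fun u : ℝ => (K u : ℂ)) s = (1 / 2) * xi s := by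
  have h1 : AnalyticOnNhd ℂ (mellin (fun u : ℝ => (K u : ℂ))) univ :=
    differentiable_mellin_K.differentiableOn.analyticOnNhd isOpen_univ
  have h2 : AnalyticOnNhd ℂ (fun s => (1 / 2 : ℂ) * xi s) univ :=
    (differentiable_xi.const_mul _).differentiableOn.analyticOnNhd isOpen_univ
  have h3 : (mellin (fun u : ℝ => (K u : ℂ))) =ᶠ[𝓝 (2 : ℂ)] fun s => (1 / 2 : ℂ) * xi s := by
    have : {z : ℂ | 1 < z.re} ∈ 𝓝 (2 : ℂ) :=
      (isOpen_lt continuous_const Complex.continuous_re).mem_nhds (by norm_num)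
    filter_upwards [this] with z hz
    exact mellin_K_of_one_lt hz
  have := h1.eq_of_eventuallyEq h2 h3
  exact congrFun this s

end Pool.Agent.Helper18.ES
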