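import Pool.Agent.Helper18.ES.Sums
import Pool.Agent.Helper57.Zeta.Rvm

open Real Filter Topology Set MeasureTheory Asymptotics
open Pool.Agent.Helper57.Zeta Pool.Agent.Helper57.PC

namespace Pool.Agent.Helper18.ES

lemma exists_zero : ∃ ρ : ℂ, xi ρ = 0 ∧ 1 / 2 ≤ ρ.re ∧ ρ.re < 1 := by
  obtain ⟨T₀, hT⟩ := NT_lower (1 / 2) (by norm_num)
  have h1 := hT (max T₀ 3) (le_max_left _ _)
  set T := max T₀ 3 with hTdef
  have hT3 : (3 : ℝ) ≤ T := le_max_right _ _
  have hpos : 0 < (1 - 1 / 2) * (T * Real.log T / (2 * Real.pi)) := by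
    have := Real.log_pos (show (1 : ℝ) < T by linarith)
    have := Real.pi_pos
    positivity
  have h2 : 0 < NT T := lt_of_lt_of_le hpos h1
  have h3 : (Zf T).Nonempty := by
    by_contra hne
    rw [Finset.not_nonempty_iff_eq_empty] at hne
    unfold NT at h2
    rw [hne] at h2
    simp at h2
  obtain ⟨ρ, hρ⟩ := h3
  have h4 := (mem_Zf.mp hρ).1
  have h5 : xi ρ = 0 := isNontrivialZero_iff.mp h4
  rcases le_total (1 / 2) ρ.re with h | h
  · exact ⟨ρ, h5, h, h4.2.2⟩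
  · refine ⟨1 - ρ, by rw [xi_one_sub]; exact h5, ?_, ?_⟩
    · simp only [Complex.sub_re, Complex.one_re]; linarith
    · simp only [Complex.sub_re, Complex.one_re]; linarith [h4.2.1]

lemma abs_Phi_le (u : ℝ) : |Phi u| ≤ 3 := by
  set y : ℝ := π * u ^ 2 with hy
  have hy0 : 0 ≤ y := by positivity
  have hk : Phi u = (2 * y - 1) * exp (-y) := by
    unfold Phi; rw [hy]; ring
  have h1 : y * exp (-y) ≤ 1 := by
    have := add_one_le_exp y
    rw [exp_neg, ← div_eq_mul_inv, div_le_one (exp_pos _)]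
    linarith
  have h2 : exp (-y) ≤ 1 := by rw [exp_le_one_iff]; linarith
  have h3 : 0 < exp (-y) := exp_pos _
  rw [hk, abs_le]
  constructor <;> nlinarith

/-- real Moebius -/
noncomputable def mu (n : ℕ) : ℝ := ((ArithmeticFunction.moebius n : ℤ) : ℝ)

lemma mu_le (n : ℕ) : |mu n| ≤ 1 := by
  unfold mu
  have := ArithmeticFunction.abs_moebius_le_one (n := n)
  exact_mod_cast this

lemma mu_conv (k : ℕ+) : (∑ d ∈ (k : ℕ).divisorsAntidiagonal, mu d.1) = if k = 1 then 1 else 0 := by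
  have h := congrArg (fun f : ArithmeticFunction ℤ => f (k : ℕ)) ArithmeticFunction.moebius_mul_coe_zeta
  simp only [ArithmeticFunction.mul_apply, ArithmeticFunction.one_apply] at h
  have h2 : (∑ d ∈ (k : ℕ).divisorsAntidiagonal, (ArithmeticFunction.moebius d.1 : ℤ)) =
      if (k : ℕ) = 1 then 1 else 0 := by
    rw [← h]
    apply Finset.sum_congr rfl
    intro d hd
    have hd2 : d.2 ≠ 0 := by
      have := Nat.mem_divisorsAntidiagonal.mp hd
      intro h0
      rw [h0, mul_zero] at this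
      exact this.2 this.1.symm
    simp [hd2]
  have h3 : (∑ d ∈ (k : ℕ).divisorsAntidiagonal, mu d.1) =
      ((∑ d ∈ (k : ℕ).divisorsAntidiagonal, (ArithmeticFunction.moebius d.1 : ℤ) : ℤ) : ℝ) := by
    unfold mu; push_cast; rfl
  rw [h3, h2]
  simp [← PNat.coe_eq_one_iff]

lemma GA_mu {z : ℝ} (hz : 0 < z) : GA (S mu) z = Phi (1 / z) := by
  have h := GA_S_conv mu_le hz
  simp_rw [mu_conv] at h
  have h2 : HasSum (fun k : ℕ+ => (if k = 1 then (1 : ℝ) else 0) * Phi ((k : ℕ) / z)) (Phi (1 / z)) := by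
    have := hasSum_ite_eq (1 : ℕ+) (Phi (1 / z))
    refine this.congr_fun ?_
    intro k
    by_cases hk : k = 1
    · subst hk; simp
    · simp [hk]
  exact h.unique h2

lemma re_lt_one_of_order {ρ : ℂ} {k : ℕ} (hρ : ((k + 1 : ℕ) : ℕ∞) ≤ analyticOrderAt riemannZeta ρ) :
    ρ.re < 1 := by
  have h1 : analyticOrderAt riemannZeta ρ ≠ 0 := by
    intro h
    rw [h] at hρ
    simp at hρ
  have h2 := apply_eq_zero_of_analyticOrderAt_ne_zero h1
  by_contra h3
  exact riemannZeta_ne_zero_of_one_le_re (not_lt.mp h3) h2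

theorem mu_lower {ρ : ℂ} {k : ℕ} (hρ : ((k + 1 : ℕ) : ℕ∞) ≤ analyticOrderAt riemannZeta ρ)
    (h0 : 1 / 2 ≤ ρ.re) : ∃ c : ℝ, 0 < c ∧ ∃ x₀ : ℝ, 1 ≤ x₀ ∧ ∀ x : ℝ, x₀ ≤ x →
      c * (x ^ ρ.re * log x ^ k) ≤ GA (fun t => max (S mu t) 0) x ∧
      c * (x ^ ρ.re * log x ^ k) ≤ GA (fun t => max (-S mu t) 0) x := by
  have h1 := re_lt_one_of_order hρ
  have hre : 0 < ρ.re := by linarith
  have hPhi := mellin_Phi hre
  have hcongr : ∀ z ∈ Ioi (0 : ℝ), (GA (S mu) z : ℂ) = ((Phi z⁻¹ : ℝ) : ℂ) := by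
    intro z hz
    rw [GA_mu hz, one_div]
  have hmel : mellin (fun z : ℝ => (GA (S mu) z : ℂ)) (-ρ) = mellin (fun z : ℝ => (Phi z : ℂ)) ρ := by
    have h2 : mellin (fun z : ℝ => (GA (S mu) z : ℂ)) (-ρ) =
        mellin (fun z : ℝ => ((Phi z⁻¹ : ℝ) : ℂ)) (-ρ) := by
      unfold mellin
      apply setIntegral_congr_fun measurableSet_Ioi
      intro z hz
      simp only
      rw [hcongr z hz]
    rw [h2]
    have h3 := mellin_comp_inv (fun z : ℝ => (Phi z : ℂ)) (-ρ)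
    rw [neg_neg] at h3
    exact h3
  refine abstract_lower (adm_S mu_le) (B := 3) (fun z hz => ?_) hρ h0 h1 ?_
  · rw [GA_mu hz]; exact abs_Phi_le _
  · rw [hmel, hPhi.2]
    have hG := Complex.Gammaℝ_ne_zero_of_re_pos hre
    have h2 : ρ - 1 ≠ 0 := by
      intro h
      have : (ρ - 1).re = 0 := by rw [h]; simp
      simp at this; linarith
    exact mul_ne_zero (mul_ne_zero (by norm_num) h2) hG

end Pool.Agent.Helper18.ES
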