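import Pool.Agent.Helper18.ES.Lam0

open Real Filter Topology Set MeasureTheory Asymptotics
open Pool.Agent.Helper57.Zeta

namespace Pool.Agent.Helper18.ES

/-- `√t` cut off at `1`. -/
noncomputable def P (t : ℝ) : ℝ := (Ici (1 : ℝ)).indicator (fun t => √t) t

lemma adm_P : Adm P 1 := by
  refine ⟨?_, ?_, ?_, zero_le_one⟩
  · unfold P
    exact Measurable.indicator (by fun_prop) measurableSet_Ici
  · intro t ht
    unfold P
    rw [indicator_of_notMem (by simp only [mem_Ici, not_le]; exact ht)]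
  · intro t ht
    unfold P
    rw [indicator_of_mem (by exact ht), abs_of_nonneg (sqrt_nonneg _), one_mul]
    rw [Real.sqrt_le_left (by linarith)]
    nlinarith

/-- real Mellin transform of the kernel -/
noncomputable def XR (σ : ℝ) : ℝ := ∫ u in Ioi (0 : ℝ), u ^ (σ - 1) * K u

lemma mellin_K_real (σ : ℝ) : mellin (fun u : ℝ => (K u : ℂ)) (σ : ℂ) = (XR σ : ℂ) := by
  unfold mellin XR
  rw [← integral_complex_ofReal]
  apply setIntegral_congr_fun measurableSet_Ioi
  intro u hu
  have hu0 : (0 : ℝ) < u := hu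
  simp only [smul_eq_mul]
  push_cast
  rw [Complex.ofReal_cpow hu0.le]
  push_cast
  rfl

lemma int_rpow_K (σ : ℝ) : IntegrableOn (fun u : ℝ => u ^ (σ - 1) * K u) (Ioi 0) := by
  have h := mellinConv_K (σ : ℂ)
  unfold MellinConvergent at h
  have h2 := h.norm
  refine (integrableOn_congr_fun (fun u hu => ?_) measurableSet_Ioi).mp h2
  have hu0 : (0 : ℝ) < u := hu
  rw [norm_smul, Complex.norm_cpow_eq_rpow_re_of_pos hu0, Complex.norm_real, Real.norm_eq_abs,
    abs_of_pos (K_pos hu0)]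
  simp

lemma XR_pos (σ : ℝ) : 0 < XR σ := by
  unfold XR
  rw [setIntegral_pos_iff_support_of_nonneg_ae]
  · have : Function.support (fun u : ℝ => u ^ (σ - 1) * K u) ∩ Ioi 0 = Ioi 0 := by
      apply inter_eq_right.mpr
      intro u hu
      have hu0 : (0 : ℝ) < u := hu
      rw [Function.mem_support]
      exact (mul_pos (rpow_pos_of_pos hu0 _) (K_pos hu0)).ne'
    rw [this]
    simp
  · rw [EventuallyLE, ae_restrict_iff' measurableSet_Ioi]
    refine Eventually.of_forall (fun u hu => ?_)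
    have hu0 : (0 : ℝ) < u := hu
    exact (mul_pos (rpow_pos_of_pos hu0 _) (K_pos hu0)).le
  · exact int_rpow_K σ

/-- scaling: `∫ t^{σ-1} K(t/z) dt = z^σ X(σ)` -/
lemma int_K_scaled (σ : ℝ) {z : ℝ} (hz : 0 < z) :
    IntegrableOn (fun t : ℝ => t ^ (σ - 1) * K (t / z)) (Ioi 0) ∧
    (∫ t in Ioi (0 : ℝ), t ^ (σ - 1) * K (t / z)) = z ^ σ * XR σ := by
  have hz' : (0 : ℝ) < z⁻¹ := by positivity
  have hfun : ∀ t ∈ Ioi (0 : ℝ), t ^ (σ - 1) * K (t / z) =
      z ^ (σ - 1) * ((fun u : ℝ => u ^ (σ - 1) * K u) (z⁻¹ * t)) := by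
    intro t ht
    have ht0 : (0 : ℝ) < t := ht
    simp only
    rw [mul_rpow hz'.le ht0.le, inv_rpow hz.le, div_eq_inv_mul]
    have : z ^ (σ - 1) ≠ 0 := (rpow_pos_of_pos hz _).ne'
    field_simp
  have hi : IntegrableOn (fun t : ℝ => (fun u : ℝ => u ^ (σ - 1) * K u) (z⁻¹ * t)) (Ioi 0) := by
    have := (integrableOn_Ioi_comp_mul_left_iff (fun u : ℝ => u ^ (σ - 1) * K u) 0 hz')
    rw [mul_zero] at this
    exact this.mpr (int_rpow_K σ)
  constructor
  · refine (integrableOn_congr_fun hfun measurableSet_Ioi).mpr ?_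
    exact hi.const_mul _
  · rw [setIntegral_congr_fun measurableSet_Ioi hfun, integral_const_mul]
    have := integral_comp_mul_left_Ioi (fun u : ℝ => u ^ (σ - 1) * K u) 0 hz'
    rw [mul_zero] at this
    rw [this, inv_inv, smul_eq_mul]
    unfold XR
    rw [rpow_sub hz, rpow_one]
    field_simp

/-- inverse scaling: `∫ z^{-σ-1} K(t/z) dz = t^{-σ} X(σ)` -/
lemma int_K_inv (σ : ℝ) {t : ℝ} (ht : 0 < t) :
    (∫ z in Ioi (0 : ℝ), z ^ (-σ - 1) * K (t / z)) = t ^ (-σ) * XR σ := by
  have h3 : (fun y : ℝ => (K (t / y) : ℂ)) = fun u : ℝ => (fun u : ℝ => ((K (t * u) : ℝ) : ℂ)) u⁻¹ := by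
    funext y
    simp only [div_eq_mul_inv]
  have h4 : mellin (fun u : ℝ => (fun u : ℝ => ((K (t * u) : ℝ) : ℂ)) u⁻¹) (-σ : ℂ) =
      mellin (fun u : ℝ => ((K (t * u) : ℝ) : ℂ)) (- -σ : ℂ) :=
    mellin_comp_inv (fun u : ℝ => ((K (t * u) : ℝ) : ℂ)) (-σ)
  have h5 := mellin_comp_mul_left (fun y : ℝ => (K y : ℂ)) (σ : ℂ) ht
  rw [neg_neg, h5, mellin_K_real, ← h3] at h4
  have h6 : mellin (fun y : ℝ => (K (t / y) : ℂ)) (-σ : ℂ) =
      ((∫ z in Ioi (0 : ℝ), z ^ (-σ - 1) * K (t / z) : ℝ) : ℂ) := by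
    unfold mellin
    rw [← integral_complex_ofReal]
    apply setIntegral_congr_fun measurableSet_Ioi
    intro u hu
    have hu0 : (0 : ℝ) < u := hu
    simp only [smul_eq_mul]
    push_cast
    rw [Complex.ofReal_cpow hu0.le]
    push_cast
    rfl
  rw [h6] at h4
  have h7 : ((t : ℂ) ^ (-(σ : ℂ))) = ((t ^ (-σ) : ℝ) : ℂ) := by
    rw [Complex.ofReal_cpow ht.le]; push_cast; rfl
  rw [h7, smul_eq_mul] at h4
  exact_mod_cast h4

lemma GA_P_bound : ∃ V : ℝ, 0 ≤ V ∧ ∀ z : ℝ, 0 < z → |GA P z - √z * XR (1 / 2)| ≤ V := by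
  refine ⟨XR 0, (XR_pos 0).le, fun z hz => ?_⟩
  have h1 := int_K_scaled (1 / 2) hz
  have h0 := int_K_scaled 0 hz
  rw [rpow_zero, one_mul] at h0
  have e1 : √z * XR (1 / 2) = ∫ t in Ioi (0 : ℝ), t ^ ((1 / 2 : ℝ) - 1) * K (t / z) := by
    rw [h1.2, sqrt_eq_rpow]
  rw [e1]
  unfold GA
  rw [← integral_sub (int_A adm_P hz) h1.1]
  have hb := norm_integral_le_of_norm_le (μ := volume.restrict (Ioi (0 : ℝ)))
    (f := fun t => P t / t * K (t / z) - t ^ ((1 / 2 : ℝ) - 1) * K (t / z)) h0.1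
    ((ae_restrict_iff' measurableSet_Ioi).mpr (Eventually.of_forall (fun t ht => by
      have ht0 : (0 : ℝ) < t := ht
      have hKp := K_pos (u := t / z) (by positivity)
      have e2 : t ^ ((1 / 2 : ℝ) - 1) = √t / t := by
        rw [rpow_sub ht0, rpow_one, sqrt_eq_rpow]
      have e3 : t ^ ((0 : ℝ) - 1) = 1 / t := by
        rw [rpow_sub ht0, rpow_one, rpow_zero]
      rw [e2, e3, ← sub_mul, ← sub_div, norm_mul, norm_div, Real.norm_eq_abs, Real.norm_eq_abs,
        Real.norm_eq_abs, abs_of_pos ht0, abs_of_pos hKp]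
      apply mul_le_mul_of_nonneg_right _ hKp.le
      apply div_le_div_of_nonneg_right _ ht0.le
      unfold P
      rcases lt_or_ge t 1 with h3 | h3
      · rw [indicator_of_notMem (by simp only [mem_Ici, not_le]; exact h3), zero_sub, abs_neg,
          abs_of_nonneg (sqrt_nonneg _)]
        exact Real.sqrt_le_one.mpr h3.le
      · rw [indicator_of_mem (by exact h3), sub_self, abs_zero]
        exact zero_le_one)))
  rw [h0.2, Real.norm_eq_abs] at hb
  exact hb

lemma int_P_rpow {σ : ℝ} (hσ : 1 / 2 < σ) : IntegrableOn (fun t : ℝ => P t / t * t ^ (-σ)) (Ioi 0) := by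
  have h1 : (fun t : ℝ => P t / t * t ^ (-σ)) = (Ici (1 : ℝ)).indicator
      (fun t : ℝ => √t / t * t ^ (-σ)) := by
    funext t
    unfold P
    by_cases h : t ∈ Ici (1 : ℝ)
    · rw [indicator_of_mem h, indicator_of_mem h]
    · rw [indicator_of_notMem h, indicator_of_notMem h]; simp
  rw [h1]
  apply Integrable.integrableOn
  rw [integrable_indicator_iff measurableSet_Ici]
  apply Iff.mpr integrableOn_Ici_iff_integrableOn_Ioi
  have h2 : IntegrableOn (fun t : ℝ => t ^ (-σ - 1 / 2)) (Ioi 1) :=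
    integrableOn_Ioi_rpow_of_lt (by linarith) one_pos
  refine (integrableOn_congr_fun (fun t ht => ?_) measurableSet_Ioi).mpr h2
  have ht0 : (0 : ℝ) < t := lt_trans one_pos ht
  have e2 : √t / t = t ^ (-(1 / 2) : ℝ) := by
    rw [sqrt_eq_rpow]
    nth_rewrite 2 [← rpow_one t]
    rw [← rpow_sub ht0]; norm_num
  rw [e2, ← rpow_add ht0]
  congr 1; ring

/-- Mellin transform of `GA P` -/
theorem mellin_GA_P {s : ℂ} (hs : 1 / 2 < s.re) :
    mellin (fun z : ℝ => (GA P z : ℂ)) (-s) = (1 / (s - 1 / 2)) * mellin (fun u : ℝ => (K u : ℂ)) s := by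
  have hinner : ∀ z ∈ Ioi (0 : ℝ), (z : ℂ) ^ (-s - 1) • ((GA P z : ℝ) : ℂ) =
      ∫ t in Ioi (0 : ℝ), (z : ℂ) ^ (-s - 1) * (((P t / t : ℝ) : ℂ) * (K (t / z) : ℂ)) := by
    intro z hz
    unfold GA
    rw [integral_const_mul, smul_eq_mul, ← integral_complex_ofReal]
    congr 1
    apply setIntegral_congr_fun measurableSet_Ioi
    intro t _
    simp only
    push_cast; rfl
  unfold mellin
  rw [setIntegral_congr_fun measurableSet_Ioi hinner]
  rw [integral_integral_swap]
  · have h1 : ∀ t ∈ Ioi (0 : ℝ), (∫ z in Ioi (0 : ℝ), (z : ℂ) ^ (-s - 1) *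
        (((P t / t : ℝ) : ℂ) * (K (t / z) : ℂ))) =
        ((P t / t : ℝ) : ℂ) * (t : ℂ) ^ (-s) * mellin (fun u : ℝ => (K u : ℂ)) s := by
      intro t ht
      have ht0 : (0 : ℝ) < t := ht
      have h3 : (fun y : ℝ => (K (t / y) : ℂ)) =
          fun u : ℝ => (fun u : ℝ => ((K (t * u) : ℝ) : ℂ)) u⁻¹ := by
        funext y
        simp only [div_eq_mul_inv]
      have h4 : mellin (fun u : ℝ => (fun u : ℝ => ((K (t * u) : ℝ) : ℂ)) u⁻¹) (-s) =
          mellin (fun u : ℝ => ((K (t * u) : ℝ) : ℂ)) (- -s) :=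
        mellin_comp_inv (fun u : ℝ => ((K (t * u) : ℝ) : ℂ)) (-s)
      have h5 := mellin_comp_mul_left (fun y : ℝ => (K y : ℂ)) s ht0
      rw [neg_neg, h5, ← h3] at h4
      have h6 : (∫ z in Ioi (0 : ℝ), (z : ℂ) ^ (-s - 1) *
        (((P t / t : ℝ) : ℂ) * (K (t / z) : ℂ))) = ((P t / t : ℝ) : ℂ) *
          mellin (fun y : ℝ => (K (t / y) : ℂ)) (-s) := by
        unfold mellin
        rw [← integral_const_mul]
        apply setIntegral_congr_fun measurableSet_Ioi
        intro z _
        simp only [smul_eq_mul]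
        ring
      rw [h6, h4, smul_eq_mul]
      ring
    rw [setIntegral_congr_fun measurableSet_Ioi h1, integral_mul_const]
    congr 1
    have h2 : (fun t : ℝ => ((P t / t : ℝ) : ℂ) * (t : ℂ) ^ (-s)) = (Ici (1 : ℝ)).indicator
        (fun t : ℝ => ((√t / t : ℝ) : ℂ) * (t : ℂ) ^ (-s)) := by
      funext t
      unfold P
      by_cases h : t ∈ Ici (1 : ℝ)
      · rw [indicator_of_mem h, indicator_of_mem h]
      · rw [indicator_of_notMem h, indicator_of_notMem h]; simp
    rw [h2, setIntegral_indicator measurableSet_Ici]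
    have h3 : Ioi (0 : ℝ) ∩ Ici 1 = Ici 1 := by
      apply inter_eq_right.mpr
      intro x (hx : (1 : ℝ) ≤ x)
      exact (lt_of_lt_of_le one_pos hx : (0 : ℝ) < x)
    rw [h3, integral_Ici_eq_integral_Ioi]
    have h4 : ∀ t ∈ Ioi (1 : ℝ), ((√t / t : ℝ) : ℂ) * (t : ℂ) ^ (-s) = (t : ℂ) ^ (-s - 1 / 2) := by
      intro t ht
      have ht0 : (0 : ℝ) < t := lt_trans one_pos ht
      have e2 : √t / t = t ^ (-(1 / 2) : ℝ) := by
        rw [sqrt_eq_rpow]
        nth_rewrite 2 [← rpow_one t]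
        rw [← rpow_sub ht0]; norm_num
      rw [e2, Complex.ofReal_cpow ht0.le, ← Complex.cpow_add _ _ (by exact_mod_cast ht0.ne')]
      congr 1
      push_cast
      ring
    rw [setIntegral_congr_fun measurableSet_Ioi h4, integral_Ioi_cpow_of_lt _ one_pos]
    · simp only [Complex.ofReal_one, Complex.one_cpow]
      have : -s - 1 / 2 + 1 = -(s - 1 / 2) := by ring
      rw [this, neg_div_neg_eq]
    · simp only [Complex.sub_re, Complex.neg_re]
      norm_num
      linarith
  · rw [Measure.prod_restrict]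
    have hmeas : AEStronglyMeasurable (Function.uncurry fun z t : ℝ => (z : ℂ) ^ (-s - 1) *
        (((P t / t : ℝ) : ℂ) * (K (t / z) : ℂ)))
        ((volume.prod volume).restrict (Ioi (0 : ℝ) ×ˢ Ioi (0 : ℝ))) := by
      apply AEStronglyMeasurable.mul
      · apply ContinuousOn.aestronglyMeasurable _ (measurableSet_Ioi.prod measurableSet_Ioi)
        intro p hp
        have hy0 : (0 : ℝ) < p.1 := hp.1
        apply ContinuousAt.continuousWithinAt
        apply ContinuousAt.comp (f := fun p : ℝ × ℝ => (p.1 : ℂ)) (g := fun w : ℂ => w ^ (-s - 1))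
        · apply ContinuousAt.cpow continuousAt_id continuousAt_const
          left; simpa using hy0
        · fun_prop
      · apply AEStronglyMeasurable.mul
        · apply Measurable.aestronglyMeasurable
          exact Complex.measurable_ofReal.comp ((adm_P.meas.comp measurable_snd).div measurable_snd)
        · apply ContinuousOn.aestronglyMeasurable _ (measurableSet_Ioi.prod measurableSet_Ioi)
          apply Complex.continuous_ofReal.comp_continuousOn
          apply continuousOn_K.comp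
          · intro p hp
            have hy0 : (0 : ℝ) < p.1 := hp.1
            apply ContinuousAt.continuousWithinAt
            exact ContinuousAt.div continuousAt_snd continuousAt_fst hy0.ne'
          · intro p hp
            have hy0 : (0 : ℝ) < p.1 := hp.1
            have ht0 : (0 : ℝ) < p.2 := hp.2
            exact div_pos ht0 hy0
    rw [← Measure.prod_restrict] at hmeas ⊢
    rw [integrable_prod_iff' hmeas]
    have hnorm : ∀ t ∈ Ioi (0 : ℝ), ∀ z ∈ Ioi (0 : ℝ),
        ‖(z : ℂ) ^ (-s - 1) * (((P t / t : ℝ) : ℂ) * (K (t / z) : ℂ))‖ =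
        (P t / t) * (z ^ (-s.re - 1) * K (t / z)) := by
      intro t ht z hz
      have ht0 : (0 : ℝ) < t := ht
      have hz0 : (0 : ℝ) < z := hz
      have hKp := K_pos (u := t / z) (by positivity)
      have hP : 0 ≤ P t / t := by
        apply div_nonneg _ ht0.le
        unfold P
        exact indicator_nonneg (fun _ _ => sqrt_nonneg _) _
      rw [norm_mul, norm_mul, norm_cpow_aux hz0, Complex.norm_real, Complex.norm_real,
        Real.norm_eq_abs, Real.norm_eq_abs, abs_of_nonneg hP, abs_of_pos hKp]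
      ring
    constructor
    · rw [ae_restrict_iff' measurableSet_Ioi]
      refine Eventually.of_forall (fun t ht => ?_)
      have ht0 : (0 : ℝ) < t := ht
      have h1 := mellinConv_K_inv (-s) ht0
      unfold MellinConvergent at h1
      have h2 := h1.const_mul ((P t / t : ℝ) : ℂ)
      refine h2.congr ?_
      refine Eventually.of_forall (fun z => ?_)
      simp only [Function.uncurry, smul_eq_mul]
      ring
    · have h1 : IntegrableOn (fun t : ℝ => (P t / t * t ^ (-s.re)) * XR s.re) (Ioi 0) :=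
        (int_P_rpow hs).mul_const _
      refine (integrableOn_congr_fun (fun t ht => ?_) measurableSet_Ioi).mpr h1
      have ht0 : (0 : ℝ) < t := ht
      simp only [Function.uncurry]
      rw [setIntegral_congr_fun measurableSet_Ioi (hnorm t ht), integral_const_mul,
        int_K_inv s.re ht0]
      ring

end Pool.Agent.Helper18.ES
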