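import Pool.Agent.Helper18.ES.Lower

open Real Filter Topology Set MeasureTheory Asymptotics

namespace Pool.Agent.Helper18.ES

/-- summatory function -/
noncomputable def S (a : ℕ → ℝ) (t : ℝ) : ℝ := ∑ n ∈ Finset.Icc 1 ⌊t⌋₊, a n

lemma adm_S {a : ℕ → ℝ} (ha : ∀ n, |a n| ≤ 1) : Adm (S a) 1 := by
  refine ⟨?_, ?_, ?_, zero_le_one⟩
  · unfold S
    exact (measurable_from_nat (f := fun N : ℕ => ∑ n ∈ Finset.Icc 1 N, a n)).comp
      Nat.measurable_floor
  · intro t ht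
    unfold S
    rw [Nat.floor_eq_zero.mpr ht]
    simp
  · intro t ht
    unfold S
    calc |∑ n ∈ Finset.Icc 1 ⌊t⌋₊, a n| ≤ ∑ n ∈ Finset.Icc 1 ⌊t⌋₊, |a n| :=
          Finset.abs_sum_le_sum_abs _ _
      _ ≤ ∑ n ∈ Finset.Icc 1 ⌊t⌋₊, 1 := Finset.sum_le_sum (fun n _ => ha n)
      _ = ⌊t⌋₊ := by simp
      _ ≤ 1 * t := by
        rw [one_mul]
        exact Nat.floor_le (by linarith)

lemma kap_abs_le {u : ℝ} (hu : 0 < u) : |kap u| ≤ 12 / u ^ 2 := by
  set y : ℝ := π * u ^ 2 with hy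
  have hy0 : 0 < y := by positivity
  have h3 := Real.pow_div_factorial_le_exp y hy0.le 3
  have h2 := Real.pow_div_factorial_le_exp y hy0.le 2
  have e3 : ((Nat.factorial 3 : ℕ) : ℝ) = 6 := by norm_num [Nat.factorial]
  have e2 : ((Nat.factorial 2 : ℕ) : ℝ) = 2 := by norm_num [Nat.factorial]
  rw [e3, div_le_iff₀ (by norm_num)] at h3
  rw [e2, div_le_iff₀ (by norm_num)] at h2
  have hk : kap u = (4 * y ^ 2 - 6 * y) * exp (-y) := by
    unfold kap; rw [hy]; ring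
  have hpi := pi_gt_three
  rw [hk, abs_mul, abs_of_pos (exp_pos _), le_div_iff₀ (by positivity)]
  have h4 : |4 * y ^ 2 - 6 * y| ≤ 4 * y ^ 2 + 6 * y := by
    rw [abs_le]; constructor <;> nlinarith
  have hu2 : u ^ 2 = y / π := by rw [hy]; field_simp
  have hE : 0 < exp y := exp_pos y
  rw [hu2, exp_neg]
  have h5 : |4 * y ^ 2 - 6 * y| * (exp y)⁻¹ * (y / π) = (|4 * y ^ 2 - 6 * y| * y) / (exp y * π) := by
    field_simp
  rw [h5, div_le_iff₀ (by positivity)]
  have h6 : |4 * y ^ 2 - 6 * y| * y ≤ 4 * y ^ 3 + 6 * y ^ 2 := by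
    calc |4 * y ^ 2 - 6 * y| * y ≤ (4 * y ^ 2 + 6 * y) * y := mul_le_mul_of_nonneg_right h4 hy0.le
      _ = _ := by ring
  have h7 : 3 * exp y ≤ exp y * π := by nlinarith
  nlinarith

lemma hasDerivAt_Phi (u : ℝ) : HasDerivAt Phi ((6 * π * u - 4 * π ^ 2 * u ^ 3) * exp (-(π * u ^ 2))) u := by
  have h1 : HasDerivAt (fun u : ℝ => 2 * π * u ^ 2 - 1) (2 * π * (2 * u)) u := by
    simpa using ((hasDerivAt_pow 2 u).const_mul (2 * π)).sub_const 1
  have h2 : HasDerivAt (fun u : ℝ => -(π * u ^ 2)) (-(π * (2 * u))) u := by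
    have h0 := ((hasDerivAt_pow 2 u).const_mul π).neg
    have e : (-(π * (2 * u))) = (-(π * (((2 : ℕ) : ℝ) * u ^ (2 - 1)))) := by norm_num
    rw [e]
    exact h0
  have h3 := h1.mul h2.exp
  convert! h3 using 1
  ring

lemma tendsto_Phi_atTop : Tendsto Phi atTop (𝓝 0) := by
  have h1 : ∀ u : ℝ, 1 ≤ u → |Phi u| ≤ 3 / u := by
    intro u hu
    have hu0 : 0 < u := by linarith
    set y : ℝ := π * u ^ 2 with hy
    have hy0 : 0 < y := by positivity
    have h2 := Real.pow_div_factorial_le_exp y hy0.le 2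
    have e2 : ((Nat.factorial 2 : ℕ) : ℝ) = 2 := by norm_num [Nat.factorial]
    rw [e2, div_le_iff₀ (by norm_num)] at h2
    have hpi := pi_gt_three
    have hk : Phi u = (2 * y - 1) * exp (-y) := by
      unfold Phi; rw [hy]; ring
    have hy3 : 3 * u ≤ y := by rw [hy]; nlinarith
    have hu2 : u ^ 2 ≤ y ^ 2 / 9 := by nlinarith
    rw [hk, abs_mul, abs_of_pos (exp_pos _), exp_neg, le_div_iff₀ hu0]
    have h4 : |2 * y - 1| ≤ 2 * y := by
      rw [abs_le]; constructor <;> nlinarith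
    have hE : 0 < exp y := exp_pos y
    have h5 : |2 * y - 1| * (exp y)⁻¹ * u = (|2 * y - 1| * u) / exp y := by field_simp
    rw [h5, div_le_iff₀ hE]
    have h6 : |2 * y - 1| * u ≤ 2 * y * u := mul_le_mul_of_nonneg_right h4 hu0.le
    nlinarith
  apply squeeze_zero_norm' (a := fun u : ℝ => 3 / u)
  · filter_upwards [eventually_ge_atTop (1 : ℝ)] with u hu
    rw [Real.norm_eq_abs]; exact h1 u hu
  · exact tendsto_const_nhds.div_atTop tendsto_id

lemma hasDerivAt_Phi_scaled {c : ℝ} (hc : 0 < c) {t : ℝ} (ht : 0 < t) :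
    HasDerivAt (fun t => -Phi (c * t)) (kap (c * t) / t) t := by
  have h1 := (hasDerivAt_Phi (c * t)).comp t ((hasDerivAt_id t).const_mul c)
  have h2 := h1.neg
  convert! h2 using 1
  unfold kap
  simp only [mul_one]
  field_simp
  ring

lemma kap_scaled_int {c : ℝ} (hc : 0 < c) {n : ℝ} (hn : 0 < n) :
    IntegrableOn (fun t => kap (c * t) / t) (Ioi n) ∧
    (∫ t in Ioi n, |kap (c * t) / t|) ≤ 6 / c ^ 2 / n ^ 2 ∧
    (∫ t in Ioi n, kap (c * t) / t) = Phi (c * n) := by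
  have hb : IntegrableOn (fun t : ℝ => 12 / c ^ 2 * t ^ (-3 : ℝ)) (Ioi n) :=
    (integrableOn_Ioi_rpow_of_lt (by norm_num) hn).const_mul _
  have hbd : ∀ t ∈ Ioi n, |kap (c * t) / t| ≤ 12 / c ^ 2 * t ^ (-3 : ℝ) := by
    intro t ht
    have ht0 : 0 < t := lt_trans hn ht
    rw [abs_div, abs_of_pos ht0, div_le_iff₀ ht0]
    refine (kap_abs_le (u := c * t) (by positivity)).trans (le_of_eq ?_)
    have : t ^ (-3 : ℝ) = (t ^ 3)⁻¹ := by rw [rpow_neg ht0.le]; norm_num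
    rw [this]
    field_simp
  have hint : IntegrableOn (fun t => kap (c * t) / t) (Ioi n) := by
    apply Integrable.mono' hb
    · apply ContinuousOn.aestronglyMeasurable _ measurableSet_Ioi
      intro t ht
      have ht0 : 0 < t := lt_trans hn ht
      apply ContinuousAt.continuousWithinAt
      apply ContinuousAt.div _ continuousAt_id ht0.ne'
      unfold kap
      fun_prop
    · rw [ae_restrict_iff' measurableSet_Ioi]
      exact Eventually.of_forall hbd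
  refine ⟨hint, ?_, ?_⟩
  · have h1 : (∫ t in Ioi n, |kap (c * t) / t|) ≤ ∫ t in Ioi n, 12 / c ^ 2 * t ^ (-3 : ℝ) :=
      setIntegral_mono_on hint.abs hb measurableSet_Ioi hbd
    refine h1.trans (le_of_eq ?_)
    rw [integral_const_mul, integral_Ioi_rpow_of_lt (by norm_num) hn]
    have : n ^ (-3 + 1 : ℝ) = (n ^ 2)⁻¹ := by
      rw [show (-3 + 1 : ℝ) = -2 by norm_num, rpow_neg hn.le]; norm_num
    rw [this]
    field_simp
    norm_num
  · have h1 := integral_Ioi_of_hasDerivAt_of_tendsto (f := fun t => -Phi (c * t))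
      (f' := fun t => kap (c * t) / t) (a := n) (m := 0)
      ((hasDerivAt_Phi_scaled hc hn).continuousAt.continuousWithinAt)
      (fun t ht => hasDerivAt_Phi_scaled hc (lt_trans hn ht)) hint (by
        have h2 : Tendsto (fun t : ℝ => c * t) atTop atTop := tendsto_id.const_mul_atTop hc
        simpa using (tendsto_Phi_atTop.comp h2).neg)
    rw [h1]; ring

lemma tsum_indicator_eq_S (a : ℕ → ℝ) {t : ℝ} (ht : 0 < t) :
    (∑' n : ℕ+, (Ici ((n : ℕ) : ℝ)).indicator (fun _ => a n) t) = S a t := by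
  rw [tsum_pnat_eq_tsum_succ (f := fun n : ℕ => (Ici (n : ℝ)).indicator (fun _ => a n) t)]
  rw [tsum_eq_sum (s := Finset.range ⌊t⌋₊)]
  · unfold S
    rw [Finset.range_eq_Ico, Finset.sum_Ico_add' (fun n : ℕ => (Ici (n : ℝ)).indicator (fun _ => a n) t)
      0 ⌊t⌋₊ 1]
    have : Finset.Ico (0 + 1) (⌊t⌋₊ + 1) = Finset.Icc 1 ⌊t⌋₊ := by
      ext x; simp
    rw [this]
    apply Finset.sum_congr rfl
    intro n hn
    rw [Finset.mem_Icc] at hn
    rw [indicator_of_mem]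
    simp only [mem_Ici]
    exact (Nat.le_floor_iff ht.le).mp hn.2
  · intro n hn
    rw [Finset.mem_range, not_lt] at hn
    rw [indicator_of_notMem]
    simp only [mem_Ici, not_le]
    have : t < ⌊t⌋₊ + 1 := Nat.lt_floor_add_one t
    have h2 : ((⌊t⌋₊ : ℕ) : ℝ) ≤ n := by exact_mod_cast hn
    push_cast
    linarith

theorem GA_S {a : ℕ → ℝ} (ha : ∀ n, |a n| ≤ 1) {z : ℝ} (hz : 0 < z) :
    HasSum (fun p : ℕ+ × ℕ+ => a p.1 * Phi ((p.1 : ℕ) * (p.2 : ℕ) / z)) (GA (S a) z) := by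
  set F : ℕ+ × ℕ+ → ℝ → ℝ := fun p t =>
    (Ici ((p.1 : ℕ) : ℝ)).indicator (fun _ => a p.1) t * (kap (((p.2 : ℕ) : ℝ) / z * t) / t) with hF
  have hn0 : ∀ n : ℕ+, (0 : ℝ) < ((n : ℕ) : ℝ) := fun n => by exact_mod_cast n.pos
  have hFeq : ∀ p : ℕ+ × ℕ+, F p = (Ici ((p.1 : ℕ) : ℝ)).indicator
      (fun t => a p.1 * (kap (((p.2 : ℕ) : ℝ) / z * t) / t)) := by
    intro p; funext t
    simp only [hF]
    by_cases h : t ∈ Ici ((p.1 : ℕ) : ℝ)
    · rw [indicator_of_mem h, indicator_of_mem h]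
    · rw [indicator_of_notMem h, indicator_of_notMem h, zero_mul]
  have hinter : ∀ n : ℕ+, Ioi (0 : ℝ) ∩ Ici ((n : ℕ) : ℝ) = Ici ((n : ℕ) : ℝ) := by
    intro n
    apply inter_eq_right.mpr
    intro x hx
    exact lt_of_lt_of_le (hn0 n) hx
  have hci : ∀ p : ℕ+ × ℕ+, 0 < ((p.2 : ℕ) : ℝ) / z := fun p => div_pos (hn0 p.2) hz
  have hint : ∀ p : ℕ+ × ℕ+, Integrable (F p) (volume.restrict (Ioi 0)) := by
    intro p
    rw [hFeq p]
    apply IntegrableOn.integrable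
    rw [IntegrableOn, integrable_indicator_iff measurableSet_Ici, IntegrableOn,
      Measure.restrict_restrict measurableSet_Ici, inter_comm, hinter]
    apply Integrable.const_mul
    exact Iff.mpr integrableOn_Ici_iff_integrableOn_Ioi (kap_scaled_int (hci p) (hn0 p.1)).1
  have hval : ∀ p : ℕ+ × ℕ+, (∫ t in Ioi (0 : ℝ), F p t) =
      a p.1 * Phi ((p.1 : ℕ) * (p.2 : ℕ) / z) := by
    intro p
    rw [hFeq p, setIntegral_indicator measurableSet_Ici, hinter, integral_const_mul,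
      integral_Ici_eq_integral_Ioi, (kap_scaled_int (hci p) (hn0 p.1)).2.2]
    congr 2
    ring
  have hnorm : ∀ p : ℕ+ × ℕ+, (∫ t in Ioi (0 : ℝ), ‖F p t‖) ≤
      6 * z ^ 2 * ((1 / ((p.1 : ℕ) : ℝ) ^ 2) * (1 / ((p.2 : ℕ) : ℝ) ^ 2)) := by
    intro p
    have e1 : (fun t => ‖F p t‖) = (Ici ((p.1 : ℕ) : ℝ)).indicator
        (fun t => |a p.1| * |kap (((p.2 : ℕ) : ℝ) / z * t) / t|) := by
      rw [hFeq p]
      funext t
      by_cases h : t ∈ Ici ((p.1 : ℕ) : ℝ)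
      · rw [indicator_of_mem h, indicator_of_mem h, Real.norm_eq_abs, abs_mul]
      · rw [indicator_of_notMem h, indicator_of_notMem h, norm_zero]
    rw [e1, setIntegral_indicator measurableSet_Ici, hinter, integral_const_mul,
      integral_Ici_eq_integral_Ioi]
    have h2 := (kap_scaled_int (hci p) (hn0 p.1)).2.1
    have h3 : 0 ≤ ∫ t in Ioi ((p.1 : ℕ) : ℝ), |kap (((p.2 : ℕ) : ℝ) / z * t) / t| :=
      integral_nonneg (fun _ => abs_nonneg _)
    have hz' : z ≠ 0 := hz.ne'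
    have h4 : (6 : ℝ) / (((p.2 : ℕ) : ℝ) / z) ^ 2 / ((p.1 : ℕ) : ℝ) ^ 2 =
        6 * z ^ 2 * ((1 / ((p.1 : ℕ) : ℝ) ^ 2) * (1 / ((p.2 : ℕ) : ℝ) ^ 2)) := by
      have := (hn0 p.1).ne'
      have := (hn0 p.2).ne'
      field_simp
    rw [← h4]
    calc |a p.1| * ∫ t in Ioi ((p.1 : ℕ) : ℝ), |kap (((p.2 : ℕ) : ℝ) / z * t) / t|
        ≤ 1 * ∫ t in Ioi ((p.1 : ℕ) : ℝ), |kap (((p.2 : ℕ) : ℝ) / z * t) / t| :=
          mul_le_mul_of_nonneg_right (ha _) h3
      _ ≤ _ := by rw [one_mul]; exact h2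
  have hs1 : Summable fun n : ℕ+ => (1 : ℝ) / ((n : ℕ) : ℝ) ^ 2 :=
    (Real.summable_one_div_nat_pow.mpr (by norm_num : 1 < 2)).comp_injective PNat.coe_injective
  have hsum : Summable fun p : ℕ+ × ℕ+ => ∫ t in Ioi (0 : ℝ), ‖F p t‖ := by
    apply Summable.of_nonneg_of_le (fun p => integral_nonneg (fun _ => norm_nonneg _)) hnorm
    apply Summable.mul_left
    exact hs1.mul_of_nonneg hs1 (fun _ => by positivity) (fun _ => by positivity)
  have hS := hasSum_integral_of_summable_integral_norm hint hsum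
  simp_rw [hval] at hS
  have hfin : (∫ t in Ioi (0 : ℝ), ∑' p : ℕ+ × ℕ+, F p t) = GA (S a) z := by
    unfold GA
    apply setIntegral_congr_fun measurableSet_Ioi
    intro t ht
    have ht0 : (0 : ℝ) < t := ht
    simp only [hF]
    have hs2 : Summable fun m : ℕ+ => kap (((m : ℕ) : ℝ) / z * t) / t := by
      apply Summable.div_const
      have := summable_kap (u := t / z) (by positivity)
      refine this.congr (fun m => ?_)
      congr 1; ring
    have hs3 : Summable fun n : ℕ+ => (Ici ((n : ℕ) : ℝ)).indicator (fun _ => a n) t := by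
      apply summable_of_hasFiniteSupport
      apply Set.Finite.subset (s := {n : ℕ+ | (n : ℕ) ≤ ⌊t⌋₊})
      · apply Set.Finite.preimage (f := fun n : ℕ+ => (n : ℕ)) (PNat.coe_injective.injOn)
          (Set.finite_le_nat _)
      · intro n hn
        rw [Function.mem_support] at hn
        have : t ∈ Ici ((n : ℕ) : ℝ) := by
          by_contra h
          exact hn (indicator_of_notMem h _)
        exact Nat.le_floor this
    rw [← tsum_mul_tsum_of_summable_norm hs3.norm hs2.norm, tsum_indicator_eq_S a ht0]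
    rw [tsum_div_const]
    unfold K
    have : (∑' m : ℕ+, kap (((m : ℕ) : ℝ) / z * t)) = ∑' m : ℕ+, kap (((m : ℕ) : ℝ) * (t / z)) := by
      apply tsum_congr; intro m; congr 1; ring
    rw [this]
    ring
  rw [hfin] at hS
  exact hS

/-- Dirichlet convolution form -/
theorem GA_S_conv {a : ℕ → ℝ} (ha : ∀ n, |a n| ≤ 1) {z : ℝ} (hz : 0 < z) :
    HasSum (fun k : ℕ+ => (∑ d ∈ (k : ℕ).divisorsAntidiagonal, a d.1) * Phi ((k : ℕ) / z))
      (GA (S a) z) := by
  have h1 := GA_S ha hz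
  have h2 := (sigmaAntidiagonalEquivProd.hasSum_iff (f := fun p : ℕ+ × ℕ+ =>
    a p.1 * Phi ((p.1 : ℕ) * (p.2 : ℕ) / z))).mpr h1
  have h3 := h2.sigma (g := fun k : ℕ+ =>
    (∑ d ∈ (k : ℕ).divisorsAntidiagonal, a d.1) * Phi ((k : ℕ) / z)) (fun k => by
    have h4 := hasSum_fintype (fun c : (k : ℕ).divisorsAntidiagonal =>
      ((fun p : ℕ+ × ℕ+ => a p.1 * Phi ((p.1 : ℕ) * (p.2 : ℕ) / z)) ∘ sigmaAntidiagonalEquivProd) ⟨k, c⟩)
    convert! h4 using 1
    rw [Finset.sum_mul, ← Finset.sum_coe_sort]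
    apply Finset.sum_congr rfl
    intro c _
    have hc := (Nat.mem_divisorsAntidiagonal.mp c.2).1
    simp only [Function.comp, sigmaAntidiagonalEquivProd, Equiv.coe_fn_mk, divisorsAntidiagonalFactors,
      PNat.mk_coe]
    have hc' : ((k : ℕ) : ℝ) = ((c : ℕ × ℕ).1 : ℝ) * ((c : ℕ × ℕ).2 : ℝ) := by
      rw [← Nat.cast_mul, hc]
    rw [hc'])
  exact h3

end Pool.Agent.Helper18.ES
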