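import Mathlib

open Real Filter Topology Set

namespace Pool.Agent.Helper18.ES

/-- `T k s = ∑_{n ∈ ℤ} (π n²)^k exp(-π n² s)`. -/
noncomputable def T (k : ℕ) (s : ℝ) : ℝ :=
  ∑' n : ℤ, (π * (n : ℝ) ^ 2) ^ k * exp (-(π * (n : ℝ) ^ 2 * s))

lemma summable_T (k : ℕ) {s : ℝ} (hs : 0 < s) :
    Summable fun n : ℤ => (π * (n : ℝ) ^ 2) ^ k * exp (-(π * (n : ℝ) ^ 2 * s)) := by
  have h := (summable_pow_mul_jacobiTheta₂_term_bound 0 hs (2 * k)).mul_left (π ^ k)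
  refine h.congr (fun n => ?_)
  rw [pow_mul, Int.cast_abs, sq_abs, mul_pow, ← mul_assoc]
  congr 2
  ring

lemma hasDerivAt_T (k : ℕ) {s : ℝ} (hs : 0 < s) : HasDerivAt (T k) (-T (k + 1) s) s := by
  have hs2 : 0 < s / 2 := by linarith
  have key : HasDerivAt (fun z => ∑' n : ℤ, (π * (n : ℝ) ^ 2) ^ k * exp (-(π * (n : ℝ) ^ 2 * z)))
      (∑' n : ℤ, -((π * (n : ℝ) ^ 2) ^ (k + 1) * exp (-(π * (n : ℝ) ^ 2 * s)))) s := by
    refine hasDerivAt_tsum_of_isPreconnected (summable_T (k + 1) hs2)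
      (t := Ioi (s / 2)) isOpen_Ioi isPreconnected_Ioi
      (g := fun (n : ℤ) (z : ℝ) => (π * (n : ℝ) ^ 2) ^ k * exp (-(π * (n : ℝ) ^ 2 * z)))
      (g' := fun n y => -((π * (n : ℝ) ^ 2) ^ (k + 1) * exp (-(π * (n : ℝ) ^ 2 * y)))) ?_ ?_
      (y₀ := s) (by simp only [mem_Ioi]; linarith) (summable_T k hs) (by simp only [mem_Ioi]; linarith)
    · intro n y hy
      have h1 : HasDerivAt (fun z : ℝ => -(π * (n : ℝ) ^ 2 * z)) (-(π * (n : ℝ) ^ 2)) y := by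
        have h0 := ((hasDerivAt_id y).const_mul (π * (n : ℝ) ^ 2)).neg
        rw [mul_one] at h0
        exact h0
      have h2 := (h1.exp).const_mul ((π * (n : ℝ) ^ 2) ^ k)
      convert! h2 using 1
      ring
    · intro n y hy
      rw [norm_neg, norm_mul, Real.norm_eq_abs, Real.norm_eq_abs, abs_of_nonneg (by positivity),
        abs_of_nonneg (by positivity)]
      apply mul_le_mul_of_nonneg_left _ (by positivity)
      apply exp_le_exp.mpr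
      have hy' : s / 2 < y := hy
      have : 0 ≤ π * (n : ℝ) ^ 2 := by positivity
      nlinarith
  rw [tsum_neg] at key
  exact key

lemma T0_inv {s : ℝ} (hs : 0 < s) : T 0 s = s ^ (-(1 / 2) : ℝ) * T 0 (1 / s) := by
  have h := Real.tsum_exp_neg_mul_int_sq hs
  unfold T
  simp only [pow_zero, one_mul]
  have h1 : (∑' n : ℤ, exp (-(π * (n : ℝ) ^ 2 * s))) = ∑' n : ℤ, exp (-π * s * (n : ℝ) ^ 2) := by
    apply tsum_congr; intro n; congr 1; ring
  have h2 : (∑' n : ℤ, exp (-(π * (n : ℝ) ^ 2 * (1 / s)))) = ∑' n : ℤ, exp (-π / s * (n : ℝ) ^ 2) := by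
    apply tsum_congr; intro n; congr 1; ring
  rw [h1, h2, h, rpow_neg hs.le, one_div (s ^ (1 / 2 : ℝ))]

lemma T1_inv {s : ℝ} (hs : 0 < s) :
    T 1 s = (1 / 2) * s ^ (-(3 / 2) : ℝ) * T 0 (1 / s) - s ^ (-(5 / 2) : ℝ) * T 1 (1 / s) := by
  have hL := hasDerivAt_T 0 hs
  have hinv : HasDerivAt (fun z : ℝ => 1 / z) (-(1 / s ^ 2)) s := by
    have := (hasDerivAt_inv hs.ne')
    simp only [one_div]
    exact this
  have hpos : 0 < 1 / s := by positivity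
  have h1 : HasDerivAt (fun z : ℝ => T 0 (1 / z)) (-T 1 (1 / s) * (-(1 / s ^ 2))) s :=
    (hasDerivAt_T 0 hpos).comp s hinv
  have h2 : HasDerivAt (fun z : ℝ => z ^ (-(1 / 2) : ℝ)) (-(1 / 2) * s ^ (-(1 / 2) - 1 : ℝ)) s :=
    Real.hasDerivAt_rpow_const (Or.inl hs.ne')
  have hR := h2.mul h1
  have hev : (fun z : ℝ => T 0 z) =ᶠ[𝓝 s] fun z => z ^ (-(1 / 2) : ℝ) * T 0 (1 / z) := by
    filter_upwards [isOpen_Ioi.mem_nhds (show s ∈ Ioi (0 : ℝ) from hs)] with z hz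
    exact T0_inv hz
  have hR' := hR.congr_of_eventuallyEq hev
  have := hL.unique hR'
  have e1 : s ^ (-(1 / 2) - 1 : ℝ) = s ^ (-(3 / 2) : ℝ) := by norm_num
  have e2 : s ^ (-(1 / 2) : ℝ) * (1 / s ^ 2) = s ^ (-(5 / 2) : ℝ) := by
    have : (1 : ℝ) / s ^ 2 = s ^ (-2 : ℝ) := by
      rw [rpow_neg hs.le, one_div]; norm_num
    rw [this, ← rpow_add hs]; norm_num
  rw [e1] at this
  simp only [zero_add] at this
  linear_combination -this - (T 1 (1 / s)) * e2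

lemma T2_inv {s : ℝ} (hs : 0 < s) :
    T 2 s = (3 / 4) * s ^ (-(5 / 2) : ℝ) * T 0 (1 / s) - 3 * s ^ (-(7 / 2) : ℝ) * T 1 (1 / s)
      + s ^ (-(9 / 2) : ℝ) * T 2 (1 / s) := by
  have hL := hasDerivAt_T 1 hs
  have hinv : HasDerivAt (fun z : ℝ => 1 / z) (-(1 / s ^ 2)) s := by
    have := (hasDerivAt_inv hs.ne')
    simp only [one_div]
    exact this
  have hpos : 0 < 1 / s := by positivity
  have h0 : HasDerivAt (fun z : ℝ => T 0 (1 / z)) (-T 1 (1 / s) * (-(1 / s ^ 2))) s :=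
    (hasDerivAt_T 0 hpos).comp s hinv
  have h1 : HasDerivAt (fun z : ℝ => T 1 (1 / z)) (-T 2 (1 / s) * (-(1 / s ^ 2))) s :=
    (hasDerivAt_T 1 hpos).comp s hinv
  have h3 : HasDerivAt (fun z : ℝ => z ^ (-(3 / 2) : ℝ)) (-(3 / 2) * s ^ (-(3 / 2) - 1 : ℝ)) s :=
    Real.hasDerivAt_rpow_const (Or.inl hs.ne')
  have h5 : HasDerivAt (fun z : ℝ => z ^ (-(5 / 2) : ℝ)) (-(5 / 2) * s ^ (-(5 / 2) - 1 : ℝ)) s :=
    Real.hasDerivAt_rpow_const (Or.inl hs.ne')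
  have hR := ((h3.const_mul (1 / 2)).mul h0).sub (h5.mul h1)
  have hev : (fun z : ℝ => T 1 z) =ᶠ[𝓝 s] fun z => (1 / 2) * z ^ (-(3 / 2) : ℝ) * T 0 (1 / z)
      - z ^ (-(5 / 2) : ℝ) * T 1 (1 / z) := by
    filter_upwards [isOpen_Ioi.mem_nhds (show s ∈ Ioi (0 : ℝ) from hs)] with z hz
    exact T1_inv hz
  have hR' := hR.congr_of_eventuallyEq hev
  have := hL.unique hR'
  have e1 : s ^ (-(3 / 2) - 1 : ℝ) = s ^ (-(5 / 2) : ℝ) := by norm_num
  have e1' : s ^ (-(5 / 2) - 1 : ℝ) = s ^ (-(7 / 2) : ℝ) := by norm_num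
  have hsq : (1 : ℝ) / s ^ 2 = s ^ (-2 : ℝ) := by
    rw [rpow_neg hs.le, one_div]; norm_num
  have e2 : s ^ (-(3 / 2) : ℝ) * (1 / s ^ 2) = s ^ (-(7 / 2) : ℝ) := by
    rw [hsq, ← rpow_add hs]; norm_num
  have e3 : s ^ (-(5 / 2) : ℝ) * (1 / s ^ 2) = s ^ (-(9 / 2) : ℝ) := by
    rw [hsq, ← rpow_add hs]; norm_num
  rw [e1, e1'] at this
  simp only [Nat.reduceAdd] at this
  linear_combination -this - (1 / 2) * (T 1 (1 / s)) * e2 + (T 2 (1 / s)) * e3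

/-- The Riemann kernel summand. -/
noncomputable def kap (u : ℝ) : ℝ := (4 * π ^ 2 * u ^ 4 - 6 * π * u ^ 2) * exp (-(π * u ^ 2))

/-- The Riemann kernel. -/
noncomputable def K (u : ℝ) : ℝ := ∑' m : ℕ+, kap (m * u)

lemma summable_kap_int {u : ℝ} (hu : 0 < u) : Summable fun n : ℤ => kap (n * u) := by
  have hs : 0 < u ^ 2 := by positivity
  have h := ((summable_T 2 hs).mul_left (4 * u ^ 4)).sub ((summable_T 1 hs).mul_left (6 * u ^ 2))
  refine h.congr (fun n => ?_)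
  unfold kap
  have : exp (-(π * ((n : ℝ) * u) ^ 2)) = exp (-(π * (n : ℝ) ^ 2 * u ^ 2)) := by
    congr 1; ring
  rw [this]
  ring

lemma summable_kap {u : ℝ} (hu : 0 < u) : Summable fun m : ℕ+ => kap (m * u) := by
  have h := (summable_kap_int hu).comp_injective (i := fun m : ℕ+ => ((m : ℕ) : ℤ))
    (fun a b h => by
      have : ((a : ℕ) : ℤ) = ((b : ℕ) : ℤ) := h
      exact PNat.coe_injective (by exact_mod_cast this))
  refine h.congr (fun m => ?_)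
  simp

lemma two_K_eq {u : ℝ} (hu : 0 < u) :
    2 * K u = 4 * u ^ 4 * T 2 (u ^ 2) - 6 * u ^ 2 * T 1 (u ^ 2) := by
  have hs : 0 < u ^ 2 := by positivity
  have h1 := tsum_int_eq_zero_add_two_mul_tsum_pnat (f := fun n : ℤ => kap (n * u))
    (fun n => by simp [kap]; ring_nf) (summable_kap_int hu)
  have h0 : kap (((0 : ℤ) : ℝ) * u) = 0 := by simp [kap]
  simp only [h0, zero_add] at h1
  have h2 : (2 * K u) = ∑' n : ℤ, kap (n * u) := by
    rw [h1]; unfold K; simp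
  rw [h2, T, T, ← tsum_mul_left, ← tsum_mul_left,
    ← ((summable_T 2 hs).mul_left (4 * u ^ 4)).tsum_sub ((summable_T 1 hs).mul_left (6 * u ^ 2))]
  apply tsum_congr
  intro n
  unfold kap
  have : exp (-(π * ((n : ℝ) * u) ^ 2)) = exp (-(π * (n : ℝ) ^ 2 * u ^ 2)) := by
    congr 1; ring
  rw [this]
  ring

/-- Functional equation of the Riemann kernel. -/
theorem K_inv {u : ℝ} (hu : 0 < u) : K (1 / u) = u * K u := by
  have hs : 0 < u ^ 2 := by positivity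
  have hu' : 0 < 1 / u := by positivity
  have h1 := two_K_eq hu
  have h2 := two_K_eq hu'
  have e : (1 / u) ^ 2 = 1 / u ^ 2 := by rw [one_div_pow]
  rw [e] at h2
  have h3 := T1_inv hs
  have h4 := T2_inv hs
  have r3 : (u ^ 2) ^ (-(3 / 2) : ℝ) = 1 / u ^ 3 := by
    rw [← rpow_natCast u 2, ← rpow_mul hu.le, one_div, ← rpow_natCast u 3, ← rpow_neg hu.le]
    norm_num
  have r5 : (u ^ 2) ^ (-(5 / 2) : ℝ) = 1 / u ^ 5 := by
    rw [← rpow_natCast u 2, ← rpow_mul hu.le, one_div, ← rpow_natCast u 5, ← rpow_neg hu.le]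
    norm_num
  have r7 : (u ^ 2) ^ (-(7 / 2) : ℝ) = 1 / u ^ 7 := by
    rw [← rpow_natCast u 2, ← rpow_mul hu.le, one_div, ← rpow_natCast u 7, ← rpow_neg hu.le]
    norm_num
  have r9 : (u ^ 2) ^ (-(9 / 2) : ℝ) = 1 / u ^ 9 := by
    rw [← rpow_natCast u 2, ← rpow_mul hu.le, one_div, ← rpow_natCast u 9, ← rpow_neg hu.le]
    norm_num
  rw [h4, h3, r3, r5, r7, r9] at h1
  have h5 : 2 * K (1 / u) = 2 * (u * K u) := by
    have : 2 * (u * K u) = u * (2 * K u) := by ring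
    rw [this, h1, h2]
    field_simp
    ring
  linarith

end Pool.Agent.Helper18.ES
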