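import Pool.Agent.Helper18.ES.K1

open Real Filter Topology Set MeasureTheory Asymptotics
open Pool.Agent.Helper57.Zeta

namespace Pool.Agent.Helper18.ES

lemma abs_log_pow_le (k : ℕ) {ε : ℝ} (hε : 0 < ε) :
    ∃ C : ℝ, 0 < C ∧ ∀ y : ℝ, 0 < y → |log y| ^ k ≤ C * (y ^ ε + y ^ (-ε)) := by
  refine ⟨(k.factorial : ℝ) / ε ^ k, by positivity, fun y hy => ?_⟩
  have h1 := pow_div_factorial_le_exp (ε * |log y|) (mul_nonneg hε.le (abs_nonneg (log y))) k
  have h2 : exp (ε * |log y|) ≤ y ^ ε + y ^ (-ε) := by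
    rcases abs_cases (log y) with ⟨h, _⟩ | ⟨h, _⟩
    · rw [h, mul_comm, ← rpow_def_of_pos hy]
      have := rpow_pos_of_pos hy (-ε)
      linarith
    · rw [h, show ε * -log y = log y * (-ε) by ring, ← rpow_def_of_pos hy]
      have := rpow_pos_of_pos hy ε
      linarith
  have h3 := h1.trans h2
  rw [mul_pow, div_le_iff₀ (by positivity)] at h3
  rw [div_mul_eq_mul_div, le_div_iff₀ (by positivity)]
  linarith

/-- `log^j * K` -/
noncomputable def Kj (j : ℕ) (u : ℝ) : ℂ := ((log u ^ j : ℝ) : ℂ) * (K u : ℂ)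

lemma Kj_bound (j N : ℕ) : ∃ C : ℝ, 0 < C ∧ ∀ u : ℝ, 0 < u → (vv u) ^ N * ‖Kj j u‖ ≤ C := by
  obtain ⟨C1, hC1, h1⟩ := abs_log_pow_le j one_pos
  obtain ⟨C2, hC2, h2⟩ := K_le_pow (N + 1)
  refine ⟨2 * C1 * C2, by positivity, fun u hu => ?_⟩
  have hv := vv_ge_one hu
  have hKp := K_pos hu
  unfold Kj
  rw [norm_mul, Complex.norm_real, Complex.norm_real, Real.norm_eq_abs, Real.norm_eq_abs,
    abs_pow, abs_of_pos hKp]
  have h3 := h1 u hu
  have h4 : u ^ (1 : ℝ) + u ^ (-1 : ℝ) ≤ 2 * vv u := by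
    rw [rpow_one, rpow_neg_one]
    have := le_vv u
    have h5 := inv_le_vv u
    rw [one_div] at h5
    linarith
  calc vv u ^ N * (|log u| ^ j * K u) ≤ vv u ^ N * ((C1 * (2 * vv u)) * K u) := by
        apply mul_le_mul_of_nonneg_left _ (by positivity)
        apply mul_le_mul_of_nonneg_right _ hKp.le
        exact h3.trans (mul_le_mul_of_nonneg_left h4 hC1.le)
    _ = 2 * C1 * (vv u ^ (N + 1) * K u) := by ring
    _ ≤ 2 * C1 * C2 := mul_le_mul_of_nonneg_left (h2 u hu) (by positivity)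

lemma vv_of_one_le {u : ℝ} (hu : 1 ≤ u) : vv u = u := by
  rcases vv_eq_or (show 0 < u by linarith) with ⟨_, h'⟩ | ⟨h1, h'⟩
  · exact h'
  · have : u = 1 := le_antisymm h1 hu
    rw [h', this]; norm_num

lemma vv_of_le_one {u : ℝ} (hu0 : 0 < u) (hu : u ≤ 1) : vv u = 1 / u := by
  rcases vv_eq_or hu0 with ⟨h1, h'⟩ | ⟨_, h'⟩
  · have : u = 1 := le_antisymm hu h1
    rw [h', this]; norm_num
  · exact h'

lemma Kj_isBigO_top (j : ℕ) (a : ℝ) : (Kj j) =O[atTop] (fun u : ℝ => u ^ (-a)) := by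
  obtain ⟨N, hN⟩ := exists_nat_gt |a|
  obtain ⟨C, hC, h⟩ := Kj_bound j N
  apply IsBigO.of_bound C
  filter_upwards [eventually_ge_atTop (1 : ℝ)] with u hu
  have hu0 : 0 < u := by linarith
  rw [Real.norm_eq_abs, abs_of_pos (rpow_pos_of_pos hu0 _)]
  have h1 := h u hu0
  rw [vv_of_one_le hu] at h1
  have h2 : u ^ a ≤ u ^ N := by
    rw [← rpow_natCast]
    apply rpow_le_rpow_of_exponent_le hu
    exact (le_abs_self a).trans hN.le
  have h3 : u ^ a * ‖Kj j u‖ ≤ C := (mul_le_mul_of_nonneg_right h2 (norm_nonneg _)).trans h1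
  rw [rpow_neg hu0.le, ← div_eq_mul_inv, le_div_iff₀ (rpow_pos_of_pos hu0 _)]
  linarith

lemma Kj_isBigO_zero (j : ℕ) (b : ℝ) : (Kj j) =O[𝓝[>] 0] (fun u : ℝ => u ^ (-b)) := by
  obtain ⟨N, hN⟩ := exists_nat_gt |b|
  obtain ⟨C, hC, h⟩ := Kj_bound j N
  apply IsBigO.of_bound C
  have h01 : Ioc (0 : ℝ) 1 ∈ 𝓝[>] (0 : ℝ) := Ioc_mem_nhdsGT one_pos
  filter_upwards [h01] with u hu
  have hu0 : 0 < u := hu.1
  rw [Real.norm_eq_abs, abs_of_pos (rpow_pos_of_pos hu0 _)]
  have h1 := h u hu0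
  rw [vv_of_le_one hu0 hu.2] at h1
  have h2 : u ^ b ≤ (1 / u) ^ N := by
    rw [one_div, inv_pow, ← rpow_natCast, ← rpow_neg hu0.le]
    apply rpow_le_rpow_of_exponent_ge hu0 hu.2
    have := neg_abs_le b
    linarith
  have h3 : u ^ b * ‖Kj j u‖ ≤ C := (mul_le_mul_of_nonneg_right h2 (norm_nonneg _)).trans h1
  rw [rpow_neg hu0.le, ← div_eq_mul_inv, le_div_iff₀ (rpow_pos_of_pos hu0 _)]
  linarith

lemma continuousOn_Kj (j : ℕ) : ContinuousOn (Kj j) (Ioi 0) := by
  apply ContinuousOn.mul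
  · apply Complex.continuous_ofReal.comp_continuousOn
    apply ContinuousOn.pow
    exact continuousOn_log.mono (fun x (hx : (0 : ℝ) < x) => hx.ne')
  · exact Complex.continuous_ofReal.comp_continuousOn continuousOn_K

lemma locInt_Kj (j : ℕ) : LocallyIntegrableOn (Kj j) (Ioi 0) :=
  ContinuousOn.locallyIntegrableOn (continuousOn_Kj j) measurableSet_Ioi

lemma mellinConv_Kj (j : ℕ) (s : ℂ) : MellinConvergent (Kj j) s :=
  mellinConvergent_of_isBigO_rpow (locInt_Kj j) (Kj_isBigO_top j (s.re + 1)) (by linarith)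
    (Kj_isBigO_zero j (s.re - 1)) (by linarith)

lemma deriv_mellin_Kj (j : ℕ) : deriv (mellin (Kj j)) = mellin (Kj (j + 1)) := by
  funext s
  have h := (mellin_hasDerivAt_of_isBigO_rpow (locInt_Kj j) (Kj_isBigO_top j (s.re + 1))
    (by linarith) (Kj_isBigO_zero j (s.re - 1)) (by linarith : s.re - 1 < s.re)).2
  rw [h.deriv]
  congr 1
  funext t
  unfold Kj
  rw [Complex.real_smul]
  push_cast
  ring

lemma iteratedDeriv_mellin_K (j : ℕ) : iteratedDeriv j (mellin (Kj 0)) = mellin (Kj j) := by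
  induction j with
  | zero => simp
  | succ j ih => rw [iteratedDeriv_succ, ih, deriv_mellin_Kj]

lemma mellin_Kj_zero {ρ : ℂ} {k : ℕ} (hρ : ((k + 1 : ℕ) : ℕ∞) ≤ analyticOrderAt riemannZeta ρ)
    (h0 : 0 < ρ.re) (h1 : ρ.re < 1) : ∀ j ≤ k, mellin (Kj j) ρ = 0 := by
  have e0 : mellin (Kj 0) = fun s => (1 / 2) * xi s := by
    funext s
    rw [← mellin_K s]
    congr 1
    funext u
    simp [Kj]
  have hxi : ((k + 1 : ℕ) : ℕ∞) ≤ analyticOrderAt xi ρ := by
    rw [analyticOrderAt_xi h0 h1]; exact hρ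
  have hz := (natCast_le_analyticOrderAt_iff_iteratedDeriv_eq_zero (analyticAt_xi ρ)).mp hxi
  intro j hj
  rw [← iteratedDeriv_mellin_K j, e0]
  have h2 := hz j (by omega)
  have h3 : iteratedDeriv j (fun s => (1 / 2 : ℂ) * xi s) ρ = (1 / 2) * iteratedDeriv j xi ρ := by
    rw [iteratedDeriv_const_mul_field]
  rw [h3, h2, mul_zero]

/-- Convergence with powers of the logarithm. -/
lemma mellinConv_log {f : ℝ → ℂ} {s : ℂ} (k : ℕ) {ε : ℝ} (hε : 0 < ε)
    (h1 : MellinConvergent f (s + ε)) (h2 : MellinConvergent f (s - ε)) :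
    MellinConvergent (fun t => ((log t ^ k : ℝ) : ℂ) * f t) s := by
  obtain ⟨C, hC, hl⟩ := abs_log_pow_le k hε
  unfold MellinConvergent at *
  apply Integrable.mono' ((h1.norm.add h2.norm).const_mul C)
  · have h3 : AEStronglyMeasurable (fun t : ℝ => (((t ^ (-ε) * log t ^ k : ℝ)) : ℂ) *
        ((t : ℂ) ^ (s + ε - 1) • f t)) (volume.restrict (Ioi 0)) := by
      apply AEStronglyMeasurable.mul _ h1.1
      apply ContinuousOn.aestronglyMeasurable _ measurableSet_Ioi
      apply Complex.continuous_ofReal.comp_continuousOn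
      intro t ht
      have ht0 : (0 : ℝ) < t := ht
      apply ContinuousAt.continuousWithinAt
      apply ContinuousAt.mul
      · exact continuousAt_rpow_const _ _ (Or.inl ht0.ne')
      · exact (continuousAt_log ht0.ne').pow k
    refine h3.congr ?_
    rw [Filter.EventuallyEq, ae_restrict_iff' measurableSet_Ioi]
    refine Eventually.of_forall (fun t ht => ?_)
    have ht0 : (0 : ℝ) < t := ht
    have htc : (t : ℂ) ≠ 0 := by exact_mod_cast ht0.ne'
    simp only [smul_eq_mul]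
    have e : (t : ℂ) ^ (s + ε - 1) = (t : ℂ) ^ (s - 1) * (t : ℂ) ^ (ε : ℂ) := by
      rw [← Complex.cpow_add _ _ htc]; congr 1; ring
    have e2 : ((t ^ (-ε) : ℝ) : ℂ) * (t : ℂ) ^ (ε : ℂ) = 1 := by
      rw [Complex.ofReal_cpow ht0.le, ← Complex.cpow_add _ _ htc]
      push_cast
      rw [neg_add_cancel, Complex.cpow_zero]
    rw [e]
    push_cast
    linear_combination ((log t : ℂ) ^ k * (t : ℂ) ^ (s - 1) * f t) * e2
  · rw [ae_restrict_iff' measurableSet_Ioi]
    refine Eventually.of_forall (fun t ht => ?_)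
    have ht0 : (0 : ℝ) < t := ht
    simp only [smul_eq_mul, norm_mul, Complex.norm_cpow_eq_rpow_re_of_pos ht0, Pi.add_apply]
    rw [Complex.norm_real, Real.norm_eq_abs, abs_pow]
    have e1 : t ^ (s + ε - 1 : ℂ).re = t ^ (s - 1).re * t ^ ε := by
      rw [← rpow_add ht0]; congr 1; simp; ring
    have e2 : t ^ (s - ε - 1 : ℂ).re = t ^ (s - 1).re * t ^ (-ε) := by
      rw [← rpow_add ht0]; congr 1; simp; ring
    rw [e1, e2]
    calc t ^ (s - 1).re * (|log t| ^ k * ‖f t‖) ≤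
        t ^ (s - 1).re * ((C * (t ^ ε + t ^ (-ε))) * ‖f t‖) := by
          apply mul_le_mul_of_nonneg_left _ (rpow_pos_of_pos ht0 _).le
          exact mul_le_mul_of_nonneg_right (hl t ht0) (norm_nonneg _)
      _ = _ := by ring

/-- Binomial expansion of a scaled Mellin transform with a power of the logarithm. -/
lemma mellin_log_scaled {f : ℝ → ℂ} {s : ℂ} (k : ℕ)
    (hf : ∀ j ≤ k, MellinConvergent (fun t => ((log t ^ j : ℝ) : ℂ) * f t) s) {x : ℝ} (hx : 0 < x) :
    mellin (fun t => ((log t ^ k : ℝ) : ℂ) * f (x * t)) s =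
      (x : ℂ) ^ (-s) * ∑ j ∈ Finset.range (k + 1),
        (((k.choose j : ℝ) * (-log x) ^ (k - j) : ℝ) : ℂ) *
          mellin (fun t => ((log t ^ j : ℝ) : ℂ) * f t) s := by
  set g : ℝ → ℂ := fun z => (((log z - log x) ^ k : ℝ) : ℂ) * f z with hg
  have e1 : mellin (fun t => ((log t ^ k : ℝ) : ℂ) * f (x * t)) s = mellin (fun t => g (x * t)) s := by
    unfold mellin
    apply setIntegral_congr_fun measurableSet_Ioi
    intro t ht
    have ht0 : (0 : ℝ) < t := ht
    simp only [hg]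
    rw [log_mul hx.ne' ht0.ne', add_sub_cancel_left]
  rw [e1, mellin_comp_mul_left g s hx, smul_eq_mul]
  congr 1
  have e2 : ∀ z : ℝ, g z = ∑ j ∈ Finset.range (k + 1),
      (((k.choose j : ℝ) * (-log x) ^ (k - j) : ℝ) : ℂ) * (((log z ^ j : ℝ) : ℂ) * f z) := by
    intro z
    simp only [hg]
    rw [sub_eq_add_neg, add_pow]
    push_cast
    rw [Finset.sum_mul]
    apply Finset.sum_congr rfl
    intro j _
    ring
  unfold mellin
  simp_rw [e2, smul_eq_mul, Finset.mul_sum]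
  rw [integral_finsetSum]
  · apply Finset.sum_congr rfl
    intro j _
    rw [← integral_const_mul]
    apply integral_congr_ae
    refine Eventually.of_forall (fun t => ?_)
    simp only
    ring
  · intro j hj
    have hj' : j ≤ k := by
      have := Finset.mem_range.mp hj; omega
    have h := (hf j hj').const_mul (((k.choose j : ℝ) * (-log x) ^ (k - j) : ℝ) : ℂ)
    refine h.congr (Eventually.of_forall (fun t => ?_))
    simp only [smul_eq_mul]
    ring

/-- The weight attached to a zero `ρ` and `k` smaller than its multiplicity. -/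
noncomputable def Wk (ρ : ℂ) (k : ℕ) (y : ℝ) : ℂ := (y : ℂ) ^ (-ρ - 1) * ((log y ^ k : ℝ) : ℂ)

lemma norm_cpow_aux {ρ : ℂ} {y : ℝ} (hy : 0 < y) : ‖(y : ℂ) ^ (-ρ - 1)‖ = y ^ (-ρ.re - 1) := by
  rw [Complex.norm_cpow_eq_rpow_re_of_pos hy]
  simp

lemma norm_Wk {ρ : ℂ} {k : ℕ} {y : ℝ} (hy : 0 < y) :
    ‖Wk ρ k y‖ = y ^ (-ρ.re - 1) * |log y| ^ k := by
  unfold Wk
  rw [norm_mul, norm_cpow_aux hy, Complex.norm_real, Real.norm_eq_abs, abs_pow]

lemma cont_Wk (ρ : ℂ) (k : ℕ) : ContinuousOn (Wk ρ k) (Ioi 0) := by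
  intro y hy
  have hy0 : (0 : ℝ) < y := hy
  apply ContinuousAt.continuousWithinAt
  unfold Wk
  apply ContinuousAt.mul
  · apply ContinuousAt.comp (f := fun y : ℝ => (y : ℂ)) (g := fun w : ℂ => w ^ (-ρ - 1))
    · apply ContinuousAt.cpow continuousAt_id continuousAt_const
      left; simpa using hy0
    · fun_prop
  · apply Complex.continuous_ofReal.continuousAt.comp
    exact (continuousAt_log hy0.ne').pow k

/-- The weight is integrable at infinity. -/
lemma int_Wk_top {ρ : ℂ} (k : ℕ) (hre : 1 / 2 ≤ ρ.re) : IntegrableOn (fun y => ‖Wk ρ k y‖) (Ioi 1) := by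
  obtain ⟨C, hC, hl⟩ := abs_log_pow_le k (show (0 : ℝ) < 1 / 4 by norm_num)
  have hi : IntegrableOn (fun y : ℝ => (2 * C) * y ^ (-(5 / 4) : ℝ)) (Ioi 1) := by
    apply Integrable.const_mul
    exact integrableOn_Ioi_rpow_of_lt (by norm_num) one_pos
  apply Integrable.mono' hi
  · apply ContinuousOn.aestronglyMeasurable _ measurableSet_Ioi
    exact ((cont_Wk ρ k).mono (fun x (hx : (1 : ℝ) < x) => (lt_trans one_pos hx : (0 : ℝ) < x))).norm
  · refine (ae_restrict_iff' measurableSet_Ioi).mpr (Eventually.of_forall (fun y hy => ?_))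
    have hy1 : (1 : ℝ) < y := hy
    have hy0 : 0 < y := by linarith
    rw [norm_norm, norm_Wk hy0]
    have h1 := hl y hy0
    have h2 : y ^ (-(1 / 4) : ℝ) ≤ y ^ (1 / 4 : ℝ) :=
      rpow_le_rpow_of_exponent_le hy1.le (by norm_num)
    have h3 : y ^ (-ρ.re - 1) ≤ y ^ (-(3 / 2) : ℝ) :=
      rpow_le_rpow_of_exponent_le hy1.le (by linarith)
    have h4 : y ^ (-(5 / 4) : ℝ) = y ^ (-(3 / 2) : ℝ) * y ^ (1 / 4 : ℝ) := by
      rw [← rpow_add hy0]; norm_num
    have h5 := rpow_pos_of_pos hy0 (1 / 4 : ℝ)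
    have h6 := rpow_pos_of_pos hy0 (-(3 / 2) : ℝ)
    rw [h4]
    calc y ^ (-ρ.re - 1) * |log y| ^ k ≤ y ^ (-(3 / 2) : ℝ) * (C * (2 * y ^ (1 / 4 : ℝ))) := by
          apply mul_le_mul h3 _ (by positivity) h6.le
          refine h1.trans ?_
          apply mul_le_mul_of_nonneg_left _ hC.le
          linarith
      _ = _ := by ring

lemma int1_Wk {ρ : ℂ} (k : ℕ) (hre : 1 / 2 ≤ ρ.re) : IntegrableOn (fun y => ‖Wk ρ k y‖ / y) (Ioi 1) := by
  apply Integrable.mono' (int_Wk_top k hre)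
  · apply ContinuousOn.aestronglyMeasurable _ measurableSet_Ioi
    apply ContinuousOn.div
    · exact ((cont_Wk ρ k).mono (fun x (hx : (1 : ℝ) < x) => (lt_trans one_pos hx : (0 : ℝ) < x))).norm
    · fun_prop
    · intro y hy
      have : (1 : ℝ) < y := hy
      positivity
  · refine (ae_restrict_iff' measurableSet_Ioi).mpr (Eventually.of_forall (fun y hy => ?_))
    have hy1 : (1 : ℝ) < y := hy
    have hy0 : 0 < y := by linarith
    rw [Real.norm_eq_abs, abs_of_nonneg (by positivity)]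
    exact div_le_self (norm_nonneg _) hy1.le

lemma int0_Wk {ρ : ℂ} (k : ℕ) (hre : ρ.re ≤ 1) : IntegrableOn (fun y => ‖Wk ρ k y‖ * y ^ 2) (Ioo 0 1) := by
  obtain ⟨C, hC, hl⟩ := abs_log_pow_le k (show (0 : ℝ) < 1 / 2 by norm_num)
  have hi : IntegrableOn (fun y : ℝ => (2 * C) * y ^ (-(1 / 2) : ℝ)) (Ioo 0 1) := by
    apply Integrable.const_mul
    have := (intervalIntegral.intervalIntegrable_rpow' (a := 0) (b := 1) (r := (-(1 / 2) : ℝ))
      (by norm_num))
    rw [intervalIntegrable_iff_integrableOn_Ioo_of_le (by norm_num)] at this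
    exact this
  apply Integrable.mono' hi
  · apply ContinuousOn.aestronglyMeasurable _ measurableSet_Ioo
    apply ContinuousOn.mul
    · exact ((cont_Wk ρ k).mono Ioo_subset_Ioi_self).norm
    · fun_prop
  · refine (ae_restrict_iff' measurableSet_Ioo).mpr (Eventually.of_forall (fun y hy => ?_))
    have hy0 : 0 < y := hy.1
    have hy1 : y ≤ 1 := hy.2.le
    rw [Real.norm_eq_abs, abs_of_nonneg (by positivity), norm_Wk hy0]
    have h1 := hl y hy0
    have h2 : y ^ (1 / 2 : ℝ) ≤ y ^ (-(1 / 2) : ℝ) :=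
      rpow_le_rpow_of_exponent_ge hy0 hy1 (by norm_num)
    have h3 : y ^ (-ρ.re - 1) * y ^ 2 ≤ 1 := by
      rw [← rpow_natCast, ← rpow_add hy0]
      apply rpow_le_one hy0.le hy1
      push_cast; linarith
    have h5 := rpow_pos_of_pos hy0 (-(1 / 2) : ℝ)
    calc y ^ (-ρ.re - 1) * |log y| ^ k * y ^ 2 = (y ^ (-ρ.re - 1) * y ^ 2) * |log y| ^ k := by ring
      _ ≤ 1 * (C * (2 * y ^ (-(1 / 2) : ℝ))) := by
          apply mul_le_mul h3 _ (by positivity) (by norm_num)
          refine h1.trans ?_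
          apply mul_le_mul_of_nonneg_left _ hC.le
          linarith
      _ = _ := by ring

lemma wt_Wk {ρ : ℂ} {k : ℕ} (hρ : ((k + 1 : ℕ) : ℕ∞) ≤ analyticOrderAt riemannZeta ρ)
    (hre : 1 / 2 ≤ ρ.re) (h1 : ρ.re < 1) : Wt (Wk ρ k) := by
  refine ⟨cont_Wk ρ k, int0_Wk k h1.le, int1_Wk k hre, fun u hu => ?_⟩
  have hz := mellin_Kj_zero hρ (by linarith) h1
  -- the function `K (1/y)`
  set f : ℝ → ℂ := fun y => (K (1 / y) : ℂ) with hf
  have hfj : ∀ j : ℕ, (fun t => ((log t ^ j : ℝ) : ℂ) * f t) =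
      fun t => (fun w => (-1 : ℂ) ^ j * Kj j w) t⁻¹ := by
    intro j
    funext t
    simp only [hf, Kj]
    rw [log_inv, one_div]
    push_cast
    rw [neg_pow (log t : ℂ) j]
    have : (-1 : ℂ) ^ j * (-1) ^ j = 1 := by
      rw [← mul_pow]; simp
    linear_combination (-((log t : ℂ) ^ j * (K t⁻¹ : ℂ))) * this
  have hconv : ∀ j ≤ k, MellinConvergent (fun t => ((log t ^ j : ℝ) : ℂ) * f t) (-ρ) := by
    intro j _
    rw [hfj j]
    have h2 := (MellinConvergent.comp_rpow (f := fun w => (-1 : ℂ) ^ j * Kj j w) (s := -ρ)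
      (a := -1) (by norm_num)).mpr (by
      have e : -ρ / ((-1 : ℝ) : ℂ) = ρ := by push_cast; ring
      rw [e]
      have := (mellinConv_Kj j ρ).const_smul ((-1 : ℂ) ^ j)
      simpa [smul_eq_mul] using this)
    simp_rw [rpow_neg_one] at h2
    exact h2
  have hmel : ∀ j ≤ k, mellin (fun t => ((log t ^ j : ℝ) : ℂ) * f t) (-ρ) = 0 := by
    intro j hj
    rw [hfj j]
    have h3 := mellin_comp_inv (fun w => (-1 : ℂ) ^ j * Kj j w) (-ρ)
    rw [neg_neg] at h3
    rw [h3]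
    have h4 := mellin_const_smul (Kj j) ρ ((-1 : ℂ) ^ j)
    simp only [smul_eq_mul] at h4
    rw [h4, hz j hj, mul_zero]
  have h5 := mellin_log_scaled k hconv (x := 1 / u) (by positivity)
  have h6 : (∑ j ∈ Finset.range (k + 1),
        (((k.choose j : ℝ) * (-log (1 / u)) ^ (k - j) : ℝ) : ℂ) *
          mellin (fun t => ((log t ^ j : ℝ) : ℂ) * f t) (-ρ)) = 0 := by
    apply Finset.sum_eq_zero
    intro j hj
    have hj' : j ≤ k := by
      have := Finset.mem_range.mp hj; omega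
    rw [hmel j hj', mul_zero]
  rw [h6, mul_zero] at h5
  rw [← h5]
  unfold mellin
  apply setIntegral_congr_fun measurableSet_Ioi
  intro y hy
  have hy0 : (0 : ℝ) < y := hy
  simp only [Wk, hf, smul_eq_mul]
  have e : 1 / (1 / u * y) = u / y := by field_simp
  rw [e]
  ring

end Pool.Agent.Helper18.ES
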