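import Pool.Agent.Helper18.ES.Final

open Real Filter Topology Set MeasureTheory Asymptotics
open Pool.Agent.Helper57.Zeta

namespace Pool.Agent.Helper18.ES

lemma Gz_le {β : ℝ} (hβ0 : 0 ≤ β) (hβ1 : β ≤ 1) (k : ℕ) {t x v : ℝ} (ht : 1 ≤ t) (hx : 0 < x)
    (hlx : 1 ≤ log x) (hv : 1 ≤ v) (htx : t ≤ x * v) : Gz β k t ≤ Gz β k x * v ^ (k + 1) := by
  unfold Gz
  have hv0 : 0 < v := by linarith
  have ht0 : 0 < t := by linarith
  have h1 : t ^ β ≤ x ^ β * v := by
    calc t ^ β ≤ (x * v) ^ β := rpow_le_rpow ht0.le htx hβ0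
      _ = x ^ β * v ^ β := mul_rpow hx.le hv0.le
      _ ≤ x ^ β * v := by
          apply mul_le_mul_of_nonneg_left _ (rpow_pos_of_pos hx _).le
          have := rpow_le_rpow_of_exponent_le hv hβ1
          rwa [rpow_one] at this
  have h2 : log t ≤ log x * v := by
    have h3 : log t ≤ log x + log v := by
      rw [← log_mul hx.ne' hv0.ne']
      exact log_le_log ht0 htx
    have h4 := log_le_sub_one_of_pos hv0
    nlinarith
  have h3 : log t ^ k ≤ log x ^ k * v ^ k := by
    rw [← mul_pow]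
    exact pow_le_pow_left₀ (log_nonneg ht) h2 k
  calc t ^ β * log t ^ k ≤ (x ^ β * v) * (log x ^ k * v ^ k) :=
        mul_le_mul h1 h3 (pow_nonneg (log_nonneg ht) k) (by positivity)
    _ = _ := by ring

/-- Window form: every `[Y, C Y log Y]` contains a large value. -/
theorem window_form {A : ℝ → ℝ} {D β : ℝ} {k : ℕ} (h : Adm A D) (hβ0 : 1 / 2 ≤ β) (hβ1 : β ≤ 1)
    (hlow : Lowr A β k) {C : ℝ} (hC : 1 / (2 * π) < C) :
    ∃ c : ℝ, 0 < c ∧ ∃ Y₀ : ℝ, 3 ≤ Y₀ ∧ ∀ Y : ℝ, Y₀ ≤ Y → ∃ t : ℝ, Y ≤ t ∧ t ≤ C * Y * log Y ∧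
      c * Gz β k t ≤ A t := by
  have hpi := pi_pos
  have hC0 : 0 < C := lt_trans (by positivity) hC
  have hC1 : 1 / (2 * C) < π := by
    rw [div_lt_iff₀ (by positivity)] at hC ⊢
    linarith
  set a : ℝ := (1 / (2 * C) + π) / 2 with ha
  set b : ℝ := (1 / (2 * C) + a) / 2 with hb
  have h2C : 0 < 1 / (2 * C) := by positivity
  have ha1 : a < π := by rw [ha]; linarith
  have ha2 : 1 / (2 * C) < a := by rw [ha]; linarith
  have hb1 : b < a := by rw [hb]; linarith
  have hb2 : 1 / (2 * C) < b := by rw [hb]; linarith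
  have hb0 : 0 < b := by linarith
  have ha0 : 0 < a := by linarith
  have hbC : 0 < b * C - 1 / 2 := by
    rw [div_lt_iff₀ (by positivity)] at hb2
    linarith
  obtain ⟨c, hc, x₀, hx₀, hp⟩ := point_form h hlow ha1
  obtain ⟨C1, hC1p, hC1⟩ := pow_mul_exp_bdd 1 (b := a - b) (by linarith)
  obtain ⟨C2, hC2p, hC2⟩ := pow_mul_exp_bdd (k + 1) ha0
  have hD := h.nonneg
  set L1 : ℝ := log (D * C1 / c + 1) with hL1
  set δ : ℝ := 2 * (b * C - 1 / 2) / C with hδ
  have hδ0 : 0 < δ := by positivity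
  set L0 : ℝ := max (max 1 (1 / C)) (max (log x₀) (2 * (L1 + |log δ|) / (b * C - 1 / 2))) with hL0
  refine ⟨c / C2, by positivity, max 3 (exp L0), le_max_left _ _, fun Y hY => ?_⟩
  have hY3 : 3 ≤ Y := (le_max_left _ _).trans hY
  have hY0 : 0 < Y := by linarith
  have hYe : exp L0 ≤ Y := (le_max_right _ _).trans hY
  set L : ℝ := log Y with hL
  have hLL : L0 ≤ L := by
    rw [hL, ← log_exp L0]; exact log_le_log (exp_pos _) hYe
  have hL_1 : 1 ≤ L := ((le_max_left _ _).trans (le_max_left _ _)).trans hLL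
  have hL_C : 1 / C ≤ L := ((le_max_right _ _).trans (le_max_left _ _)).trans hLL
  have hL_x : log x₀ ≤ L := ((le_max_left _ _).trans (le_max_right _ _)).trans hLL
  have hL_d : 2 * (L1 + |log δ|) / (b * C - 1 / 2) ≤ L :=
    ((le_max_right _ _).trans (le_max_right _ _)).trans hLL
  have hL0' : 0 < L := by linarith
  have hCL1 : 1 ≤ C * L := by
    rw [div_le_iff₀ hC0] at hL_C; linarith
  set R : ℝ := √(C * L) with hR
  have hR1 : 1 ≤ R := by rw [hR, Real.one_le_sqrt]; exact hCL1
  have hR0 : 0 < R := by linarith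
  have hR2 : R ^ 2 = C * L := by rw [hR]; exact sq_sqrt (by linarith)
  set x : ℝ := Y * R with hx
  have hxY : Y ≤ x := by rw [hx]; nlinarith
  have hx0 : 0 < x := by linarith
  have hxx0 : x₀ ≤ x := by
    have h1 : x₀ ≤ Y := by
      have hx0' : 0 < x₀ := by linarith
      exact (log_le_log_iff hx0' hY0).mp hL_x
    exact h1.trans hxY
  have hlx : 1 ≤ log x := hL_1.trans (log_le_log hY0 hxY)
  obtain ⟨t, ht1, ht⟩ := hp x hxx0
  have ht0 : 0 < t := by linarith
  set v : ℝ := vv (t / x) with hv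
  have hv1 : 1 ≤ v := vv_ge_one (by positivity)
  have hv0 : 0 < v := by linarith
  have htx : t ≤ x * v := by
    have := le_vv (t / x)
    rw [div_le_iff₀ hx0] at this
    linarith
  have hxt : x ≤ t * v := by
    have := inv_le_vv (t / x)
    rw [one_div_div, div_le_iff₀ ht0] at this
    linarith
  have hGx : √x ≤ Gz β k x := by
    unfold Gz
    have h1 : √x ≤ x ^ β := by
      rw [sqrt_eq_rpow]
      exact rpow_le_rpow_of_exponent_le (by linarith) hβ0
    have h2 : 1 ≤ log x ^ k := one_le_pow₀ hlx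
    have h3 := (rpow_pos_of_pos hx0 β).le
    nlinarith
  have hAt : A t ≤ D * t := (le_abs_self _).trans (h.bound t ht1)
  -- `exp(b v²) ≤ (D C1 / c) √x`
  have hsx : 0 < √x := sqrt_pos.mpr hx0
  have hkey : exp (b * v ^ 2) ≤ (D * C1 / c) * √x := by
    have h1 : c * √x * exp (a * v ^ 2) ≤ D * (x * v) := by
      calc c * √x * exp (a * v ^ 2) ≤ c * Gz β k x * exp (a * v ^ 2) := by
            apply mul_le_mul_of_nonneg_right _ (exp_pos _).le
            exact mul_le_mul_of_nonneg_left hGx hc.le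
        _ ≤ A t := ht
        _ ≤ D * t := hAt
        _ ≤ D * (x * v) := mul_le_mul_of_nonneg_left htx hD
    have h2 := hC1 v hv1
    rw [pow_one] at h2
    have h3 : exp (a * v ^ 2) * exp (-((a - b) * v ^ 2)) = exp (b * v ^ 2) := by
      rw [← exp_add]; congr 1; ring
    have h4 : x = √x * √x := (mul_self_sqrt hx0.le).symm
    have h5 : c * √x * exp (b * v ^ 2) ≤ c * √x * ((D * C1 / c) * √x) := by
      calc c * √x * exp (b * v ^ 2) = (c * √x * exp (a * v ^ 2)) * exp (-((a - b) * v ^ 2)) := by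
            rw [← h3]; ring
        _ ≤ (D * (x * v)) * exp (-((a - b) * v ^ 2)) :=
            mul_le_mul_of_nonneg_right h1 (exp_pos _).le
        _ = D * x * (v * exp (-((a - b) * v ^ 2))) := by ring
        _ ≤ D * x * C1 := mul_le_mul_of_nonneg_left h2 (by positivity)
        _ = c * √x * ((D * C1 / c) * √x) := by
            nth_rewrite 1 [h4]; field_simp
    exact le_of_mul_le_mul_left h5 (by positivity)
  have hbv : b * v ^ 2 ≤ L1 + (1 / 2) * log x := by
    have h1 : exp (b * v ^ 2) ≤ (D * C1 / c + 1) * √x := by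
      refine hkey.trans ?_
      apply mul_le_mul_of_nonneg_right _ hsx.le
      linarith
    have h2 := log_le_log (exp_pos _) h1
    rw [log_exp, log_mul (by positivity) hsx.ne', log_sqrt hx0.le] at h2
    linarith
  have hlogx : log x = L + (1 / 2) * log (C * L) := by
    rw [hx, log_mul hY0.ne' hR0.ne', hR, log_sqrt (by linarith)]
    ring
  have hlogCL : log (C * L) ≤ δ * (C * L) + |log δ| := by
    have h1 := log_le_sub_one_of_pos (show 0 < δ * (C * L) by positivity)
    rw [log_mul hδ0.ne' (by positivity)] at h1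
    have := neg_abs_le (log δ)
    linarith
  have hv2 : v ^ 2 ≤ C * L := by
    have h1 : δ * (C * L) = 2 * (b * C - 1 / 2) * L := by
      rw [hδ]; field_simp
    have h2 : 2 * (L1 + |log δ|) ≤ L * (b * C - 1 / 2) := by
      rw [div_le_iff₀ hbC] at hL_d; exact hL_d
    have h3 : b * v ^ 2 ≤ b * (C * L) := by
      rw [hlogx] at hbv
      rw [h1] at hlogCL
      have h4 := abs_nonneg (log δ)
      nlinarith
    exact le_of_mul_le_mul_left h3 hb0
  have hvR : v ≤ R := by
    rw [hR]; exact Real.le_sqrt_of_sq_le hv2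
  refine ⟨t, ?_, ?_, ?_⟩
  · have h1 : Y * R ≤ t * R := by
      rw [← hx]
      exact hxt.trans (mul_le_mul_of_nonneg_left hvR ht0.le)
    exact le_of_mul_le_mul_right h1 hR0
  · calc t ≤ x * v := htx
      _ ≤ x * R := mul_le_mul_of_nonneg_left hvR hx0.le
      _ = Y * R ^ 2 := by rw [hx]; ring
      _ = C * Y * L := by rw [hR2]; ring
  · have h1 := Gz_le (by linarith) hβ1 k ht1 hx0 hlx hv1 htx
    have hGx0 : 0 ≤ Gz β k x := hsx.le.trans hGx
    have h2 := hC2 v hv1
    have h3 : v ^ (k + 1) ≤ C2 * exp (a * v ^ 2) := by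
      have h4 : v ^ (k + 1) = (v ^ (k + 1) * exp (-(a * v ^ 2))) * exp (a * v ^ 2) := by
        rw [mul_assoc, ← exp_add]; simp
      rw [h4]
      exact mul_le_mul_of_nonneg_right h2 (exp_pos _).le
    calc c / C2 * Gz β k t ≤ c / C2 * (Gz β k x * v ^ (k + 1)) :=
          mul_le_mul_of_nonneg_left h1 (by positivity)
      _ ≤ c / C2 * (Gz β k x * (C2 * exp (a * v ^ 2))) := by
          apply mul_le_mul_of_nonneg_left _ (by positivity)
          exact mul_le_mul_of_nonneg_left h3 hGx0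
      _ = c * Gz β k x * exp (a * v ^ 2) := by field_simp
      _ ≤ A t := ht

end Pool.Agent.Helper18.ES
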